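import Mathlib

/-! # Homomorphisms from an elementary abelian group to the group of order `p` -/

set_option autoImplicit false

namespace Spr43

theorem aff_dual {p : ℕ} [hp : Fact p.Prime] {V : Type*} [AddCommGroup V]
    (he : ∀ v : V, p • v = 0) (v : V) (hv : v ≠ 0) : ∃ φ : V →+ ZMod p, φ v ≠ 0 := by
  let _ : Module (ZMod p) V := AddCommGroup.zmodModule he
  let b := Module.Basis.ofVectorSpace (ZMod p) V
  by_contra hcon
  push Not at hcon
  exact hv ((Module.Basis.forall_coord_eq_zero_iff b).1 fun i => hcon (b.coord i).toAddMonoidHom)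

theorem aff_dual' {p : ℕ} [hp : Fact p.Prime] {G : Type*} [CommGroup G]
    (he : ∀ a : G, a ^ p = 1) (m : G) (hm : m ≠ 1) :
    ∃ l : G →* Multiplicative (ZMod p), l m ≠ 1 := by
  obtain ⟨φ, hφ⟩ := aff_dual (p := p) (V := Additive G) (fun v => he v.toMul)
    (Additive.ofMul m) (fun h => hm h)
  refine ⟨{ toFun := fun a => Multiplicative.ofAdd (φ (Additive.ofMul a))
            map_one' := by
              rw [ofMul_one, map_zero]
              rfl
            map_mul' := fun a b => by
              rw [ofMul_mul, map_add]
              rfl }, fun h => hφ h⟩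

/-- There are enough homomorphisms. -/
theorem aff_exists_hom {G : Type*} [hG : Group G] (p : ℕ) [hp : Fact p.Prime]
    (hc : ∀ a b : G, a * b = b * a) (he : ∀ a : G, a ^ p = 1) (m : G) (hm : m ≠ 1) :
    ∃ l : G →* Multiplicative (ZMod p), l m ≠ 1 := by
  let hC : CommGroup G := { hG with mul_comm := hc }
  exact @aff_dual' p hp G hC he m hm

/-- The number of the homomorphisms which are trivial at `m ≠ 1`. -/
theorem aff_card {G : Type*} [Group G] [Finite G] (p : ℕ) [hp : Fact p.Prime]
    (hc : ∀ a b : G, a * b = b * a) (he : ∀ a : G, a ^ p = 1) (m : G) (hm : m ≠ 1) :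
    Nat.card {l : G →* Multiplicative (ZMod p) // l m = 1} * p =
      Nat.card (G →* Multiplicative (ZMod p)) := by
  let ev : (G →* Multiplicative (ZMod p)) →* Multiplicative (ZMod p) :=
    { toFun := fun l => l m
      map_one' := rfl
      map_mul' := fun _ _ => rfl }
  obtain ⟨l, hl⟩ := aff_exists_hom p hc he m hm
  have hcard : Nat.card (Multiplicative (ZMod p)) = p := by
    rw [Nat.card_congr Multiplicative.toAdd, Nat.card_zmod]
  have hfact : Fact (Nat.card (Multiplicative (ZMod p))).Prime := by
    rw [hcard]
    exact hp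
  have h1 : ev.range = ⊤ := by
    rcases Subgroup.eq_bot_or_eq_top_of_prime_card ev.range with h | h
    · exfalso
      apply hl
      have h2 : ev l ∈ ev.range := ⟨l, rfl⟩
      rw [h, Subgroup.mem_bot] at h2
      exact h2
    · exact h
  have h2 := Subgroup.card_mul_index ev.ker
  rw [Subgroup.index_ker, h1, Subgroup.card_top, hcard] at h2
  exact h2

/-- A nontrivial homomorphism takes the value `1` of `ZMod p`. -/
theorem aff_surj {G : Type*} [Group G] (p : ℕ) [hp : Fact p.Prime]
    (l : G →* Multiplicative (ZMod p)) (hl : l ≠ 1) (i : ZMod p) :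
    ∃ m : G, l m = Multiplicative.ofAdd i := by
  have hcard : Nat.card (Multiplicative (ZMod p)) = p := by
    rw [Nat.card_congr Multiplicative.toAdd, Nat.card_zmod]
  have hfact : Fact (Nat.card (Multiplicative (ZMod p))).Prime := by
    rw [hcard]
    exact hp
  have h1 : l.range = ⊤ := by
    rcases Subgroup.eq_bot_or_eq_top_of_prime_card l.range with h | h
    · exfalso
      apply hl
      refine MonoidHom.ext fun a => ?_
      have h2 : l a ∈ l.range := ⟨a, rfl⟩
      rw [h, Subgroup.mem_bot] at h2
      exact h2
    · exact h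
  exact MonoidHom.range_eq_top.1 h1 _

end Spr43
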