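import Mathlib

/-! # Functions on `ZMod p` with sum zero

A subspace of the functions `ZMod p → ℚ` which is stable under the shift and contains one nonzero
function with sum zero contains all functions with sum zero (the cyclotomic polynomial is
irreducible). -/

set_option autoImplicit false

namespace Spr43

open Polynomial

theorem aff_poly {p : ℕ} (hp : p.Prime) (u : ℚ[X]) (hu : u ≠ 0) (hd : u.natDegree < p)
    (h1 : u.eval 1 = 0) : ∃ a b : ℚ[X], a * u + b * (X ^ p - 1) = X - 1 := by
  have hpf : Fact p.Prime := ⟨hp⟩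
  obtain ⟨v, hv⟩ := dvd_iff_isRoot.2 h1
  have hv0 : v ≠ 0 := by
    rintro rfl
    exact hu (by rw [hv, mul_zero])
  have hdeg : u.natDegree = 1 + v.natDegree := by
    rw [hv, natDegree_mul (X_sub_C_ne_zero 1) hv0, natDegree_X_sub_C]
  have hirr := cyclotomic.irreducible_rat hp.pos
  have hcop : IsCoprime (cyclotomic p ℚ) v := by
    refine (hirr.coprime_iff_not_dvd).2 fun hdvd => ?_
    have h2 := natDegree_le_of_dvd hdvd hv0
    rw [natDegree_cyclotomic, Nat.totient_prime hp] at h2
    omega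
  obtain ⟨a, b, hab⟩ := hcop
  refine ⟨b, a, ?_⟩
  have h2 := cyclotomic_prime_mul_X_sub_one ℚ p
  rw [map_one] at hv
  rw [← h2, hv]
  linear_combination (X - 1) * hab

/-- the shift -/
noncomputable def shf (p : ℕ) : Module.End ℚ (ZMod p → ℚ) :=
  LinearMap.funLeft ℚ ℚ (fun i => i + 1)

theorem shf_pow (p j : ℕ) (u : ZMod p → ℚ) (i : ZMod p) : (shf p ^ j) u i = u (i + j) := by
  induction j generalizing u i with
  | zero => simp
  | succ j ih =>
    rw [pow_succ, Module.End.mul_apply, ih]
    simp only [shf, LinearMap.funLeft_apply]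
    congr 1
    push_cast
    ring

/-- a subspace stable under `T` is stable under the polynomials in `T` -/
theorem aff_aeval {V : Type*} [AddCommGroup V] [Module ℚ V] (T : Module.End ℚ V)
    (W : Submodule ℚ V) (hW : ∀ w ∈ W, T w ∈ W) (q : ℚ[X]) (w : V) (hw : w ∈ W) :
    aeval T q w ∈ W := by
  have h1 : ∀ j : ℕ, (T ^ j) w ∈ W := by
    intro j
    induction j with
    | zero => exact hw
    | succ j ih =>
      rw [pow_succ', Module.End.mul_apply]
      exact hW _ ih
  rw [aeval_eq_sum_range, LinearMap.sum_apply]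
  exact W.sum_mem fun j _ => W.smul_mem _ (h1 j)

theorem aff_zp {p : ℕ} [hp : Fact p.Prime] (W : Submodule ℚ (ZMod p → ℚ))
    (hW : ∀ u ∈ W, (fun i => u (i + 1)) ∈ W) (u : ZMod p → ℚ) (hu : u ∈ W) (hu0 : u ≠ 0)
    (hus : ∑ i, u i = 0) (v : ZMod p → ℚ) (hvs : ∑ i, v i = 0) : v ∈ W := by
  classical
  have hT : ∀ (q : ℚ[X]) (w : ZMod p → ℚ), w ∈ W → aeval (shf p) q w ∈ W := fun q w hw =>
    aff_aeval (shf p) W hW q w hw
  let δ : ZMod p → ℚ := Pi.single 0 1
  have hδ0 : δ 0 = 1 := Pi.single_eq_same 0 1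
  have hδ : ∀ j, j ≠ 0 → δ j = 0 := fun j hj => Pi.single_eq_of_ne hj 1
  let P : (ZMod p → ℚ) → ℚ[X] := fun w => ∑ j : ZMod p, C (w (-j)) * X ^ j.val
  have hP : ∀ w, aeval (shf p) (P w) δ = w := by
    intro w
    funext i
    have h1 : aeval (shf p) (P w) δ i = ∑ j : ZMod p, w (-j) * δ (i + j) := by
      simp only [P, map_sum, map_mul, aeval_C, map_pow, aeval_X, LinearMap.sum_apply,
        Finset.sum_apply]
      refine Finset.sum_congr rfl fun j _ => ?_
      rw [Module.End.mul_apply, Module.algebraMap_end_apply, Pi.smul_apply, shf_pow,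
        smul_eq_mul, ZMod.natCast_zmod_val]
    rw [h1, Finset.sum_eq_single (-i)]
    · rw [neg_neg, add_neg_cancel, hδ0, mul_one]
    · intro j _ hj
      rw [hδ, mul_zero]
      intro h2
      exact hj (eq_neg_of_add_eq_zero_right h2)
    · intro h2
      exact absurd (Finset.mem_univ _) h2
  have hP1 : ∀ w : ZMod p → ℚ, ∑ i, w i = 0 → (P w).eval 1 = 0 := by
    intro w hw
    simp only [P, eval_finsetSum, eval_mul, eval_C, eval_pow, eval_X, one_pow, mul_one]
    rw [← hw]
    exact Fintype.sum_equiv (Equiv.neg (ZMod p)) _ _ fun j => rfl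
  have hPd : ∀ w, (P w).natDegree < p := by
    intro w
    have h1 : (P w).natDegree ≤ p - 1 := by
      refine natDegree_sum_le_of_forall_le _ _ fun j _ => ?_
      refine (natDegree_C_mul_X_pow_le _ _).trans ?_
      have := ZMod.val_lt j
      omega
    have := hp.out.pos
    omega
  have hX : aeval (shf p) (X ^ p - 1 : ℚ[X]) = 0 := by
    rw [map_sub, map_pow, aeval_X, map_one]
    refine LinearMap.ext fun w => ?_
    funext i
    rw [LinearMap.sub_apply, Pi.sub_apply, shf_pow, CharP.cast_eq_zero, add_zero,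
      Module.End.one_apply, sub_self]
    rfl
  have hPu : P u ≠ 0 := by
    intro h
    have h1 := hP u
    rw [h, map_zero] at h1
    exact hu0 h1.symm
  obtain ⟨a, b, hab⟩ := aff_poly hp.out (P u) hPu (hPd u) (hP1 u hus)
  have h1 : aeval (shf p) (X - 1 : ℚ[X]) δ ∈ W := by
    rw [← hab, map_add, map_mul, map_mul, hX, mul_zero, add_zero, Module.End.mul_apply, hP u]
    exact hT a u hu
  obtain ⟨q, hq⟩ := dvd_iff_isRoot.2 (hP1 v hvs)
  rw [map_one] at hq
  rw [← hP v, hq, mul_comm, map_mul, Module.End.mul_apply]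
  exact hT q _ h1

end Spr43
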