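import Pool.Agent.Lib.MP_43150e_al.Crit
import Pool.Agent.Lib.MP_43150e_al.AffPoly
import Pool.Agent.Lib.MP_43150e_al.AffHom

/-! # Abelian normal subgroups -/

set_option autoImplicit false

namespace Spr43

open MulAction

section reg

variable {Γ Ω : Type*} [Group Γ] [MulAction Γ Ω] {M : Subgroup Γ}

/-- `M` acts regularly. -/
structure RegA (M : Subgroup Γ) (Ω : Type*) [MulAction Γ Ω] : Prop where
  tr : ∀ x y : Ω, ∃ m : M, (m : Γ) • x = y
  rg : ∀ (m : M) (x : Ω), (m : Γ) • x = x → m = 1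

/-- the bijection `m ↦ m x` -/
noncomputable def RegA.equiv (h : RegA M Ω) (x : Ω) : M ≃ Ω :=
  Equiv.ofBijective (fun m : M => (m : Γ) • x) ⟨fun a b hab => by
    have h1 : ((b⁻¹ * a : M) : Γ) • x = x := by
      have h2 : (a : Γ) • x = (b : Γ) • x := hab
      rw [Subgroup.coe_mul, mul_smul, h2, ← mul_smul, ← Subgroup.coe_mul, inv_mul_cancel,
        Subgroup.coe_one, one_smul]
    exact (inv_mul_eq_one.1 (h.rg _ x h1)).symm, fun y => h.tr x y⟩

theorem RegA.sum [Fintype Ω] [Fintype M] (h : RegA M Ω) (f : Ω → ℚ) (x : Ω) :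
    ∑ m : M, f ((m : Γ) • x) = ∑ y, f y :=
  Equiv.sum_comp (h.equiv x) f

variable {p : ℕ}

open Classical in
/-- the sum over the translates by the kernel of `l` -/
noncomputable def av [Fintype M] (l : M →* Multiplicative (ZMod p)) (f : Ω → ℚ) : Ω → ℚ :=
  fun x => ∑ m : M, if l m = 1 then f ((m : Γ) • x) else 0

open Classical in
theorem av_inv [Fintype M] (l : M →* Multiplicative (ZMod p)) (f : Ω → ℚ) (m : M)
    (hm : l m = 1) (x : Ω) : av l f ((m : Γ) • x) = av l f x := by
  refine Fintype.sum_equiv (Equiv.mulRight m) _ _ fun a => ?_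
  rw [Equiv.coe_mulRight, map_mul, hm, mul_one, Subgroup.coe_mul, mul_smul]

open Classical in
theorem av_one [Fintype Ω] [Fintype M] (h : RegA M Ω) (f : Ω → ℚ) (x : Ω) :
    av (1 : M →* Multiplicative (ZMod p)) f x = ∑ y, f y := by
  rw [← h.sum f x]
  refine Finset.sum_congr rfl fun m _ => ?_
  rw [MonoidHom.one_apply, if_pos rfl]

open Classical in
theorem av_sum [Fintype Ω] [Fintype M] (l : M →* Multiplicative (ZMod p)) (f : Ω → ℚ)
    (hf : ∑ y, f y = 0) : ∑ x, av l f x = 0 := by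
  unfold av
  rw [Finset.sum_comm]
  refine Finset.sum_eq_zero fun m _ => ?_
  split_ifs
  · rw [← hf]
    exact Equiv.sum_comp (MulAction.toPerm (m : Γ)) f
  · exact Finset.sum_const_zero

open Classical in
theorem av_mem [Fintype M] (l : M →* Multiplicative (ZMod p)) (W : Submodule ℚ (Ω → ℚ))
    (hW : ∀ g : Γ, ∀ f ∈ W, (fun x => f (g • x)) ∈ W) (f : Ω → ℚ) (hf : f ∈ W) :
    av l f ∈ W := by
  have h1 : av l f = ∑ m : M, if l m = 1 then (fun x => f ((m : Γ) • x)) else 0 := by
    funext x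
    rw [Finset.sum_apply]
    refine Finset.sum_congr rfl fun m _ => ?_
    split_ifs <;> rfl
  rw [h1]
  refine W.sum_mem fun m _ => ?_
  split_ifs
  · exact hW m f hf
  · exact W.zero_mem

open Classical in
/-- **The formula.** -/
theorem av_total [hp : Fact p.Prime] [Fintype Ω] [Finite M] [Fintype M]
    [Fintype (M →* Multiplicative (ZMod p))] (h : RegA M Ω)
    (hc : ∀ a b : M, a * b = b * a) (he : ∀ a : M, a ^ p = 1) (f : Ω → ℚ)
    (hf : ∑ y, f y = 0) (x : Ω) :
    ∑ l : M →* Multiplicative (ZMod p), av l f x =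
      ((Fintype.card (M →* Multiplicative (ZMod p)) : ℚ) * (1 - 1 / p)) * f x := by
  set N : ℚ := (Fintype.card (M →* Multiplicative (ZMod p)) : ℚ) with hN
  have hp0 : (p : ℚ) ≠ 0 := Nat.cast_ne_zero.2 hp.out.ne_zero
  have key : ∀ m : M, ∑ l : M →* Multiplicative (ZMod p),
      (if l m = 1 then f ((m : Γ) • x) else 0) =
      (N / p) * f ((m : Γ) • x) + if m = 1 then (N * (1 - 1 / p)) * f x else 0 := by
    intro m
    rw [← Finset.sum_filter, Finset.sum_const, nsmul_eq_mul]
    by_cases hm : m = 1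
    · rw [if_pos hm, hm]
      have h1 : (Finset.univ.filter fun l : M →* Multiplicative (ZMod p) => l 1 = 1) =
          Finset.univ := Finset.filter_true_of_mem fun l _ => map_one l
      rw [h1, Finset.card_univ, Subgroup.coe_one, one_smul, ← hN]
      field_simp
      ring
    · rw [if_neg hm, add_zero]
      congr 1
      have h1 := aff_card p hc he m hm
      rw [Nat.card_eq_fintype_card, Nat.card_eq_fintype_card, Fintype.card_subtype] at h1
      rw [eq_div_iff hp0, hN, ← h1]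
      push_cast
      rfl
  calc ∑ l : M →* Multiplicative (ZMod p), av l f x
      = ∑ m : M, ∑ l : M →* Multiplicative (ZMod p),
        (if l m = 1 then f ((m : Γ) • x) else 0) := Finset.sum_comm
    _ = ∑ m : M, ((N / p) * f ((m : Γ) • x) + if m = 1 then (N * (1 - 1 / p)) * f x else 0) :=
        Finset.sum_congr rfl fun m _ => key m
    _ = (N * (1 - 1 / p)) * f x := by
        rw [Finset.sum_add_distrib, ← Finset.mul_sum, h.sum f x, hf, mul_zero, zero_add,
          Finset.sum_ite_eq' Finset.univ (1 : M), if_pos (Finset.mem_univ _)]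

/-- A stable subspace containing one nonzero function with sum zero which is invariant under the
kernel of `l` contains all of them. -/
theorem aff_all [hp : Fact p.Prime] [Fintype Ω] (h : RegA M Ω)
    (W : Submodule ℚ (Ω → ℚ)) (hW : ∀ g : Γ, ∀ f ∈ W, (fun x => f (g • x)) ∈ W)
    (l : M →* Multiplicative (ZMod p)) (hl : l ≠ 1) (F : Ω → ℚ) (hF : F ∈ W) (hF0 : F ≠ 0)
    (hFs : ∑ x, F x = 0) (hFi : ∀ m : M, l m = 1 → ∀ x, F ((m : Γ) • x) = F x)
    (F' : Ω → ℚ) (hFs' : ∑ x, F' x = 0)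
    (hFi' : ∀ m : M, l m = 1 → ∀ x, F' ((m : Γ) • x) = F' x) : F' ∈ W := by
  classical
  obtain ⟨x₀, -⟩ := Function.ne_iff.1 hF0
  choose mm hmm using fun x => h.tr x₀ x
  have huniq : ∀ (a b : M), (a : Γ) • x₀ = (b : Γ) • x₀ → a = b := fun a b hab =>
    (h.equiv x₀).injective hab
  let c : Ω → ZMod p := fun x => Multiplicative.toAdd (l (mm x))
  have hc : ∀ (m : M) (x : Ω), c ((m : Γ) • x) = Multiplicative.toAdd (l m) + c x := by
    intro m x
    have h1 : mm ((m : Γ) • x) = m * mm x := by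
      apply huniq
      rw [hmm, Subgroup.coe_mul, mul_smul, hmm]
    change Multiplicative.toAdd (l (mm ((m : Γ) • x))) = _
    rw [h1, map_mul, toAdd_mul]
  obtain ⟨m₁, hm₁⟩ := aff_surj p l hl 1
  have hc1 : ∀ x, c ((m₁ : Γ) • x) = c x + 1 := by
    intro x
    rw [hc, hm₁, toAdd_ofAdd, add_comm]
  have hcp : ∀ (j : ℕ) (x : Ω), c (((m₁ ^ j : M) : Γ) • x) = c x + j := by
    intro j x
    rw [hc, map_pow, hm₁, toAdd_pow, toAdd_ofAdd, nsmul_eq_mul, mul_one, add_comm]
  have hc0 : c x₀ = 0 := by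
    have h1 : mm x₀ = 1 := by
      apply huniq
      rw [hmm, Subgroup.coe_one, one_smul]
    change Multiplicative.toAdd (l (mm x₀)) = 0
    rw [h1, map_one, toAdd_one]
  -- invariant functions are functions of `c`
  have hfac : ∀ f : Ω → ℚ, (∀ m : M, l m = 1 → ∀ x, f ((m : Γ) • x) = f x) →
      ∀ x y, c x = c y → f x = f y := by
    intro f hf x y hxy
    obtain ⟨m, hm⟩ := h.tr x y
    have h1 := hc m x
    rw [hm, ← hxy] at h1
    have h2 : Multiplicative.toAdd (l m) = 0 := by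
      rwa [eq_comm, add_eq_right] at h1
    rw [← hm, hf m h2]
  let u : (Ω → ℚ) → ZMod p → ℚ := fun f i => f (((m₁ ^ i.val : M) : Γ) • x₀)
  have hu : ∀ f : Ω → ℚ, (∀ m : M, l m = 1 → ∀ x, f ((m : Γ) • x) = f x) →
      ∀ x, u f (c x) = f x := by
    intro f hf x
    refine hfac f hf _ _ ?_
    rw [hcp, hc0, zero_add, ZMod.natCast_zmod_val]
  have hus : ∀ f : Ω → ℚ, (∀ m : M, l m = 1 → ∀ x, f ((m : Γ) • x) = f x) →
      ∑ x, f x = 0 → ∑ i, u f i = 0 := by
    intro f hf hfs
    have h1 : ∀ x, ∑ i : ZMod p, u f (c x + i) = ∑ i, u f i := fun x =>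
      Equiv.sum_comp (Equiv.addLeft (c x)) (u f)
    have h2 : ∀ i : ZMod p, ∑ x, u f (c x + i) = 0 := by
      intro i
      have h3 : ∀ x, u f (c x + i) = f (((m₁ ^ i.val : M) : Γ) • x) := by
        intro x
        rw [← hu f hf, hcp, ZMod.natCast_zmod_val]
      rw [Finset.sum_congr rfl fun x _ => h3 x, ← hfs]
      exact Equiv.sum_comp (MulAction.toPerm ((m₁ ^ i.val : M) : Γ)) f
    have h4 : ∑ x : Ω, ∑ i : ZMod p, u f (c x + i) = 0 := by
      rw [Finset.sum_comm]
      exact Finset.sum_eq_zero fun i _ => h2 i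
    rw [Finset.sum_congr rfl fun x _ => h1 x, Finset.sum_const, nsmul_eq_mul] at h4
    rcases mul_eq_zero.1 h4 with h5 | h5
    · exfalso
      have h6 : Finset.card (Finset.univ : Finset Ω) = 0 := by exact_mod_cast h5
      rw [Finset.card_eq_zero] at h6
      exact absurd (Finset.mem_univ x₀) (by rw [h6]; exact Finset.notMem_empty x₀)
    · exact h5
  have hW' : ∀ w ∈ W.comap (LinearMap.funLeft ℚ ℚ c), (fun i => w (i + 1)) ∈
      W.comap (LinearMap.funLeft ℚ ℚ c) := by
    intro w hw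
    have h1 := hW (m₁ : Γ) _ hw
    have h2 : (fun x => (LinearMap.funLeft ℚ ℚ c) w ((m₁ : Γ) • x)) =
        (LinearMap.funLeft ℚ ℚ c) (fun i => w (i + 1)) := by
      funext x
      change w (c ((m₁ : Γ) • x)) = w (c x + 1)
      rw [hc1]
    rw [h2] at h1
    exact h1
  have hcomp : ∀ f : Ω → ℚ, (∀ m : M, l m = 1 → ∀ x, f ((m : Γ) • x) = f x) →
      (LinearMap.funLeft ℚ ℚ c) (u f) = f := fun f hf => funext fun x => hu f hf x
  have h1 := aff_zp (W.comap (LinearMap.funLeft ℚ ℚ c)) hW' (u F) (by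
    rw [Submodule.mem_comap, hcomp F hFi]
    exact hF) (by
    intro h0
    apply hF0
    rw [← hcomp F hFi, h0, map_zero]) (hus F hFi hFs) (u F') (hus F' hFi' hFs')
  rw [Submodule.mem_comap, hcomp F' hFi'] at h1
  exact h1

end reg

section elem

variable {Γ Ω : Type*} [Group Γ] [Finite Γ] [MulAction Γ Ω] [Fintype Ω] [DecidableEq Ω]

omit [Finite Γ] in
/-- Spreading: the kernels of two homomorphisms are conjugate. -/
theorem aff_conj {p : ℕ} [hp : Fact p.Prime] (hΩ : Nontrivial Ω) (hsp : IsSpreading Γ Ω)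
    (M : Subgroup Γ) (h : RegA M Ω) (l l' : M →* Multiplicative (ZMod p))
    (hl : l ≠ 1) : ∃ g : Γ, ∀ a b : M, (a : Γ) = g⁻¹ * b * g → l a = 1 → l' b = 1 := by
  by_contra hcon
  push Not at hcon
  obtain ⟨x⟩ : Nonempty Ω := inferInstance
  refine criterion p M.subtype l' (l.ker.map M.subtype) x (fun g => ?_) ?_ (fun m hm => ?_) hsp
  · obtain ⟨a, b, hab, ha, hb⟩ := hcon g
    refine ⟨b, hb, a, ha, ?_⟩
    exact hab
  · obtain ⟨m, hm⟩ := aff_surj p l hl 1
    refine ⟨x, (m : Γ) • x, ?_⟩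
    rintro _ ⟨a, ha, rfl⟩ hax
    have h1 : a = m := (h.equiv x).injective hax
    rw [h1] at ha
    have h2 : l m = 1 := ha
    rw [hm] at h2
    have h3 : (1 : ZMod p) = 0 := h2
    exact one_ne_zero h3
  · rw [h.rg m x hm, map_one]

/-- The elementary abelian case. -/
theorem isQI_of_elem {p : ℕ} [hp : Fact p.Prime] (hΩ : Nontrivial Ω) (hsp : IsSpreading Γ Ω)
    (M : Subgroup Γ) [hMn : M.Normal] (h : RegA M Ω) (hc : ∀ a b : M, a * b = b * a)
    (he : ∀ a : M, a ^ p = 1) : IsQI Γ Ω := by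
  classical
  let _ : Fintype M := Fintype.ofFinite M
  have hfin : Finite (M →* Multiplicative (ZMod p)) := DFunLike.finite _
  let _ : Fintype (M →* Multiplicative (ZMod p)) := Fintype.ofFinite _
  let V : Submodule ℚ (Ω → ℚ) := LinearMap.ker (∑ x : Ω, LinearMap.proj (R := ℚ)
    (φ := fun _ : Ω => ℚ) x)
  have hV : ∀ f : Ω → ℚ, f ∈ V ↔ ∑ x, f x = 0 := by
    intro f
    rw [LinearMap.mem_ker, LinearMap.sum_apply]
    rfl
  have hp0 : (p : ℚ) ≠ 0 := Nat.cast_ne_zero.2 hp.out.ne_zero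
  have hp1 : (1 : ℚ) - 1 / p ≠ 0 := by
    intro h0
    have h1 : (1 : ℚ) / p = 1 := (sub_eq_zero.1 h0).symm
    rw [div_eq_iff hp0, one_mul] at h1
    have h2 : (1 : ℕ) = p := by exact_mod_cast h1
    exact hp.out.one_lt.ne h2
  have hN : ((Fintype.card (M →* Multiplicative (ZMod p)) : ℚ) * (1 - 1 / p)) ≠ 0 :=
    mul_ne_zero (Nat.cast_ne_zero.2 Fintype.card_ne_zero) hp1
  have hcard : (Fintype.card Ω : ℚ) ≠ 0 := Nat.cast_ne_zero.2 Fintype.card_ne_zero
  refine ⟨V, fun g f hf => ?_, ?_, ?_, fun W hWV hW => ?_⟩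
  · rw [hV] at hf ⊢
    rw [← hf]
    exact Equiv.sum_comp (MulAction.toPerm g) f
  · refine ⟨?_, ?_⟩
    · rw [Submodule.disjoint_def]
      intro f hf hfV
      obtain ⟨c, rfl⟩ := Submodule.mem_span_singleton.1 hf
      rw [hV] at hfV
      simp only [Pi.smul_apply, smul_eq_mul, mul_one, Finset.sum_const, Finset.card_univ,
        nsmul_eq_mul] at hfV
      rcases mul_eq_zero.1 hfV with h0 | h0
      · exact absurd h0 hcard
      · rw [h0, zero_smul]
    · rw [codisjoint_iff, eq_top_iff]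
      intro f _
      refine Submodule.mem_sup.2 ⟨((∑ x, f x) / Fintype.card Ω) • (fun _ => 1 : Ω → ℚ),
        Submodule.mem_span_singleton.2 ⟨_, rfl⟩,
        f - ((∑ x, f x) / Fintype.card Ω) • (fun _ => 1 : Ω → ℚ), ?_, by abel⟩
      rw [hV]
      simp only [Pi.sub_apply, Pi.smul_apply, smul_eq_mul, mul_one, Finset.sum_sub_distrib,
        Finset.sum_const, Finset.card_univ, nsmul_eq_mul]
      rw [mul_div_cancel₀ _ hcard, sub_self]
  · obtain ⟨x, y, hxy⟩ := exists_pair_ne Ω
    intro h0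
    have h1 : (Pi.single x 1 - Pi.single y 1 : Ω → ℚ) ∈ V := by
      rw [hV]
      simp only [Pi.sub_apply, Finset.sum_sub_distrib, Finset.sum_pi_single', Finset.mem_univ,
        if_true, sub_self]
    rw [h0, Submodule.mem_bot] at h1
    have h2 := congrFun h1 x
    rw [Pi.sub_apply, Pi.single_eq_same, Pi.single_eq_of_ne hxy, sub_zero, Pi.zero_apply] at h2
    exact one_ne_zero h2
  · by_cases hWb : W = ⊥
    · exact Or.inl hWb
    refine Or.inr (le_antisymm hWV ?_)
    obtain ⟨f₀, hf₀, hf₀0⟩ := Submodule.exists_mem_ne_zero_of_ne_bot hWb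
    obtain ⟨x₁, hx₁⟩ := Function.ne_iff.1 hf₀0
    have hs₀ : ∑ x, f₀ x = 0 := (hV f₀).1 (hWV hf₀)
    -- a homomorphism `l` with a nonzero average
    have h1 : ∃ l : M →* Multiplicative (ZMod p), av l f₀ x₁ ≠ 0 := by
      by_contra hcon
      push Not at hcon
      have h2 := av_total h hc he f₀ hs₀ x₁
      rw [Finset.sum_eq_zero fun l _ => hcon l] at h2
      rcases mul_eq_zero.1 h2.symm with h3 | h3
      · exact hN h3
      · exact hx₁ h3
    obtain ⟨l, hl⟩ := h1
    have hl1 : l ≠ 1 := by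
      rintro rfl
      exact hl (by rw [av_one h, hs₀])
    -- `W` contains all invariant functions for `l`
    have hall := aff_all h W hW l hl1 (av l f₀) (av_mem l W hW f₀ hf₀)
      (fun h0 => hl (by rw [h0]; rfl)) (av_sum l f₀ hs₀) (fun m hm x => av_inv l f₀ m hm x)
    -- and for every `l'`
    have hall' : ∀ (l' : M →* Multiplicative (ZMod p)) (F' : Ω → ℚ), ∑ x, F' x = 0 →
        (∀ m : M, l' m = 1 → ∀ x, F' ((m : Γ) • x) = F' x) → F' ∈ W := by
      intro l' F' hs' hi'
      obtain ⟨g, hg⟩ := aff_conj hΩ hsp M h l l' hl1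
      have h2 : (fun x => F' (g • x)) ∈ W := by
        refine hall _ ?_ fun m hm x => ?_
        · rw [← hs']
          exact Equiv.sum_comp (MulAction.toPerm g) F'
        · let b : M := ⟨g * m * g⁻¹, hMn.conj_mem m m.2 g⟩
          have h3 : l' b = 1 := hg m b (by
            change (m : Γ) = g⁻¹ * (g * m * g⁻¹) * g
            group) hm
          have h4 := hi' b h3 (g • x)
          have h5 : (b : Γ) • g • x = g • (m : Γ) • x := by
            change (g * m * g⁻¹) • g • x = _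
            rw [← mul_smul, ← mul_smul]
            congr 1
            group
          rw [h5] at h4
          exact h4
      have h6 := hW g⁻¹ _ h2
      have h7 : (fun x => F' (g • g⁻¹ • x)) = F' := by
        funext x
        rw [smul_inv_smul]
      rw [← h7]
      exact h6
    intro f hf
    have hs : ∑ x, f x = 0 := (hV f).1 hf
    have h2 : f = ((Fintype.card (M →* Multiplicative (ZMod p)) : ℚ) * (1 - 1 / p))⁻¹ •
        ∑ l' : M →* Multiplicative (ZMod p), av l' f := by
      funext x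
      rw [Pi.smul_apply, Finset.sum_apply, av_total h hc he f hs x, smul_eq_mul,
        inv_mul_cancel_left₀ hN]
    rw [h2]
    exact W.smul_mem _ (W.sum_mem fun l' _ => hall' l' _ (av_sum l' f hs)
      (fun m hm x => av_inv l' f m hm x))

end elem

/-- A faithful primitive spreading action of a finite group with a nontrivial abelian normal
subgroup is QI. (par. 8 of the paper proof) -/
theorem isQI_of_abelian {Γ Ω : Type*} [Group Γ] [Finite Γ] [MulAction Γ Ω] [FaithfulSMul Γ Ω]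
    [Fintype Ω] [DecidableEq Ω] (hΩ : Nontrivial Ω) (hprim : IsPreprimitive Γ Ω)
    (hsp : IsSpreading Γ Ω) (M : Subgroup Γ) [M.Normal] (hM : M ≠ ⊥)
    (hab : ∀ a ∈ M, ∀ b ∈ M, a * b = b * a) : IsQI Γ Ω := by
  -- a prime `p` dividing the order of `M`
  have hne : Nat.card M ≠ 1 := fun h0 => hM (Subgroup.card_eq_one.1 h0)
  obtain ⟨p, hp, hpM⟩ := Nat.exists_prime_and_dvd hne
  have hpf : Fact p.Prime := ⟨hp⟩
  obtain ⟨a, ha⟩ := exists_prime_orderOf_dvd_card' p hpM
  let M' : Subgroup Γ :=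
    { carrier := {g | g ∈ M ∧ g ^ p = 1}
      one_mem' := ⟨M.one_mem, one_pow p⟩
      mul_mem' := fun {b c} hb hc => ⟨M.mul_mem hb.1 hc.1, by
        have h1 : Commute b c := hab b hb.1 c hc.1
        rw [h1.mul_pow, hb.2, hc.2, one_mul]⟩
      inv_mem' := fun {b} hb => ⟨M.inv_mem hb.1, by rw [inv_pow, hb.2, inv_one]⟩ }
  have hMn' : M'.Normal := ⟨fun b hb g => ⟨Subgroup.Normal.conj_mem inferInstance b hb.1 g, by
    rw [conj_pow, hb.2, mul_one, mul_inv_cancel]⟩⟩
  have haM : (a : Γ) ∈ M' := ⟨a.2, by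
    have h1 : a ^ p = 1 := by rw [← ha]; exact pow_orderOf_eq_one a
    exact_mod_cast congrArg Subtype.val h1⟩
  have ha1 : (a : Γ) ≠ 1 := by
    intro h0
    have h1 : a = 1 := Subtype.ext h0
    rw [h1, orderOf_one] at ha
    exact hp.one_lt.ne ha
  have hfix : fixedPoints M' Ω ≠ Set.univ := by
    intro h0
    apply ha1
    refine FaithfulSMul.eq_of_smul_eq_smul (α := Ω) fun x => ?_
    rw [one_smul]
    have h1 : x ∈ fixedPoints M' Ω := by
      rw [h0]
      exact Set.mem_univ x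
    exact h1 ⟨a, haM⟩
  have hqp : IsQuasiPreprimitive Γ Ω := inferInstance
  have htr : IsPretransitive M' Ω := hqp.isPretransitive_of_normal hfix
  have hab' : ∀ b c : M', b * c = c * b := fun b c => Subtype.ext (hab b b.2.1 c c.2.1)
  have hreg : RegA M' Ω := by
    refine ⟨fun x y => ?_, fun m x hm => ?_⟩
    · obtain ⟨m, hm⟩ := htr.exists_smul_eq x y
      exact ⟨m, hm⟩
    · refine Subtype.ext (FaithfulSMul.eq_of_smul_eq_smul (α := Ω) fun y => ?_)
      obtain ⟨b, hb⟩ := htr.exists_smul_eq x y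
      have hb' : (b : Γ) • x = y := hb
      rw [Subgroup.coe_one, one_smul, ← hb', ← mul_smul, ← Subgroup.coe_mul, hab',
        Subgroup.coe_mul, mul_smul, hm]
  exact isQI_of_elem (p := p) hΩ hsp M' hreg hab' fun b => Subtype.ext (by
    rw [Subgroup.coe_pow, Subgroup.coe_one]
    exact b.2.2)

end Spr43
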