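import Mathlib

/-! # Jordan's theorem for cycles of prime length

(`proof_wanted` in Mathlib.) Proof: `K` primitive with a `p`-cycle `c`, `Γ` = the fixed points of
`c`, `|Γ| = n - p ≥ 3`. By `MulAction.IsPreprimitive.isMultiplyPreprimitive` the group `K` is
`|Γ|`-fold transitive (even more). `⟨c⟩` is a Sylow `p`-subgroup of the pointwise stabiliser
`K_(Γ)` (which acts faithfully on `p` points), so (Frattini) the normaliser `N` of `⟨c⟩` in `K`
induces the full symmetric group on `Γ`. Take `a, b ∈ N` inducing the transpositions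
`(γ₁ γ₂)`, `(γ₁ γ₃)` on `Γ`: the commutator `z = [a, b]` centralises `c` (the automorphism group
of `⟨c⟩` is abelian) and induces a 3-cycle on `Γ`. `z` commutes with `c`, so it acts on the support
of `c` as a power of `c`, and `z ^ p` is trivial there; `z ^ p` is a 3-cycle if `p ≠ 3`. Then
`Equiv.Perm.alternatingGroup_le_of_isPreprimitive_of_isThreeCycle_mem`. -/

set_option autoImplicit false

namespace Spr43

open MulAction

theorem jp_ai {n : ℕ} (σ : Equiv.Perm (Fin n)) (x : Fin n) : σ (σ⁻¹ x) = x :=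
  σ.apply_symm_apply x

theorem jp_ia {n : ℕ} (σ : Equiv.Perm (Fin n)) (x : Fin n) : σ⁻¹ (σ x) = x :=
  σ.symm_apply_apply x

/-- the pointwise stabiliser of the complement of `S` in `K` -/
def jpH {n : ℕ} (K : Subgroup (Equiv.Perm (Fin n))) (S : Finset (Fin n)) :
    Subgroup (Equiv.Perm (Fin n)) where
  carrier := {u | u ∈ K ∧ ∀ x ∉ S, u x = x}
  mul_mem' := by
    rintro a b ⟨ha, ha'⟩ ⟨hb, hb'⟩
    exact ⟨K.mul_mem ha hb, fun x hx => by rw [Equiv.Perm.mul_apply, hb' x hx, ha' x hx]⟩
  one_mem' := ⟨K.one_mem, fun x _ => rfl⟩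
  inv_mem' := by
    rintro a ⟨ha, ha'⟩
    exact ⟨K.inv_mem ha, fun x hx => by rw [Equiv.Perm.inv_eq_iff_eq, ha' x hx]⟩

theorem jpH_mem {n : ℕ} {K : Subgroup (Equiv.Perm (Fin n))} {S : Finset (Fin n)}
    {u : Equiv.Perm (Fin n)} : u ∈ jpH K S ↔ u ∈ K ∧ ∀ x ∉ S, u x = x := Iff.rfl

theorem jpH_card_dvd {n : ℕ} (K : Subgroup (Equiv.Perm (Fin n))) (S : Finset (Fin n)) :
    Nat.card (jpH K S) ∣ (S.card).factorial := by
  classical
  have hpres : ∀ u ∈ jpH K S, ∀ x, u x ∈ S ↔ x ∈ S := by
    intro u hu x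
    constructor
    · intro h
      by_contra hx
      rw [hu.2 x hx] at h
      exact hx h
    · intro h
      by_contra hx
      have h1 := hu.2 _ hx
      have h2 := u.injective h1
      rw [h2] at hx
      exact hx h
  let f : jpH K S →* Equiv.Perm {x // x ∈ S} :=
    { toFun := fun u => (u : Equiv.Perm (Fin n)).subtypePerm (fun x => hpres u u.2 x)
      map_one' := by ext x; rfl
      map_mul' := fun u v => by ext x; rfl }
  have hf : Function.Injective f := by
    intro u v huv
    apply Subtype.ext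
    apply Equiv.ext
    intro x
    by_cases hx : x ∈ S
    · have := congrArg (fun w : Equiv.Perm {x // x ∈ S} => ((w ⟨x, hx⟩ : {x // x ∈ S}) : Fin n)) huv
      exact this
    · rw [u.2.2 x hx, v.2.2 x hx]
  have h1 := Subgroup.card_dvd_of_injective f hf
  have h2 : Nat.card {x // x ∈ S} = S.card := by
    rw [Nat.card_eq_fintype_card, Fintype.card_coe]
  rwa [Nat.card_perm, h2] at h1

/-- Frattini argument. -/
theorem jp_frattini {n : ℕ} {K : Subgroup (Equiv.Perm (Fin n))} {p : ℕ} (hp : p.Prime)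
    {g : Equiv.Perm (Fin n)} (hg : g ∈ K) (hc : g.IsCycle) (hs : g.support.card = p)
    {h : Equiv.Perm (Fin n)} (hh : h ∈ K) (hpres : ∀ x, h x ∈ g.support ↔ x ∈ g.support) :
    ∃ u ∈ K, (∀ x ∉ g.support, u x = x) ∧ ∃ i : ℤ, (u * h) * g * (u * h)⁻¹ = g ^ i := by
  classical
  set S := g.support with hS
  have hpf : Fact p.Prime := ⟨hp⟩
  have hord : orderOf g = p := by rw [hc.orderOf, hs]
  have hgH : g ∈ jpH K S := ⟨hg, fun x hx => Equiv.Perm.notMem_support.mp hx⟩
  have hg2H : h * g * h⁻¹ ∈ jpH K S := by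
    refine ⟨K.mul_mem (K.mul_mem hh hg) (K.inv_mem hh), fun x hx => ?_⟩
    have hx' : h⁻¹ x ∉ S := by
      intro h1
      apply hx
      have h2 := (hpres (h⁻¹ x)).mpr h1
      rwa [jp_ai] at h2
    rw [Equiv.Perm.mul_apply, Equiv.Perm.mul_apply, Equiv.Perm.notMem_support.mp hx',
      jp_ai]
  let g1 : jpH K S := ⟨g, hgH⟩
  let g2 : jpH K S := ⟨h * g * h⁻¹, hg2H⟩
  have ho1 : orderOf g1 = p := by
    rw [← hord]; exact (orderOf_injective (jpH K S).subtype Subtype.val_injective g1).symm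
  have ho2 : orderOf g2 = p := by
    have h1 : orderOf g2 = orderOf (h * g * h⁻¹) :=
      (orderOf_injective (jpH K S).subtype Subtype.val_injective g2).symm
    rw [h1, ← hord]
    exact orderOf_injective (MulAut.conj h).toMonoidHom (MulAut.conj h).injective g
  have hfac : (Nat.card (jpH K S)).factorization p = 1 := by
    have hdvd := jpH_card_dvd K S
    rw [hs] at hdvd
    have hpos : Nat.card (jpH K S) ≠ 0 := Nat.card_pos.ne'
    have h1 : 0 < (Nat.card (jpH K S)).factorization p := by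
      apply hp.factorization_pos_of_dvd hpos
      rw [← ho1]
      exact orderOf_dvd_natCard g1
    have h2 : ¬ 2 ≤ (Nat.card (jpH K S)).factorization p := by
      intro h3
      have h4 : p ^ 2 ∣ Nat.card (jpH K S) := (hp.pow_dvd_iff_le_factorization hpos).mpr h3
      have h5 : p ^ 2 ∣ p.factorial := h4.trans hdvd
      have h6 : p.factorial = p * (p - 1).factorial := by
        obtain ⟨m, rfl⟩ := Nat.exists_eq_succ_of_ne_zero hp.ne_zero
        rw [Nat.factorial_succ]; rfl
      rw [h6, pow_two] at h5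
      have h7 := Nat.dvd_of_mul_dvd_mul_left hp.pos h5
      rw [hp.dvd_factorial] at h7
      have := hp.pos
      omega
    omega
  let P1 : Sylow p (jpH K S) := Sylow.ofCard (Subgroup.zpowers g1) (by
    rw [Nat.card_zpowers, ho1, hfac, pow_one])
  let P2 : Sylow p (jpH K S) := Sylow.ofCard (Subgroup.zpowers g2) (by
    rw [Nat.card_zpowers, ho2, hfac, pow_one])
  obtain ⟨u, hu⟩ := MulAction.exists_smul_eq (jpH K S) P2 P1
  have h8 : u * g2 * u⁻¹ ∈ Subgroup.zpowers g1 := by
    have h9 : u * g2 * u⁻¹ ∈ ((u • P2 : Sylow p (jpH K S)) : Subgroup (jpH K S)) := by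
      rw [Sylow.coe_subgroup_smul]
      exact Subgroup.smul_mem_pointwise_smul g2 (MulAut.conj u) _ (Subgroup.mem_zpowers g2)
    rw [hu] at h9
    exact h9
  obtain ⟨i, hi⟩ := Subgroup.mem_zpowers_iff.mp h8
  refine ⟨(u : Equiv.Perm (Fin n)), u.2.1, u.2.2, i, ?_⟩
  have h10 := congrArg (fun w : jpH K S => (w : Equiv.Perm (Fin n))) hi
  simp only [Subgroup.coe_mul, Subgroup.coe_inv, Subgroup.coe_zpow] at h10
  change g ^ i = _ * (h * g * h⁻¹) * _ at h10
  rw [h10]
  group

theorem jp_norm {n : ℕ} {K : Subgroup (Equiv.Perm (Fin n))}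
    (hK : IsPreprimitive K (Fin n)) {p : ℕ} (hp : p.Prime) (hp3 : p + 3 ≤ n)
    {g : Equiv.Perm (Fin n)} (hg : g ∈ K) (hc : g.IsCycle) (hs : g.support.card = p)
    (τ : Equiv.Perm (Fin n)) (hτ : ∀ x, τ x ∈ g.support ↔ x ∈ g.support) :
    ∃ a ∈ K, (∀ x ∉ g.support, a x = τ x) ∧ ∃ i : ℤ, a * g * a⁻¹ = g ^ i := by
  classical
  -- multiple transitivity
  obtain ⟨k, hk⟩ : ∃ k, n = p + k + 3 := ⟨n - p - 3, by omega⟩
  have hcard : ((g.support : Set (Fin n))ᶜ).ncard = (k + 2) + 1 := by
    apply Nat.add_left_cancel (n := (g.support : Set (Fin n)).ncard)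
    rw [Set.ncard_add_ncard_compl, Set.ncard_coe_finset, hs, Nat.card_eq_fintype_card,
      Fintype.card_fin, hk]
    omega
  have hmp : IsMultiplyPreprimitive K (Fin n) (k + 2 + 2) := by
    apply hK.isMultiplyPreprimitive hcard
    · rw [Nat.card_eq_fintype_card, Fintype.card_fin]
      have := hp.two_le
      omega
    have := Equiv.Perm.isPretransitive_of_isCycle_mem hc hg
    apply IsPreprimitive.of_prime_card
    convert! hp
    rw [Nat.card_eq_fintype_card, Fintype.card_subtype, ← hs]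
    apply congrArg
    ext x
    simp [SubMulAction.mem_ofFixingSubgroup_iff]
  have hmt : IsMultiplyPretransitive K (Fin n) (k + 2 + 2) :=
    IsMultiplyPreprimitive.isMultiplyPretransitive ..
  have hmt3 : IsMultiplyPretransitive K (Fin n) (k + 3) := by
    refine MulAction.isMultiplyPretransitive_of_le' (n := k + 2 + 2) (by omega) ?_
    rw [ENat.card_eq_coe_fintype_card, Fintype.card_fin]
    have := hp.pos
    exact_mod_cast (by omega : k + 2 + 2 ≤ n)
  -- enumeration of the complement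
  have hcc : (g.supportᶜ).card = k + 3 := by
    rw [Finset.card_compl, Fintype.card_fin, hs, hk]; omega
  let x : Fin (k + 3) ↪ Fin n := (g.supportᶜ).orderEmbOfFin hcc |>.toEmbedding
  have hx : ∀ y, y ∉ g.support → ∃ i, x i = y := by
    intro y hy
    have h1 : y ∈ Set.range ((g.supportᶜ).orderEmbOfFin hcc) := by
      rw [Finset.range_orderEmbOfFin]
      simpa using hy
    exact h1
  obtain ⟨h, hh⟩ := hmt3.exists_smul_eq x (x.trans τ.toEmbedding)
  have hh2 : ∀ y ∉ g.support, (h : Equiv.Perm (Fin n)) y = τ y := by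
    intro y hy
    obtain ⟨i, rfl⟩ := hx y hy
    have := congrArg (fun e : Fin (k + 3) ↪ Fin n => e i) hh
    exact this
  have hpres : ∀ y, (h : Equiv.Perm (Fin n)) y ∈ g.support ↔ y ∈ g.support := by
    have h1 : ∀ y, y ∉ g.support → (h : Equiv.Perm (Fin n)) y ∉ g.support := by
      intro y hy
      rw [hh2 y hy, hτ]
      exact hy
    intro y
    constructor
    · intro h2
      by_contra h3
      exact h1 y h3 h2
    · intro h2
      by_contra h3
      -- `h y` is not in the support, so it is the image of a point outside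
      have h4 : ∃ z ∉ g.support, (h : Equiv.Perm (Fin n)) z = (h : Equiv.Perm (Fin n)) y := by
        refine ⟨τ⁻¹ ((h : Equiv.Perm (Fin n)) y), ?_, ?_⟩
        · intro h5
          have h6 := (hτ _).mpr h5
          rw [jp_ai] at h6
          exact h3 h6
        · rw [hh2]
          · rw [jp_ai]
          · intro h5
            have h6 := (hτ _).mpr h5
            rw [jp_ai] at h6
            exact h3 h6
      obtain ⟨z, hz, hzy⟩ := h4
      have h5 := (h : Equiv.Perm (Fin n)).injective hzy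
      rw [h5] at hz
      exact hz h2
  obtain ⟨u, hu, hu2, i, hi⟩ := jp_frattini hp hg hc hs h.2 hpres
  refine ⟨u * h, K.mul_mem hu h.2, ?_, i, hi⟩
  intro y hy
  rw [Equiv.Perm.mul_apply, hu2, hh2 y hy]
  rw [hpres]
  exact hy

theorem jordan_prime {n : ℕ} {K : Subgroup (Equiv.Perm (Fin n))}
    (hK : IsPreprimitive K (Fin n)) {p : ℕ} (hp : p.Prime) (hp3 : p + 3 ≤ n)
    {g : Equiv.Perm (Fin n)} (hg : g ∈ K) (hc : g.IsCycle) (hs : g.support.card = p) :
    alternatingGroup (Fin n) ≤ K := by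
  classical
  by_cases h3 : p = 3
  · subst h3
    exact Equiv.Perm.alternatingGroup_le_of_isPreprimitive_of_isThreeCycle_mem hK
      (card_support_eq_three_iff.mp hs) hg
  -- three fixed points
  have hcc : 3 ≤ (g.supportᶜ).card := by
    rw [Finset.card_compl, Fintype.card_fin, hs]; omega
  obtain ⟨T, hT, hT3⟩ := Finset.exists_subset_card_eq hcc
  obtain ⟨x, y, z, hxy, hxz, hyz, rfl⟩ := Finset.card_eq_three.mp hT3
  have hxS : x ∉ g.support := by
    have := hT (by simp : x ∈ ({x, y, z} : Finset (Fin n)))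
    simpa using this
  have hyS : y ∉ g.support := by
    have := hT (by simp : y ∈ ({x, y, z} : Finset (Fin n)))
    simpa using this
  have hzS : z ∉ g.support := by
    have := hT (by simp : z ∈ ({x, y, z} : Finset (Fin n)))
    simpa using this
  have hsw : ∀ u v : Fin n, u ∉ g.support → v ∉ g.support → ∀ w ∈ g.support,
      Equiv.swap u v w = w := by
    intro u v hu hv w hw
    apply Equiv.swap_apply_of_ne_of_ne
    · rintro rfl; exact hu hw
    · rintro rfl; exact hv hw
  have hpr : ∀ τ : Equiv.Perm (Fin n), (∀ w ∈ g.support, τ w = w) →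
      ∀ w, τ w ∈ g.support ↔ w ∈ g.support := by
    intro τ hτ w
    constructor
    · intro h
      have h1 := hτ _ h
      have h2 := τ.injective h1
      rwa [h2] at h
    · intro h
      rwa [hτ w h]
  obtain ⟨a, ha, ha2, i, hai⟩ := jp_norm hK hp hp3 hg hc hs (Equiv.swap x y)
    (hpr _ (hsw x y hxS hyS))
  obtain ⟨b, hb, hb2, j, hbj⟩ := jp_norm hK hp hp3 hg hc hs (Equiv.swap x z)
    (hpr _ (hsw x z hxS hzS))
  -- the commutator
  set ρ := Equiv.swap x y * Equiv.swap x z with hρ
  have hρ3 : ρ.IsThreeCycle := Equiv.Perm.isThreeCycle_swap_mul_swap_same hxy hxz hyz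
  have hρS : ∀ w ∈ g.support, ρ w = w := by
    intro w hw
    rw [hρ, Equiv.Perm.mul_apply, hsw x z hxS hzS w hw, hsw x y hxS hyS w hw]
  have hab : (a * b) * g * (a * b)⁻¹ = g ^ (i * j) := by
    calc (a * b) * g * (a * b)⁻¹ = a * (b * g * b⁻¹) * a⁻¹ := by group
      _ = a * g ^ j * a⁻¹ := by rw [hbj]
      _ = (a * g * a⁻¹) ^ j := by rw [conj_zpow]
      _ = g ^ (i * j) := by rw [hai, ← zpow_mul]
  have hba : (b * a) * g * (b * a)⁻¹ = g ^ (i * j) := by
    calc (b * a) * g * (b * a)⁻¹ = b * (a * g * a⁻¹) * b⁻¹ := by group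
      _ = b * g ^ i * b⁻¹ := by rw [hai]
      _ = (b * g * b⁻¹) ^ i := by rw [conj_zpow]
      _ = g ^ (i * j) := by rw [hbj, ← zpow_mul, mul_comm]
  obtain ⟨c, hcdef⟩ : ∃ c, c = (b * a)⁻¹ * (a * b) := ⟨_, rfl⟩
  have hcK : c ∈ K := hcdef ▸ K.mul_mem (K.inv_mem (K.mul_mem hb ha)) (K.mul_mem ha hb)
  have hcg : c * g = g * c := by
    have h1 : c * g * c⁻¹ = g := by
      calc c * g * c⁻¹ = (b * a)⁻¹ * ((a * b) * g * (a * b)⁻¹) * (b * a) := by
            rw [hcdef]; group
        _ = (b * a)⁻¹ * ((b * a) * g * (b * a)⁻¹) * (b * a) := by rw [hab, hba]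
        _ = g := by group
    rw [mul_inv_eq_iff_eq_mul] at h1
    exact h1
  -- action on the complement of the support
  have haS : ∀ w ∉ g.support, a w = Equiv.swap x y w := ha2
  have hbS : ∀ w ∉ g.support, b w = Equiv.swap x z w := hb2
  have hswS : ∀ u v : Fin n, u ∉ g.support → v ∉ g.support → ∀ w ∉ g.support,
      Equiv.swap u v w ∉ g.support := by
    intro u v hu hv w hw
    rw [hpr _ (hsw u v hu hv)]
    exact hw
  have hcΓ : ∀ w ∉ g.support, c w = (ρ * ρ) w := by
    intro w hw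
    have h1 : (b * a) ((ρ * ρ) w) = (a * b) w := by
      have hw1 : Equiv.swap x z w ∉ g.support := hswS x z hxS hzS w hw
      have hw2 : Equiv.swap x y (Equiv.swap x z w) ∉ g.support := hswS x y hxS hyS _ hw1
      have hw3 : Equiv.swap x z (Equiv.swap x y (Equiv.swap x z w)) ∉ g.support :=
        hswS x z hxS hzS _ hw2
      have e1 : (ρ * ρ) w = Equiv.swap x y (Equiv.swap x z (Equiv.swap x y (Equiv.swap x z w))) := by
        simp only [hρ, Equiv.Perm.mul_apply]
      have hw4 : Equiv.swap x y (Equiv.swap x z (Equiv.swap x y (Equiv.swap x z w))) ∉ g.support :=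
        hswS x y hxS hyS _ hw3
      rw [e1, Equiv.Perm.mul_apply, haS _ hw4, Equiv.swap_apply_self, hbS _ hw3,
        Equiv.swap_apply_self, Equiv.Perm.mul_apply, hbS _ hw, haS _ hw1]
    have h2 : c w = (b * a)⁻¹ ((a * b) w) := by rw [hcdef]; rfl
    rw [h2, ← h1, jp_ia]
  have hρΓ : ∀ w ∉ g.support, (ρ * ρ) w ∉ g.support := by
    intro w hw
    rw [hpr (ρ * ρ) (fun w hw => by rw [Equiv.Perm.mul_apply, hρS w hw, hρS w hw])]
    exact hw
  have hpowΓ : ∀ m : ℕ, ∀ w ∉ g.support, (c ^ m) w = ((ρ * ρ) ^ m) w := by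
    intro m
    induction m with
    | zero => intro w _; rfl
    | succ m ih =>
      intro w hw
      rw [pow_succ, pow_succ, Equiv.Perm.mul_apply, Equiv.Perm.mul_apply, hcΓ w hw,
        ih _ (hρΓ w hw)]
  -- action on the support
  have hpowS : ∀ w ∈ g.support, (c ^ p) w = w := by
    obtain ⟨x0, hx0, hx0c⟩ := hc
    have hx0S : x0 ∈ g.support := Equiv.Perm.mem_support.mpr hx0
    have hcx0 : g (c x0) ≠ c x0 := by
      intro h
      apply hx0
      have h1 : c (g x0) = c x0 := by
        rw [← Equiv.Perm.mul_apply, hcg, Equiv.Perm.mul_apply, h]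
      exact c.injective h1
    obtain ⟨m, hm⟩ := hx0c hcx0
    have hcomm : Commute c g := hcg
    have h1 : ∀ w ∈ g.support, c w = (g ^ m) w := by
      intro w hw
      obtain ⟨l, rfl⟩ := hx0c (Equiv.Perm.mem_support.mp hw)
      have h2 : c ((g ^ l) x0) = (g ^ l) (c x0) := by
        rw [← Equiv.Perm.mul_apply, ← Equiv.Perm.mul_apply, (hcomm.zpow_right l).eq]
      rw [h2, ← hm, ← Equiv.Perm.mul_apply, ← Equiv.Perm.mul_apply, ← zpow_add, ← zpow_add,
        add_comm]
    have hgS : ∀ w ∈ g.support, (g ^ m) w ∈ g.support := by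
      intro w hw
      rw [Equiv.Perm.zpow_apply_mem_support]
      exact hw
    have h2 : ∀ q : ℕ, ∀ w ∈ g.support, (c ^ q) w = ((g ^ m) ^ q) w := by
      intro q
      induction q with
      | zero => intro w _; rfl
      | succ q ih =>
        intro w hw
        rw [pow_succ, pow_succ, Equiv.Perm.mul_apply, Equiv.Perm.mul_apply, h1 w hw,
          ih _ (hgS w hw)]
    have hc' : g.IsCycle := ⟨x0, hx0, hx0c⟩
    intro w hw
    rw [h2 p w hw, ← zpow_natCast, ← zpow_mul, mul_comm, zpow_mul, zpow_natCast]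
    have h3 : g ^ p = 1 := by
      rw [← hs, ← hc'.orderOf]; exact pow_orderOf_eq_one g
    rw [h3, one_zpow, Equiv.Perm.one_apply]
  have hfinal : c ^ p = (ρ * ρ) ^ p := by
    apply Equiv.ext
    intro w
    by_cases hw : w ∈ g.support
    · rw [hpowS w hw]
      have h1 : ∀ m : ℕ, ((ρ * ρ) ^ m) w = w := by
        intro m
        induction m with
        | zero => rfl
        | succ m ih =>
          rw [pow_succ, Equiv.Perm.mul_apply, Equiv.Perm.mul_apply, hρS w hw, hρS w hw, ih]
      exact (h1 p).symm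
    · exact hpowΓ p w hw
  -- a 3-cycle
  have hcyc : ((ρ * ρ) ^ p).IsThreeCycle := by
    have hρo : ρ ^ 3 = 1 := by
      rw [← hρ3.orderOf]; exact pow_orderOf_eq_one ρ
    have h1 : (ρ * ρ) ^ p = ρ ^ (2 * p) := by rw [← pow_two, ← pow_mul]
    have h2 : p % 3 = 1 ∨ p % 3 = 2 := by
      have h4 : ¬ 3 ∣ p := by
        intro h5
        rcases (Nat.dvd_prime hp).mp h5 with h6 | h6
        · omega
        · exact h3 h6.symm
      omega
    rw [h1]
    rcases h2 with h2 | h2
    · have h4 : 2 * p = 3 * (2 * (p / 3)) + 2 := by omega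
      rw [h4, pow_add, pow_mul, hρo, one_pow, one_mul, pow_two]
      exact hρ3.isThreeCycle_sq
    · have h4 : 2 * p = 3 * (2 * (p / 3) + 1) + 1 := by omega
      rw [h4, pow_add, pow_mul, hρo, one_pow, one_mul, pow_one]
      exact hρ3
  exact Equiv.Perm.alternatingGroup_le_of_isPreprimitive_of_isThreeCycle_mem hK hcyc
    (hfinal ▸ K.pow_mem hcK p)

end Spr43
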