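import Mathlib

/-! # Elements of prime order `p > n/2` -/

set_option autoImplicit false

namespace Spr43

open MulAction

theorem isCycle_of_order {n p : ℕ} (hp : p.Prime) (hnp : n < 2 * p)
    (g : Equiv.Perm (Fin n)) (hg : orderOf g = p) : g.IsCycle ∧ g.support.card = p := by
  have h1 : g.IsCycle := Equiv.Perm.isCycle_of_prime_order' (by rwa [hg])
    (by rw [hg, Fintype.card_fin]; exact hnp)
  exact ⟨h1, by rw [← h1.orderOf, hg]⟩

/-- A transitive group of degree `n < 2p` with a `p`-cycle is primitive: in a nontrivial block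
system with `b` blocks of size `a` we have `a, b ≤ n/2 < p`, so the cycle fixes all blocks and
then all points. -/
theorem preprimitive_of_pcycle {n p : ℕ} (hp : p.Prime) (hnp : n < 2 * p)
    {K : Subgroup (Equiv.Perm (Fin n))} (htr : IsPretransitive K (Fin n))
    {g : Equiv.Perm (Fin n)} (hgK : g ∈ K) (hg : orderOf g = p) :
    IsPreprimitive K (Fin n) := by
  classical
  obtain ⟨hc, hs⟩ := isCycle_of_order hp hnp g hg
  have h1 := Equiv.Perm.isPretransitive_of_isCycle_mem hc hgK
  have hcard : Nat.card (SubMulAction.ofFixingSubgroup K ((g.support : Set (Fin n))ᶜ)) = p := by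
    rw [Nat.card_eq_fintype_card, Fintype.card_subtype, ← hs]
    apply congrArg
    ext x
    simp [SubMulAction.mem_ofFixingSubgroup_iff]
  have h2 : IsPreprimitive (fixingSubgroup K ((g.support : Set (Fin n))ᶜ))
      (SubMulAction.ofFixingSubgroup K ((g.support : Set (Fin n))ᶜ)) := by
    apply IsPreprimitive.of_prime_card
    rw [hcard]; exact hp
  let f : (SubMulAction.ofFixingSubgroup K ((g.support : Set (Fin n))ᶜ)) →ₑ[
      (fun u : fixingSubgroup K ((g.support : Set (Fin n))ᶜ) => (u : K))] Fin n :=
    { toFun := fun x => (x : Fin n)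
      map_smul' := fun _ _ => rfl }
  apply IsPreprimitive.of_card_lt (f := f)
  have hfi : Function.Injective f := fun x y h => Subtype.ext h
  rw [Set.ncard_range_of_injective hfi, hcard, Nat.card_eq_fintype_card,
    Fintype.card_fin]
  exact hnp

end Spr43
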