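import Pool.Agent.Lib.MP_43150e_al.PrimeGap
import Pool.Agent.Lib.MP_43150e_al.JordanP
import Pool.Agent.Lib.MP_43150e_al.PCycle

/-! # Automorphisms of the alternating group, `n ≥ 14` -/

set_option autoImplicit false

namespace Spr43

open MulAction Equiv

/-- Binomial coefficients in the middle are larger than `2 n`. -/
theorem aut_choose {n j : ℕ} (hn : 14 ≤ n) (h2 : 2 ≤ j) (hj : 2 * j ≤ n) : 2 * n < n.choose j := by
  have h1 : ∀ m, 2 ≤ m → 2 * m ≤ n → n.choose 2 ≤ n.choose m := by
    intro m hm
    induction m, hm using Nat.le_induction with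
    | base => intro _; exact le_refl _
    | succ m hm ih =>
      intro h
      exact le_trans (ih (by omega)) (Nat.choose_le_succ_of_lt_half_left (by omega))
  have h3 := h1 j h2 hj
  have h4 : n.choose 2 * 2 = n * (n - 1) := by
    rw [Nat.choose_two_right]
    exact Nat.div_mul_cancel (Nat.even_mul_pred_self n).two_dvd
  obtain ⟨m, rfl⟩ := Nat.exists_eq_add_of_le hn
  have h5 : 14 + m - 1 = 13 + m := by omega
  rw [h5] at h4
  nlinarith

/-- A permutation group preserving a set of size `j` has order at most `j! (n-j)!`. -/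
theorem aut_card_le {n : ℕ} (K : Subgroup (Perm (Fin n))) (D : Finset (Fin n))
    (hD : ∀ g ∈ K, ∀ x, g x ∈ D ↔ x ∈ D) :
    Nat.card K ≤ (D.card).factorial * (n - D.card).factorial := by
  classical
  let f : K → Perm {x // x ∈ D} × Perm {x // x ∉ D} := fun u =>
    ((u : Perm (Fin n)).subtypePerm (fun x => hD u u.2 x),
      (u : Perm (Fin n)).subtypePerm (fun x => not_congr (hD u u.2 x)))
  have hf : Function.Injective f := by
    intro u v huv
    apply Subtype.ext
    apply Equiv.ext
    intro x
    by_cases hx : x ∈ D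
    · exact congrArg (fun w : Perm {x // x ∈ D} × Perm {x // x ∉ D} =>
        ((w.1 ⟨x, hx⟩ : {x // x ∈ D}) : Fin n)) huv
    · exact congrArg (fun w : Perm {x // x ∈ D} × Perm {x // x ∉ D} =>
        ((w.2 ⟨x, hx⟩ : {x // x ∉ D}) : Fin n)) huv
  have h1 := Nat.card_le_card_of_injective f hf
  rw [Nat.card_prod, Nat.card_perm, Nat.card_perm] at h1
  have h2 : Nat.card {x // x ∈ D} = D.card := by
    rw [Nat.card_eq_fintype_card, Fintype.card_coe]
  have h3 : Nat.card {x // x ∉ D} = n - D.card := by
    rw [Nat.card_eq_fintype_card, Fintype.card_subtype_compl, Fintype.card_fin, Fintype.card_coe]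
  rwa [h2, h3] at h1

/-- A subgroup of index `n` of `A_n` (`n ≥ 14`) fixes a point. -/
theorem exists_fixed_of_index {n : ℕ} (hn : 14 ≤ n) (L : Subgroup (alternatingGroup (Fin n)))
    (hL : L.index = n) : ∃ i : Fin n, ∀ g ∈ L, (g : Perm (Fin n)) i = i := by
  classical
  obtain ⟨p, hp, hp1, hp2⟩ := prime_gap hn
  have hnt : Nontrivial (Fin n) := Fin.nontrivial_iff_two_le.mpr (by omega)
  have hA : 2 * Nat.card (alternatingGroup (Fin n)) = n.factorial := by
    rw [two_mul_nat_card_alternatingGroup, Nat.card_perm, Nat.card_eq_fintype_card,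
      Fintype.card_fin]
  have hcL : Nat.card L * n = Nat.card (alternatingGroup (Fin n)) := by
    have h1 := L.card_mul_index
    rwa [hL] at h1
  let K : Subgroup (Perm (Fin n)) := L.map (alternatingGroup (Fin n)).subtype
  have hcK : Nat.card K = Nat.card L :=
    Nat.card_congr (L.equivMapOfInjective _ Subtype.val_injective).toEquiv.symm
  have hKn : 2 * n * Nat.card K = n.factorial := by
    rw [hcK, ← hA, ← hcL]; ring
  -- an element of order `p`
  have hpf : Fact p.Prime := ⟨hp⟩
  have hpK : p ∣ Nat.card K := by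
    obtain ⟨m, rfl⟩ := Nat.exists_eq_succ_of_ne_zero (by omega : n ≠ 0)
    rw [Nat.factorial_succ] at hKn
    have h1 : 2 * Nat.card K = m.factorial := by
      have h2 : (m + 1) * (2 * Nat.card K) = (m + 1) * m.factorial := by
        have h3 : 2 * (m + 1) * Nat.card K = (m + 1) * m.factorial := hKn
        linarith
      exact Nat.eq_of_mul_eq_mul_left (Nat.succ_pos m) h2
    have h2 : p ∣ 2 * Nat.card K := by
      rw [h1]
      exact (Nat.Prime.dvd_factorial hp).mpr (by omega)
    rcases (Nat.Prime.dvd_mul hp).mp h2 with h3 | h3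
    · have := Nat.le_of_dvd (by norm_num) h3
      omega
    · exact h3
  obtain ⟨g, hg⟩ := exists_prime_orderOf_dvd_card' p hpK
  have hg' : orderOf (g : Perm (Fin n)) = p := by
    rw [← hg]; exact orderOf_injective K.subtype Subtype.val_injective g
  obtain ⟨hcyc, hsupp⟩ := isCycle_of_order hp (by omega) (g : Perm (Fin n)) hg'
  by_cases htr : IsPretransitive K (Fin n)
  · exfalso
    have hprim := preprimitive_of_pcycle hp (by omega) htr g.2 hg'
    have h1 := jordan_prime hprim hp (by omega) g.2 hcyc hsupp
    have h2 : Nat.card (alternatingGroup (Fin n)) ≤ Nat.card K := Subgroup.card_le_of_le h1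
    rw [hcK, ← hcL] at h2
    have h3 : 0 < Nat.card L := Nat.card_pos
    nlinarith
  · -- an invariant set
    obtain ⟨D, hD0, hDn, hDinv⟩ : ∃ D : Finset (Fin n), D.Nonempty ∧ Dᶜ.Nonempty ∧
        ∀ g ∈ K, ∀ x, g x ∈ D ↔ x ∈ D := by
      have h0 : ∃ x y : Fin n, ∀ g : K, g • x ≠ y := by
        by_contra hcon
        push Not at hcon
        exact htr ⟨hcon⟩
      obtain ⟨x, y, hxy⟩ := h0
      refine ⟨(orbit K x).toFinset, ⟨x, by simp [mem_orbit_self]⟩, ⟨y, ?_⟩, ?_⟩
      · rw [Finset.mem_compl, Set.mem_toFinset]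
        rintro ⟨g, hg⟩
        exact hxy g hg
      · intro g hg z
        rw [Set.mem_toFinset, Set.mem_toFinset]
        constructor
        · rintro ⟨u, hu⟩
          refine ⟨(⟨g, hg⟩ : K)⁻¹ * u, ?_⟩
          have hu' : u • x = g z := hu
          change ((⟨g, hg⟩ : K)⁻¹ * u) • x = z
          rw [mul_smul, hu', inv_smul_eq_iff]
          rfl
        · rintro ⟨u, hu⟩
          refine ⟨(⟨g, hg⟩ : K) * u, ?_⟩
          have hu' : u • x = z := hu
          change ((⟨g, hg⟩ : K) * u) • x = g z
          rw [mul_smul, hu']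
          rfl
    -- of size at most `n / 2`
    obtain ⟨D, hD0, hD2, hDinv⟩ : ∃ D : Finset (Fin n), 0 < D.card ∧ 2 * D.card ≤ n ∧
        ∀ g ∈ K, ∀ x, g x ∈ D ↔ x ∈ D := by
      rcases le_total (2 * D.card) n with h | h
      · exact ⟨D, Finset.card_pos.mpr hD0, h, hDinv⟩
      · refine ⟨Dᶜ, Finset.card_pos.mpr hDn, ?_, ?_⟩
        · rw [Finset.card_compl, Fintype.card_fin]; omega
        · intro g hg x
          rw [Finset.mem_compl, Finset.mem_compl, hDinv g hg]
    have h1 : D.card = 1 := by
      by_contra hne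
      have h2 := aut_choose hn (j := D.card) (by omega) hD2
      have h3 := aut_card_le K D hDinv
      have h4 := Nat.choose_mul_factorial_mul_factorial (n := n) (k := D.card) (by omega)
      rw [← hKn] at h4
      have h5 : 2 * n * Nat.card K ≤ 2 * n * ((D.card).factorial * (n - D.card).factorial) :=
        Nat.mul_le_mul_left _ h3
      have h6 : 0 < (D.card).factorial * (n - D.card).factorial := by positivity
      have h7 : 2 * n * ((D.card).factorial * (n - D.card).factorial) <
          n.choose D.card * ((D.card).factorial * (n - D.card).factorial) :=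
        Nat.mul_lt_mul_of_pos_right h2 h6
      rw [← mul_assoc (n.choose D.card)] at h7
      omega
    obtain ⟨i, rfl⟩ := Finset.card_eq_one.mp h1
    refine ⟨i, fun g hg => ?_⟩
    have h2 := (hDinv (g : Perm (Fin n)) ⟨g, hg, rfl⟩ i).mpr (Finset.mem_singleton_self i)
    exact Finset.mem_singleton.mp h2

/-- Every automorphism of `A_n`, `n ≥ 14`, is conjugation by a permutation. -/
theorem autAlt {n : ℕ} (hn : 14 ≤ n)
    (β : alternatingGroup (Fin n) ≃* alternatingGroup (Fin n)) :
    ∃ σ : Perm (Fin n), ∀ g : alternatingGroup (Fin n),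
      ((β g : alternatingGroup (Fin n)) : Perm (Fin n)) = σ * (g : Perm (Fin n)) * σ⁻¹ := by
  classical
  have hnt : Nontrivial (Fin n) := Fin.nontrivial_iff_two_le.mpr (by omega)
  let St : Fin n → Subgroup (alternatingGroup (Fin n)) := fun i =>
    stabilizer (alternatingGroup (Fin n)) i
  have hSt : ∀ i (g : alternatingGroup (Fin n)), g ∈ St i ↔ (g : Perm (Fin n)) i = i :=
    fun i g => mem_stabilizer_iff
  have htr : IsPretransitive (alternatingGroup (Fin n)) (Fin n) :=
    alternatingGroup.isPretransitive_of_three_le_card (Fin n) (by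
      rw [Nat.card_eq_fintype_card, Fintype.card_fin]; omega)
  have hidx : ∀ i, (St i).index = n := by
    intro i
    rw [index_stabilizer_of_transitive, Nat.card_eq_fintype_card, Fintype.card_fin]
  have hfix : ∀ i, ∃ j, (St i).map (β : alternatingGroup (Fin n) →* alternatingGroup (Fin n)) =
      St j := by
    intro i
    have h1 : ((St i).map (β : alternatingGroup (Fin n) →* alternatingGroup (Fin n))).index = n := by
      exact (Subgroup.index_map_equiv _ β).trans (hidx i)
    obtain ⟨j, hj⟩ := exists_fixed_of_index hn _ h1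
    refine ⟨j, ?_⟩
    have hle : (St i).map (β : alternatingGroup (Fin n) →* alternatingGroup (Fin n)) ≤ St j :=
      fun g hg => (hSt j g).mpr (hj g hg)
    apply Subgroup.eq_of_le_of_card_ge hle
    have h2 := ((St i).map (β : alternatingGroup (Fin n) →* alternatingGroup (Fin n))).card_mul_index
    have h3 := (St j).card_mul_index
    rw [h1] at h2
    rw [hidx j] at h3
    have h4 : Nat.card (St j) * n = Nat.card ((St i).map
      (β : alternatingGroup (Fin n) →* alternatingGroup (Fin n))) * n := by rw [h2, h3]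
    exact (Nat.eq_of_mul_eq_mul_right (by omega) h4).le
  choose σ hσ using hfix
  have hStinj : Function.Injective St := by
    intro i j hij
    by_contra hne
    -- a 3-cycle moving `j` and fixing `i`
    have hcard : 2 ≤ (({i, j} : Finset (Fin n))ᶜ).card := by
      rw [Finset.card_compl, Fintype.card_fin, Finset.card_pair hne]; omega
    obtain ⟨T, hT, hT2⟩ := Finset.exists_subset_card_eq hcard
    obtain ⟨k, l, hkl, rfl⟩ := Finset.card_eq_two.mp hT2
    have hk : k ∉ ({i, j} : Finset (Fin n)) := Finset.mem_compl.mp (hT (by simp))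
    have hl : l ∉ ({i, j} : Finset (Fin n)) := Finset.mem_compl.mp (hT (by simp))
    simp only [Finset.mem_insert, Finset.mem_singleton, not_or] at hk hl
    have hg3 : (swap j k * swap j l).IsThreeCycle :=
      Equiv.Perm.isThreeCycle_swap_mul_swap_same (Ne.symm hk.2) (Ne.symm hl.2) hkl
    have hgA : swap j k * swap j l ∈ alternatingGroup (Fin n) := hg3.mem_alternatingGroup
    have h1 : (⟨_, hgA⟩ : alternatingGroup (Fin n)) ∈ St i := by
      rw [hSt]
      change (swap j k * swap j l) i = i
      rw [Perm.mul_apply, swap_apply_of_ne_of_ne hne (Ne.symm hl.1),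
        swap_apply_of_ne_of_ne hne (Ne.symm hk.1)]
    rw [hij, hSt] at h1
    change (swap j k * swap j l) j = j at h1
    rw [Perm.mul_apply, swap_apply_left, swap_apply_of_ne_of_ne hl.2 (Ne.symm hkl)] at h1
    exact hl.2 h1
  have hσinj : Function.Injective σ := by
    intro i j hij
    apply hStinj
    have h1 := hσ i
    rw [hij, ← hσ j] at h1
    exact Subgroup.map_injective β.injective h1
  let σ' : Perm (Fin n) := Equiv.ofBijective σ (Finite.injective_iff_bijective.mp hσinj)
  have hσ' : ∀ i, σ' i = σ i := fun i => rfl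
  have hconj : ∀ (g : alternatingGroup (Fin n)) (i : Fin n) (u : alternatingGroup (Fin n)),
      u ∈ St ((g : Perm (Fin n)) i) ↔ g⁻¹ * u * g ∈ St i := by
    intro g i u
    rw [hSt, hSt]
    simp only [Subgroup.coe_mul, Subgroup.coe_inv, Perm.mul_apply]
    rw [Perm.inv_eq_iff_eq]
  have hkey : ∀ (g : alternatingGroup (Fin n)) (i : Fin n),
      ((β g : alternatingGroup (Fin n)) : Perm (Fin n)) (σ i) = σ ((g : Perm (Fin n)) i) := by
    intro g i
    apply hStinj
    ext u
    rw [hconj, ← hσ i, ← hσ ((g : Perm (Fin n)) i)]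
    have hmem : ∀ (j : Fin n) (w : alternatingGroup (Fin n)),
        w ∈ (St j).map (β : alternatingGroup (Fin n) →* alternatingGroup (Fin n)) ↔
          β.symm w ∈ St j := by
      intro j w
      exact Subgroup.mem_map_equiv (f := β)
    rw [hmem, hmem, hconj]
    simp only [map_mul, map_inv, MulEquiv.symm_apply_apply]
  refine ⟨σ', fun g => ?_⟩
  apply Equiv.ext
  intro i
  obtain ⟨j, rfl⟩ := σ'.surjective i
  rw [Perm.mul_apply, Perm.mul_apply, jp_ia, hσ', hσ', hkey]

end Spr43
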