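import Mathlib

/-! # Automorphisms of a power of a nonabelian simple group -/

set_option autoImplicit false

namespace Spr43

/-- A homomorphism from `T^ι` onto a nonabelian simple group `T` is the composition of a
projection with an automorphism. -/
theorem autPi_one {ι T : Type*} [Finite ι] [DecidableEq ι] [Group T] [IsSimpleGroup T]
    (hT : ∃ a b : T, a * b ≠ b * a) (e : (ι → T) →* T) (he : Function.Surjective e) :
    ∃ (i : ι) (α : T ≃* T), ∀ m : ι → T, e m = α (m i) := by
  have hdich : ∀ i, (∀ t, e (Pi.mulSingle i t) = 1) ∨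
      Function.Bijective (e.comp (MonoidHom.mulSingle (fun _ : ι => T) i)) := by
    intro i
    set f := e.comp (MonoidHom.mulSingle (fun _ : ι => T) i) with hf
    have hn : f.range.Normal := by
      constructor
      rintro _ ⟨t, rfl⟩ g
      obtain ⟨m, rfl⟩ := he g
      refine ⟨m i * t * (m i)⁻¹, ?_⟩
      simp only [hf, MonoidHom.comp_apply, MonoidHom.mulSingle_apply]
      rw [← map_mul, ← map_inv, ← map_mul]
      congr 1
      funext k
      by_cases hk : k = i
      · subst hk
        simp
      · simp [Pi.mulSingle_eq_of_ne hk]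
    rcases hn.eq_bot_or_eq_top with h | h
    · left
      intro t
      have : f t ∈ f.range := ⟨t, rfl⟩
      rw [h, Subgroup.mem_bot] at this
      exact this
    · have hs : Function.Surjective f := MonoidHom.range_eq_top.mp h
      rcases (inferInstance : f.ker.Normal).eq_bot_or_eq_top with h' | h'
      · right
        exact ⟨(MonoidHom.ker_eq_bot_iff f).mp h', hs⟩
      · left
        intro t
        have : t ∈ f.ker := by rw [h']; trivial
        exact this
  have hex : ∃ i, ∃ t, e (Pi.mulSingle i t) ≠ 1 := by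
    by_contra hcon
    push Not at hcon
    have hall : ∀ m : ι → T, m ∈ e.ker := fun m =>
      Subgroup.pi_mem_of_mulSingle_mem m fun i => hcon i (m i)
    obtain ⟨a, b, hab⟩ := hT
    obtain ⟨m, hm⟩ := he a
    have : e m = 1 := hall m
    rw [hm] at this
    subst this
    simp at hab
  obtain ⟨i, t0, ht0⟩ := hex
  have hbij := (hdich i).resolve_left fun h => ht0 (h t0)
  refine ⟨i, MulEquiv.ofBijective _ hbij, ?_⟩
  have htriv : ∀ k, k ≠ i → ∀ t, e (Pi.mulSingle k t) = 1 := by
    intro k hk
    refine (hdich k).resolve_right ?_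
    intro hb
    obtain ⟨a, b, hab⟩ := hT
    obtain ⟨s, hs⟩ := hbij.2 a
    obtain ⟨t, ht⟩ := hb.2 b
    simp only [MonoidHom.comp_apply, MonoidHom.mulSingle_apply] at hs ht
    apply hab
    rw [← hs, ← ht, ← map_mul, ← map_mul]
    congr 1
    exact Pi.mulSingle_commute (f := fun _ : ι => T) (Ne.symm hk) s t
  intro m
  have h1 : (Pi.mulSingle i (m i))⁻¹ * m ∈ e.ker := by
    refine Subgroup.pi_mem_of_mulSingle_mem _ fun k => ?_
    rw [MonoidHom.mem_ker]
    by_cases hk : k = i
    · subst hk
      simp
    · exact htriv k hk _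
  rw [MonoidHom.mem_ker, map_mul, map_inv] at h1
  have h2 : e m = e (Pi.mulSingle i (m i)) := (inv_mul_eq_one.mp h1).symm
  rw [h2]
  rfl

/-- Every automorphism of `T^ι` (`T` nonabelian simple, `ι` finite) permutes the factors. -/
theorem autPi {ι T : Type*} [Finite ι] [Group T] [IsSimpleGroup T]
    (hT : ∃ a b : T, a * b ≠ b * a) (β : (ι → T) ≃* (ι → T)) :
    ∃ (τ : Equiv.Perm ι) (α : ι → (T ≃* T)), ∀ (m : ι → T) (i : ι), β m (τ i) = α i (m i) := by
  classical
  have h := fun j => autPi_one hT ((Pi.evalMonoidHom (fun _ : ι => T) j).comp β.toMonoidHom)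
    (by
      intro t
      refine ⟨β.symm (Pi.mulSingle j t), ?_⟩
      simp)
  choose σ α hσ using h
  have hσ' : ∀ (j : ι) (m : ι → T), β m j = α j (m (σ j)) := fun j m => hσ j m
  have hsurj : Function.Surjective σ := by
    intro i
    by_contra hcon
    push Not at hcon
    obtain ⟨t, ht⟩ := exists_ne (1 : T)
    have h1 : β (Pi.mulSingle i t) = 1 := by
      funext j
      rw [hσ' j, Pi.mulSingle_eq_of_ne (hcon j)]
      simp
    have h2 : (Pi.mulSingle i t : ι → T) = 1 := by
      rw [← map_one β] at h1
      exact β.injective h1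
    apply ht
    have := congrFun h2 i
    simpa using this
  let τ' : Equiv.Perm ι := Equiv.ofBijective σ ⟨Finite.injective_iff_surjective.mpr hsurj, hsurj⟩
  refine ⟨τ'.symm, fun i => α (τ'.symm i), fun m i => ?_⟩
  rw [hσ']
  congr 2
  exact Equiv.apply_symm_apply τ' i

end Spr43
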