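import Pool.Agent.Lib.MP_43150e_al.Crit
import Pool.Agent.Lib.MP_43150e_al.AutPi

/-! # Case A: `M = T^ι`, some projection of the point stabiliser is proper, `|ι| ≥ 2` -/

set_option autoImplicit false

namespace Spr43

/-- A finite nonabelian simple group: for every prime divisor `p` of the order and every proper
subgroup `L` there is an element of order `p` outside `L`. -/
theorem exists_prime_order_not_mem {T : Type*} [Group T] [Finite T] [IsSimpleGroup T]
    {p : ℕ} [Fact p.Prime] (hp : p ∣ Nat.card T) (L : Subgroup T) (hL : L ≠ ⊤) :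
    ∃ c : T, orderOf c = p ∧ c ∉ L := by
  by_contra hcon
  push Not at hcon
  obtain ⟨c, hc⟩ := exists_prime_orderOf_dvd_card' p hp
  have hn : (Subgroup.normalClosure {t : T | orderOf t = p}).Normal := Subgroup.normalClosure_normal
  have hle : Subgroup.normalClosure {t : T | orderOf t = p} ≤ L := by
    have h1 : Group.conjugatesOfSet {t : T | orderOf t = p} ⊆ L := by
      intro y hy
      rw [Group.mem_conjugatesOfSet_iff] at hy
      obtain ⟨t, ht, h⟩ := hy
      refine hcon y ?_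
      rw [isConj_iff] at h
      obtain ⟨g, rfl⟩ := h
      have : orderOf (MulAut.conj g t) = orderOf t := MulEquiv.orderOf_eq (MulAut.conj g) t
      rw [MulAut.conj_apply] at this
      rw [this]
      exact ht
    exact (Subgroup.closure_le L).mpr h1
  rcases hn.eq_bot_or_eq_top with h | h
  · have : c ∈ Subgroup.normalClosure {t : T | orderOf t = p} :=
      Subgroup.subset_normalClosure hc
    rw [h, Subgroup.mem_bot] at this
    subst this
    rw [orderOf_one] at hc
    exact (Fact.out : p.Prime).one_lt.ne hc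
  · rw [h] at hle
    exact hL (top_le_iff.mp hle)

theorem exists_hom_of_pow {T : Type*} [Group T] {p : ℕ} (c : T) (hc : c ^ p = 1) :
    ∃ f : Multiplicative (ZMod p) →* T, f (Multiplicative.ofAdd 1) = c := by
  let f : ZMod p →+ Additive T := ZMod.lift p ⟨zmultiplesHom (Additive T) (Additive.ofMul c), by
    rw [zmultiplesHom_apply, natCast_zsmul, ← ofMul_pow, hc]
    rfl⟩
  refine ⟨AddMonoidHom.toMultiplicativeLeft f, ?_⟩
  have h1 : f ((1 : ℤ) : ZMod p) = Additive.ofMul c := by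
    simp only [f, ZMod.lift_coe]
    rw [zmultiplesHom_apply, one_zsmul]
  rw [Int.cast_one] at h1
  show (f 1).toMul = c
  rw [h1]
  rfl

theorem hom_mem {T : Type*} [Group T] {p : ℕ} [Fact p.Prime] (f : Multiplicative (ZMod p) →* T)
    (L : Subgroup T) (hf : f (Multiplicative.ofAdd 1) ∉ L) (a : Multiplicative (ZMod p))
    (ha : f a ∈ L) : a = 1 := by
  by_contra hne
  have hcard : Nat.card (Multiplicative (ZMod p)) = p := by simp
  have hz : Subgroup.zpowers a = ⊤ := zpowers_eq_top_of_prime_card hcard hne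
  have h1 : (Multiplicative.ofAdd 1 : Multiplicative (ZMod p)) ∈ Subgroup.zpowers a := by
    rw [hz]; trivial
  obtain ⟨k, hk⟩ := h1
  apply hf
  rw [← hk]
  simp only [map_zpow]
  exact L.zpow_mem ha k

theorem caseA {Γ Ω ι T : Type*} [Group Γ] [MulAction Γ Ω] [Fintype Ω] [DecidableEq Ω]
    [Finite ι] [Group T] [Finite T] [IsSimpleGroup T]
    (hT : ∃ a b : T, a * b ≠ b * a) (j : (ι → T) →* Γ)
    (hj : ∀ g : Γ, ∃ β : (ι → T) ≃* (ι → T), ∀ m, j (β m) = g * j m * g⁻¹)
    (hfaith : ∀ m : ι → T, (∀ x : Ω, j m • x = x) → m = 1)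
    (htr : ∀ x y : Ω, ∃ m : ι → T, j m • x = y)
    (x : Ω) (i₀ i₁ : ι) (h01 : i₀ ≠ i₁)
    (hproj : ∃ t : T, ∀ m : ι → T, j m • x = x → m i₀ ≠ t) :
    ¬ IsSpreading Γ Ω := by
  classical
  set K : Subgroup (ι → T) := (MulAction.stabilizer Γ x).comap j with hK
  have hmK : ∀ m, m ∈ K ↔ j m • x = x := fun m => by
    rw [hK, Subgroup.mem_comap, MulAction.mem_stabilizer_iff]
  set L : Subgroup T := K.map (Pi.evalMonoidHom (fun _ : ι => T) i₀) with hL
  obtain ⟨t₀, ht₀⟩ := hproj
  have ht₀L : t₀ ∉ L := by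
    rintro ⟨m, hm, hmt⟩
    exact ht₀ m ((hmK m).mp hm) hmt
  have hLtop : L ≠ ⊤ := fun h => ht₀L (by rw [h]; trivial)
  have hcard1 : Nat.card T ≠ 1 := by
    have : 1 < Nat.card T := Finite.one_lt_card_iff_nontrivial.mpr inferInstance
    omega
  obtain ⟨p, hp, hpT⟩ := Nat.exists_prime_and_dvd hcard1
  haveI : Fact p.Prime := ⟨hp⟩
  obtain ⟨c, hc, hcL⟩ := exists_prime_order_not_mem hpT L hLtop
  set L' : Subgroup T := K.comap (MonoidHom.mulSingle (fun _ : ι => T) i₁) with hL'
  have hL'top : L' ≠ ⊤ := by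
    intro h
    have h1 : ∀ t : T, j (Pi.mulSingle i₁ t) • x = x := by
      intro t
      have : t ∈ L' := by rw [h]; trivial
      rw [hL', Subgroup.mem_comap, hmK] at this
      exact this
    obtain ⟨t, ht⟩ := exists_ne (1 : T)
    have h2 : (Pi.mulSingle i₁ t : ι → T) = 1 := by
      apply hfaith
      intro y
      obtain ⟨m, rfl⟩ := htr x y
      rw [← mul_smul, ← map_mul]
      have h3 : (Pi.mulSingle i₁ t : ι → T) * m =
          m * Pi.mulSingle i₁ ((m i₁)⁻¹ * t * m i₁) := by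
        funext k
        by_cases hk : k = i₁
        · subst hk
          simp [mul_assoc]
        · simp [Pi.mulSingle_eq_of_ne hk]
      rw [h3, map_mul, mul_smul, h1]
    apply ht
    have := congrFun h2 i₁
    simpa using this
  obtain ⟨c', hc', hcL'⟩ := exists_prime_order_not_mem hpT L' hL'top
  obtain ⟨f₀, hf₀⟩ := exists_hom_of_pow (p := p) c (by rw [← hc]; exact pow_orderOf_eq_one c)
  obtain ⟨f₁, hf₁⟩ := exists_hom_of_pow (p := p) c' (by rw [← hc']; exact pow_orderOf_eq_one c')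
  have hcomm : ∀ a b, Commute (((MonoidHom.mulSingle (fun _ : ι => T) i₀).comp f₀) a)
      (((MonoidHom.mulSingle (fun _ : ι => T) i₁).comp f₁) b) := by
    intro a b
    exact Pi.mulSingle_commute (f := fun _ : ι => T) h01 (f₀ a) (f₁ b)
  let φ : Multiplicative (ZMod p) × Multiplicative (ZMod p) →* (ι → T) :=
    MonoidHom.noncommCoprod _ _ hcomm
  let ψ : Multiplicative (ZMod p) × Multiplicative (ZMod p) →* Multiplicative (ZMod p) :=
    MonoidHom.coprod (MonoidHom.id _) (MonoidHom.id _)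
  have hφ : ∀ a b, φ (a, b) = Pi.mulSingle i₀ (f₀ a) * Pi.mulSingle i₁ (f₁ b) := fun a b => rfl
  have hψ : ∀ a b, ψ (a, b) = a * b := fun a b => rfl
  have hg1 : (Multiplicative.ofAdd 1 : Multiplicative (ZMod p)) ≠ 1 := by
    intro h
    have : (1 : ZMod p) = 0 := Multiplicative.ofAdd.injective h
    exact one_ne_zero this
  refine criterionQ j hj p φ ψ (L.comap (Pi.evalMonoidHom (fun _ : ι => T) i₀)) x ?_ ?_ ?_
  · intro β
    obtain ⟨τ, α, hτ⟩ := autPi hT β
    by_cases hi : τ.symm i₀ = i₀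
    · refine ⟨(1, Multiplicative.ofAdd 1), by rw [hψ, one_mul]; exact hg1, ?_⟩
      rw [Subgroup.mem_comap, Pi.evalMonoidHom_apply]
      have h1 := hτ (φ (1, Multiplicative.ofAdd 1)) (τ.symm i₀)
      rw [Equiv.apply_symm_apply] at h1
      rw [h1, hi, hφ]
      simp only [map_one, Pi.mulSingle_one, one_mul]
      rw [Pi.mulSingle_eq_of_ne h01, map_one]
      exact L.one_mem
    · refine ⟨(Multiplicative.ofAdd 1, 1), by rw [hψ, mul_one]; exact hg1, ?_⟩
      rw [Subgroup.mem_comap, Pi.evalMonoidHom_apply]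
      have h1 := hτ (φ (Multiplicative.ofAdd 1, 1)) (τ.symm i₀)
      rw [Equiv.apply_symm_apply] at h1
      rw [h1, hφ]
      simp only [map_one, Pi.mulSingle_one, mul_one]
      rw [Pi.mulSingle_eq_of_ne hi, map_one]
      exact L.one_mem
  · refine ⟨x, j (Pi.mulSingle i₀ t₀) • x, ?_⟩
    intro h hh heq
    apply ht₀L
    rw [Subgroup.mem_comap, Pi.evalMonoidHom_apply] at hh
    have h1 : h⁻¹ * Pi.mulSingle i₀ t₀ ∈ K := by
      rw [hmK, map_mul, mul_smul, ← heq, ← mul_smul, ← map_mul]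
      simp
    have h2 : (h⁻¹ * Pi.mulSingle i₀ t₀ : ι → T) i₀ ∈ L := ⟨_, h1, rfl⟩
    have h3 : (h⁻¹ * Pi.mulSingle i₀ t₀ : ι → T) i₀ = (h i₀)⁻¹ * t₀ := by simp
    rw [h3] at h2
    have h4 := L.mul_mem hh h2
    simpa using h4
  · rintro ⟨a, b⟩ hab
    rw [hφ] at hab
    have h1 : Pi.mulSingle i₀ (f₀ a) * Pi.mulSingle i₁ (f₁ b) ∈ K := (hmK _).mpr hab
    have h2 : f₀ a ∈ L := by
      refine ⟨_, h1, ?_⟩
      rw [Pi.evalMonoidHom_apply, Pi.mul_apply, Pi.mulSingle_eq_same, Pi.mulSingle_eq_of_ne h01,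
        mul_one]
    have ha : a = 1 := hom_mem f₀ L (by rw [hf₀]; exact hcL) a h2
    subst ha
    rw [map_one, Pi.mulSingle_one, one_mul] at h1
    have hb : b = 1 := hom_mem f₁ L' (by rw [hf₁]; exact hcL') b (by
      rw [hL', Subgroup.mem_comap]
      exact h1)
    subst hb
    rw [hψ, mul_one]

end Spr43
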