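import Pool.Agent.Lib.MP_43150e_al.Defs

/-! # Switches for intransitive and imprimitive subgroups -/

set_option autoImplicit false

namespace Spr43

open MulAction Equiv

/-- The rotations of the fibres of `Fin r × ZMod 3`. -/
def rotHom (r : ℕ) : Multiplicative (Fin r → ZMod 3) →* Perm (Fin r × ZMod 3) where
  toFun e :=
    { toFun := fun x => (x.1, x.2 + e.toAdd x.1)
      invFun := fun x => (x.1, x.2 - e.toAdd x.1)
      left_inv := fun x => by simp
      right_inv := fun x => by simp }
  map_one' := by
    ext x <;> simp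
  map_mul' e f := by
    ext x
    · simp
    · simp only [toAdd_mul, Pi.add_apply, Perm.coe_mul, Function.comp_apply, Equiv.coe_fn_mk]
      ring

theorem rotHom_apply (r : ℕ) (e : Fin r → ZMod 3) (i : Fin r) (a : ZMod 3) :
    rotHom r (Multiplicative.ofAdd e) (i, a) = (i, a + e i) := rfl

/-- Three (two) disjoint 3-cycles: the homomorphism `(ℤ/3)^r → A_n` and the sum of exponents.
`c i : ZMod 3 → Fin n` injective, disjoint ranges for different `i : Fin r`. -/
theorem exists_cycles_hom {n r : ℕ} (c : Fin r → ZMod 3 → Fin n)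
    (hc : ∀ i i' a a', c i a = c i' a' → i = i' ∧ a = a') :
    ∃ φ : Multiplicative (Fin r → ZMod 3) →* alternatingGroup (Fin n),
      (∀ (e : Fin r → ZMod 3) (i : Fin r) (a : ZMod 3),
        (φ (Multiplicative.ofAdd e) : Perm (Fin n)) (c i a) = c i (a + e i)) ∧
      (∀ (e : Fin r → ZMod 3) (y : Fin n), (∀ i a, e i ≠ 0 → c i a ≠ y) →
        (φ (Multiplicative.ofAdd e) : Perm (Fin n)) y = y) := by
  let ι : Fin r × ZMod 3 ↪ Fin n :=
    ⟨fun x => c x.1 x.2, fun x y h => Prod.ext (hc _ _ _ _ h).1 (hc _ _ _ _ h).2⟩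
  let Φ : Multiplicative (Fin r → ZMod 3) →* Perm (Fin n) :=
    (Perm.viaEmbeddingHom ι).comp (rotHom r)
  have hval : ∀ (e : Fin r → ZMod 3) (i : Fin r) (a : ZMod 3),
      Φ (Multiplicative.ofAdd e) (c i a) = c i (a + e i) := by
    intro e i a
    exact Perm.viaEmbedding_apply (rotHom r (Multiplicative.ofAdd e)) ι (i, a)
  have hout : ∀ (e : Fin r → ZMod 3) (y : Fin n), y ∉ Set.range ι →
      Φ (Multiplicative.ofAdd e) y = y := by
    intro e y hy
    exact Perm.viaEmbedding_apply_of_notMem (rotHom r (Multiplicative.ofAdd e)) ι y hy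
  have halt : ∀ e, Φ e ∈ alternatingGroup (Fin n) := by
    intro e
    rw [Perm.mem_alternatingGroup]
    have h1 : e ^ 3 = 1 := by
      apply Multiplicative.toAdd.injective
      rw [toAdd_pow, toAdd_one]
      funext i
      rw [Pi.smul_apply, Pi.zero_apply, nsmul_eq_mul]
      have : ((3 : ℕ) : ZMod 3) = 0 := ZMod.natCast_self 3
      rw [this, zero_mul]
    have h2 : Perm.sign (Φ e) ^ 3 = 1 := by
      rw [← map_pow, ← map_pow, h1, map_one, map_one]
    have h3 : Perm.sign (Φ e) ^ 2 = 1 := Int.units_sq _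
    rw [pow_succ, h3, one_mul] at h2
    exact h2
  refine ⟨Φ.codRestrict (alternatingGroup (Fin n)) halt, hval, ?_⟩
  intro e y hy
  by_cases hr : y ∈ Set.range ι
  · obtain ⟨⟨i, a⟩, rfl⟩ := hr
    have h0 : e i = 0 := by
      by_contra h
      exact hy i a h rfl
    have := hval e i a
    rw [h0, add_zero] at this
    exact this
  · exact hout e y hr

theorem switch_aux {n : ℕ} (K : Subgroup (Perm (Fin n)))
    (D : Finset (Fin n)) (h2 : 2 ≤ D.card) (h2' : D.card + 4 ≤ n)
    (hD : ∀ h ∈ K, ∀ x, x ∈ D → h x ∈ D) : Switch K := by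
  classical
  have hu : Nonempty (Fin 2 ↪ {x // x ∈ D}) := by
    apply Function.Embedding.nonempty_of_card_le
    simpa using h2
  have hv : Nonempty (Fin 2 × Fin 2 ↪ {x // x ∉ D}) := by
    apply Function.Embedding.nonempty_of_card_le
    rw [Fintype.card_subtype_compl]
    simp
    omega
  obtain ⟨u⟩ := hu
  obtain ⟨v⟩ := hv
  let c : Fin 2 → ZMod 3 → Fin n := fun i a =>
    if a = 0 then (u i : Fin n) else if a = 1 then (v (i, 0) : Fin n) else (v (i, 1) : Fin n)
  have hc0 : ∀ i, c i 0 ∈ D := fun i => by
    simp only [c, if_true]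
    exact (u i).2
  have hcD : ∀ i a, c i a ∈ D → a = 0 := by
    intro i a h
    by_contra ha
    simp only [c, if_neg ha] at h
    split_ifs at h
    · exact (v (i, 0)).2 h
    · exact (v (i, 1)).2 h
  have hinj : ∀ i i' a a', c i a = c i' a' → i = i' ∧ a = a' := by
    intro i i' a a' h
    by_cases ha : a = 0
    · subst ha
      have h1 : a' = 0 := hcD i' a' (h ▸ hc0 i)
      subst h1
      simp only [c, if_true] at h
      exact ⟨u.injective (Subtype.ext h), rfl⟩
    · by_cases ha' : a' = 0
      · subst ha'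
        exact absurd (hcD i a (h ▸ hc0 i')) ha
      · have key : ∀ b : ZMod 3, b ≠ 0 → b ≠ 1 → b = 2 := by decide
        simp only [c, if_neg ha, if_neg ha'] at h
        by_cases h1 : a = 1
        · by_cases h1' : a' = 1
          · rw [if_pos h1, if_pos h1'] at h
            have := v.injective (Subtype.ext h)
            rw [Prod.mk.injEq] at this
            exact ⟨this.1, h1.trans h1'.symm⟩
          · rw [if_pos h1, if_neg h1'] at h
            have := v.injective (Subtype.ext h)
            rw [Prod.mk.injEq] at this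
            exact absurd this.2 (by decide)
        · by_cases h1' : a' = 1
          · rw [if_neg h1, if_pos h1'] at h
            have := v.injective (Subtype.ext h)
            rw [Prod.mk.injEq] at this
            exact absurd this.2 (by decide)
          · rw [if_neg h1, if_neg h1'] at h
            have := v.injective (Subtype.ext h)
            rw [Prod.mk.injEq] at this
            exact ⟨this.1, (key a ha h1).trans (key a' ha' h1').symm⟩
  obtain ⟨φ, hφ1, hφ2⟩ := exists_cycles_hom c hinj
  let ψ : Multiplicative (Fin 2 → ZMod 3) →* Multiplicative (ZMod 3) :=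
    AddMonoidHom.toMultiplicative
      (Pi.evalAddMonoidHom (fun _ : Fin 2 => ZMod 3) 0 + Pi.evalAddMonoidHom (fun _ => ZMod 3) 1)
  have hψ : ∀ e : Fin 2 → ZMod 3, ψ (Multiplicative.ofAdd e) = Multiplicative.ofAdd (e 0 + e 1) :=
    fun e => rfl
  have hne : (Multiplicative.ofAdd (1 : ZMod 3)) ≠ 1 := by
    intro h
    have : (1 : ZMod 3) = 0 := Multiplicative.ofAdd.injective h
    exact absurd this (by decide)
  refine ⟨1, 3, ⟨Nat.prime_three⟩, Multiplicative (Fin 2 → ZMod 3), inferInstance, φ, ψ,
    by omega, ⟨{c 0 0}, {c 0 1}, by simp, by simp, ?_⟩, ?_, ?_⟩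
  · intro h hh heq
    rw [Finset.image_singleton, Finset.singleton_inj] at heq
    have h1 := hD h hh (c 0 0) (hc0 0)
    rw [heq] at h1
    exact absurd (hcD 0 1 h1) (by decide)
  · intro U hU
    obtain ⟨y, rfl⟩ := Finset.card_eq_one.mp hU
    by_cases hy : ∃ a, c 0 a = y
    · obtain ⟨a', ha'⟩ := hy
      refine ⟨Multiplicative.ofAdd (Pi.single 1 1), ?_, ?_⟩
      · rw [hψ]
        simp
      · rw [Finset.image_singleton, hφ2]
        intro i a hi hia
        have hi1 : i = 1 := by
          by_contra hne1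
          exact hi (Pi.single_eq_of_ne hne1 _)
        subst hi1
        have := (hinj _ _ _ _ (hia.trans ha'.symm)).1
        exact absurd this (by decide)
    · push Not at hy
      refine ⟨Multiplicative.ofAdd (Pi.single 0 1), ?_, ?_⟩
      · rw [hψ]
        simp
      · rw [Finset.image_singleton, hφ2]
        intro i a hi hia
        have hi1 : i = 0 := by
          by_contra hne1
          exact hi (Pi.single_eq_of_ne hne1 _)
        subst hi1
        exact hy a hia
  · intro e he
    have hz : ∀ i, e.toAdd i = 0 := by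
      intro i
      have h1 := hφ1 e.toAdd i 0
      rw [ofAdd_toAdd, zero_add] at h1
      have h2 := hD _ he (c i 0) (hc0 i)
      rw [h1] at h2
      exact hcD i _ h2
    have h3 := hψ e.toAdd
    rw [ofAdd_toAdd, hz, hz, add_zero, ofAdd_zero] at h3
    exact h3

/-- `K` preserves a set `D` with `2 ≤ |D| ≤ n - 2`. `s = 1`, two disjoint 3-cycles with
`c i 0 ∈ D`, `c i 1, c i 2 ∉ D` (or the same with the complement of `D`). -/
theorem switch_of_invariant {n : ℕ} (hn : 14 ≤ n) (K : Subgroup (Perm (Fin n)))
    (D : Finset (Fin n)) (h2 : 2 ≤ D.card) (h2' : D.card + 2 ≤ n)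
    (hD : ∀ h ∈ K, D.image (fun i => h i) = D) : Switch K := by
  classical
  have hD1 : ∀ h ∈ K, ∀ x, x ∈ D → h x ∈ D := by
    intro h hh x hx
    rw [← hD h hh]
    exact Finset.mem_image_of_mem _ hx
  by_cases hle : D.card + 4 ≤ n
  · exact switch_aux K D h2 hle hD1
  · have hcard : Dᶜ.card = n - D.card := by
      rw [Finset.card_compl, Fintype.card_fin]
    refine switch_aux K Dᶜ (by omega) (by omega) ?_
    intro h hh x hx
    rw [Finset.mem_compl] at hx ⊢
    intro hx2
    apply hx
    have := hD1 h⁻¹ (K.inv_mem hh) (h x) hx2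
    simpa using this

end Spr43
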