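import Pool.Agent.Lib.MP_43150e_al.Crit
import Pool.Agent.Lib.MP_43150e_al.AutPi
import Pool.Agent.Lib.MP_43150e_al.AutAlt
import Pool.Agent.Lib.MP_43150e_al.SwA

/-! # Case B: `M = A_n^ι`, all projections of the point stabiliser are onto -/

set_option autoImplicit false

namespace Spr43

open Equiv

/-- Subdirect subgroups of a power of a finite nonabelian simple group (Scott's lemma, the part
we need): if `K ≤ T^ι` projects onto every factor and does not contain the factor `i₀`, there are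
`i₁ ≠ i₀` and an automorphism `α` with `m i₀ = α (m i₁)` for all `m ∈ K`. -/
theorem exists_graph {ι T : Type*} [Finite ι] [DecidableEq ι] [Group T] [Finite T]
    [IsSimpleGroup T] (hT : ∃ a b : T, a * b ≠ b * a) (K : Subgroup (ι → T))
    (hproj : ∀ (i : ι) (t : T), ∃ m ∈ K, m i = t) (i₀ : ι)
    (hK : ∃ t : T, Pi.mulSingle i₀ t ∉ K) :
    ∃ (i₁ : ι) (α : T ≃* T), i₁ ≠ i₀ ∧ ∀ m ∈ K, m i₀ = α (m i₁) := by
  classical
  let N : Finset ι → Subgroup T := fun S =>
    { carrier := {t | ∃ m ∈ K, (∀ j ∈ S, m j = 1) ∧ m i₀ = t}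
      mul_mem' := by
        rintro a b ⟨m, hm, h1, rfl⟩ ⟨m', hm', h1', rfl⟩
        exact ⟨m * m', K.mul_mem hm hm', fun j hj => by simp [h1 j hj, h1' j hj], rfl⟩
      one_mem' := ⟨1, K.one_mem, fun _ _ => rfl, rfl⟩
      inv_mem' := by
        rintro a ⟨m, hm, h1, rfl⟩
        exact ⟨m⁻¹, K.inv_mem hm, fun j hj => by simp [h1 j hj], rfl⟩ }
  have hNn : ∀ S, (N S).Normal := by
    intro S
    constructor
    rintro t ⟨m, hm, h1, rfl⟩ g
    obtain ⟨m', hm', rfl⟩ := hproj i₀ g
    exact ⟨m' * m * m'⁻¹, K.mul_mem (K.mul_mem hm' hm) (K.inv_mem hm'),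
      fun j hj => by simp [h1 j hj], by simp⟩
  have hdich : ∀ S, N S = ⊥ ∨ N S = ⊤ := fun S => (hNn S).eq_bot_or_eq_top
  by_cases hj : ∃ j, j ≠ i₀ ∧ N {j} = ⊥
  · obtain ⟨i₁, hne, hbot⟩ := hj
    have hkey : ∀ m ∈ K, m i₁ = 1 → m i₀ = 1 := by
      intro m hm h1
      have : m i₀ ∈ N {i₁} := ⟨m, hm, fun j hj => by rw [Finset.mem_singleton.1 hj]; exact h1, rfl⟩
      rwa [hbot, Subgroup.mem_bot] at this
    have hkey2 : ∀ m ∈ K, ∀ m' ∈ K, m i₁ = m' i₁ → m i₀ = m' i₀ := by
      intro m hm m' hm' h1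
      have := hkey (m * m'⁻¹) (K.mul_mem hm (K.inv_mem hm')) (by simp [h1])
      rw [Pi.mul_apply, Pi.inv_apply] at this
      exact mul_inv_eq_one.1 this
    choose f hf1 hf2 using hproj i₁
    let e : T →* T :=
      { toFun := fun t => f t i₀
        map_one' := hkey _ (hf1 1) (hf2 1)
        map_mul' := fun a b => by
          have := hkey2 (f (a * b)) (hf1 _) (f a * f b) (K.mul_mem (hf1 _) (hf1 _))
            (by rw [Pi.mul_apply, hf2, hf2, hf2])
          rw [this, Pi.mul_apply] }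
    have he : ∀ m ∈ K, m i₀ = e (m i₁) := fun m hm =>
      hkey2 m hm (f (m i₁)) (hf1 _) (hf2 _).symm
    have hsurj : Function.Surjective e := by
      intro t
      obtain ⟨m, hm, rfl⟩ := hproj i₀ t
      exact ⟨m i₁, (he m hm).symm⟩
    exact ⟨i₁, MulEquiv.ofBijective e ⟨Finite.injective_iff_surjective.mpr hsurj, hsurj⟩, hne,
      fun m hm => he m hm⟩
  · exfalso
    push Not at hj
    have hall : ∀ S : Finset ι, i₀ ∉ S → N S = ⊤ := by
      intro S
      induction S using Finset.induction_on with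
      | empty =>
        intro _
        rw [eq_top_iff]
        rintro t -
        obtain ⟨m, hm, e⟩ := hproj i₀ t
        exact ⟨m, hm, by simp, e⟩
      | insert j S hjS ih =>
        intro hi
        rw [Finset.mem_insert, not_or] at hi
        have h1 := ih hi.2
        have h2 := (hdich {j}).resolve_left (hj j (Ne.symm hi.1))
        refine (hdich _).resolve_left ?_
        intro hb
        obtain ⟨a, b, hab⟩ := hT
        have ha : a ∈ N S := by rw [h1]; trivial
        have hb' : b ∈ N {j} := by rw [h2]; trivial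
        obtain ⟨m, hm, hm1, hma⟩ := ha
        obtain ⟨m', hm', hm1', hmb⟩ := hb'
        have : a * b * a⁻¹ * b⁻¹ ∈ N (insert j S) := by
          refine ⟨m * m' * m⁻¹ * m'⁻¹, K.mul_mem (K.mul_mem (K.mul_mem hm hm') (K.inv_mem hm))
            (K.inv_mem hm'), ?_, by simp [hma, hmb]⟩
          intro k hk
          rcases Finset.mem_insert.1 hk with rfl | hk
          · simp [hm1' k (Finset.mem_singleton_self k)]
          · simp [hm1 k hk]
        rw [hb, Subgroup.mem_bot] at this
        apply hab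
        have h3 := mul_inv_eq_one.1 this
        exact mul_inv_eq_iff_eq_mul.1 h3
    have := Fintype.ofFinite ι
    obtain ⟨t, ht⟩ := hK
    have htN : t ∈ N (Finset.univ.erase i₀) := by rw [hall _ (by simp)]; trivial
    obtain ⟨m, hm, h1, rfl⟩ := htN
    apply ht
    have : Pi.mulSingle i₀ (m i₀) = m := by
      funext k
      by_cases hk : k = i₀
      · subst hk; simp
      · rw [Pi.mulSingle_eq_of_ne hk, h1 k (by simp [hk])]
    rw [this]
    exact hm

/-- ... and then `K` meets the factor `i₀` trivially. -/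
theorem mulSingle_mem_iff {ι T : Type*} [Finite ι] [DecidableEq ι] [Group T]
    [IsSimpleGroup T] (K : Subgroup (ι → T))
    (hproj : ∀ (i : ι) (t : T), ∃ m ∈ K, m i = t) (i₀ : ι)
    (hK : ∃ t : T, Pi.mulSingle i₀ t ∉ K) (t : T) (ht : Pi.mulSingle i₀ t ∈ K) : t = 1 := by
  let N : Subgroup T := K.comap (MonoidHom.mulSingle (fun _ : ι => T) i₀)
  have hN : N.Normal := by
    constructor
    intro t ht g
    obtain ⟨m, hm, rfl⟩ := hproj i₀ g
    show Pi.mulSingle i₀ (m i₀ * t * (m i₀)⁻¹) ∈ K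
    have : Pi.mulSingle i₀ (m i₀ * t * (m i₀)⁻¹) = m * Pi.mulSingle i₀ t * m⁻¹ := by
      funext k
      by_cases hk : k = i₀
      · subst hk; simp
      · simp [Pi.mulSingle_eq_of_ne hk]
    rw [this]
    exact K.mul_mem (K.mul_mem hm ht) (K.inv_mem hm)
  rcases hN.eq_bot_or_eq_top with h | h
  · have : t ∈ N := ht
    rwa [h, Subgroup.mem_bot] at this
  · obtain ⟨s, hs⟩ := hK
    exact absurd (show s ∈ N by rw [h]; trivial) hs

theorem caseB {Γ Ω ι : Type*} {n : ℕ} (hn : 14 ≤ n) [Group Γ] [MulAction Γ Ω] [Fintype Ω]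
    [DecidableEq Ω] [Finite ι] (j : (ι → alternatingGroup (Fin n)) →* Γ)
    (hj : ∀ g : Γ, ∃ β : (ι → alternatingGroup (Fin n)) ≃* (ι → alternatingGroup (Fin n)),
      ∀ m, j (β m) = g * j m * g⁻¹)
    (hfaith : ∀ m : ι → alternatingGroup (Fin n), (∀ x : Ω, j m • x = x) → m = 1)
    (htr : ∀ x y : Ω, ∃ m : ι → alternatingGroup (Fin n), j m • x = y)
    (x : Ω) (hx : ∃ y : Ω, y ≠ x)
    (hproj : ∀ (i : ι) (t : alternatingGroup (Fin n)),
      ∃ m : ι → alternatingGroup (Fin n), j m • x = x ∧ m i = t) :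
    ¬ IsSpreading Γ Ω := by
  classical
  have hcard : 5 ≤ Nat.card (Fin n) := by simp; omega
  have hsimple : IsSimpleGroup (alternatingGroup (Fin n)) := alternatingGroup.isSimpleGroup hcard
  have hT : ∃ a b : alternatingGroup (Fin n), a * b ≠ b * a := by
    by_contra hcon
    push Not at hcon
    have h1 : IsMulCommutative (alternatingGroup (Fin n)) := ⟨⟨hcon⟩⟩
    have h2 := (alternatingGroup.isMulCommutative_iff_card_le_three (α := Fin n)).1 h1
    omega
  let K : Subgroup (ι → alternatingGroup (Fin n)) := (MulAction.stabilizer Γ x).comap j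
  have hKm : ∀ m, m ∈ K ↔ j m • x = x := fun m => Iff.rfl
  have hprojK : ∀ (i : ι) (t : alternatingGroup (Fin n)), ∃ m ∈ K, m i = t := fun i t => hproj i t
  have hKne : ∃ i₀, ∃ t, Pi.mulSingle i₀ t ∉ K := by
    by_contra hcon
    push Not at hcon
    obtain ⟨y, hy⟩ := hx
    obtain ⟨m, hm⟩ := htr x y
    have h1 : m ∈ K := Subgroup.pi_mem_of_mulSingle_mem m fun i => hcon i (m i)
    rw [hKm] at h1
    exact hy (hm.symm.trans h1)
  obtain ⟨i₀, hi₀⟩ := hKne
  obtain ⟨i₁, α, hne, hα⟩ := exists_graph hT K hprojK i₀ hi₀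
  obtain ⟨σ, hσ⟩ := autAlt hn α
  have hσK : ∀ m ∈ K, (m i₀ : Perm (Fin n)) = σ * (m i₁ : Perm (Fin n)) * σ⁻¹ := by
    intro m hm
    rw [hα m hm, hσ]
  -- the cycles
  have hcb : ∀ (i : Fin 2) (a : ZMod 3), 3 * (i : ℕ) + a.val < n := by
    intro i a
    have h1 := a.val_lt
    have h2 := i.2
    omega
  let c : Fin 2 → ZMod 3 → Fin n := fun i a => ⟨3 * (i : ℕ) + a.val, hcb i a⟩
  have hc : ∀ i i' a a', c i a = c i' a' → i = i' ∧ a = a' := by
    intro i i' a a' h
    have h0 : 3 * (i : ℕ) + a.val = 3 * (i' : ℕ) + a'.val := by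
      simpa [c, Fin.ext_iff] using h
    have h1 := a.val_lt
    have h2 := a'.val_lt
    constructor
    · apply Fin.ext; omega
    · apply ZMod.val_injective; omega
  obtain ⟨φ, hφ1, hφ2⟩ := exists_cycles_hom c hc
  let ψ : Multiplicative (Fin 2 → ZMod 3) →* Multiplicative (ZMod 3) :=
    AddMonoidHom.toMultiplicative
      { toFun := fun e => e 0 + e 1
        map_zero' := by simp
        map_add' := fun e e' => by simp only [Pi.add_apply]; ring }
  have hψ : ∀ e : Fin 2 → ZMod 3, ψ (Multiplicative.ofAdd e) = Multiplicative.ofAdd (e 0 + e 1) :=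
    fun e => rfl
  have h0n : 0 < n := by omega
  let z : Fin n := ⟨0, h0n⟩
  -- the subgroup `H`
  let H : Subgroup (ι → alternatingGroup (Fin n)) :=
    { carrier := {m | ∀ i, (m i : Perm (Fin n)) z = z}
      mul_mem' := by
        intro a b ha hb i
        have h1 : (b i : Perm (Fin n)) z = z := hb i
        have h2 : (a i : Perm (Fin n)) z = z := ha i
        show ((a i : Perm (Fin n)) * (b i : Perm (Fin n))) z = z
        rw [Perm.mul_apply, h1, h2]
      one_mem' := fun _ => rfl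
      inv_mem' := by
        intro a ha i
        show (a i : Perm (Fin n))⁻¹ z = z
        rw [Perm.inv_eq_iff_eq]
        exact (ha i).symm }
  have : Fact (Nat.Prime 3) := ⟨Nat.prime_three⟩
  refine criterionQ j hj 3 ((MonoidHom.mulSingle (fun _ : ι => alternatingGroup (Fin n)) i₀).comp φ)
    ψ H x ?_ ?_ ?_
  · intro β
    obtain ⟨τ, α', hτ⟩ := autPi hT β
    obtain ⟨ρ, hρ⟩ := autAlt hn (α' i₀)
    -- a cycle which misses `ρ⁻¹ z`
    have hex : ∃ i : Fin 2, ∀ a, c i a ≠ ρ⁻¹ z := by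
      by_contra hcon
      push Not at hcon
      obtain ⟨a, ha⟩ := hcon 0
      obtain ⟨b, hb⟩ := hcon 1
      have := (hc 0 1 a b (ha.trans hb.symm)).1
      exact absurd this (by decide)
    obtain ⟨i, hi⟩ := hex
    refine ⟨Multiplicative.ofAdd (Pi.single i 1), ?_, ?_⟩
    · rw [hψ]
      intro h
      have h' : (Pi.single i 1 : Fin 2 → ZMod 3) 0 + (Pi.single i 1 : Fin 2 → ZMod 3) 1 = 0 := by
        exact Multiplicative.ofAdd.injective h
      fin_cases i
      · simp at h'
      · simp at h'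
    · intro k
      obtain ⟨k, rfl⟩ := τ.surjective k
      show ((β (Pi.mulSingle i₀ (φ (Multiplicative.ofAdd (Pi.single i 1))))) (τ k) :
        Perm (Fin n)) z = z
      rw [hτ]
      by_cases hk : k = i₀
      · subst hk
        rw [Pi.mulSingle_eq_same, hρ, Perm.mul_apply, Perm.mul_apply, hφ2, ← Perm.mul_apply,
          mul_inv_cancel, Perm.one_apply]
        intro i' a he
        by_cases hii : i' = i
        · subst hii; exact hi a
        · exact absurd (Pi.single_eq_of_ne hii _) he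
      · rw [Pi.mulSingle_eq_of_ne hk, map_one]
        rfl
  · by_contra hcon
    push Not at hcon
    -- choose the test element
    have htest : ∃ t : alternatingGroup (Fin n), (σ z = z ∧ (t : Perm (Fin n)) z ≠ z) ∨
        (σ z ≠ z ∧ (t : Perm (Fin n)) z = σ z) := by
      have htrA : MulAction.IsPretransitive (alternatingGroup (Fin n)) (Fin n) :=
        alternatingGroup.isPretransitive_of_three_le_card (Fin n) (by
          rw [Nat.card_eq_fintype_card, Fintype.card_fin]; omega)
      by_cases hs : σ z = z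
      · have h1n : 1 < n := by omega
        obtain ⟨t, ht⟩ := MulAction.exists_smul_eq (alternatingGroup (Fin n)) z (⟨1, h1n⟩ : Fin n)
        refine ⟨t, Or.inl ⟨hs, ?_⟩⟩
        have ht' : (t : Perm (Fin n)) z = ⟨1, h1n⟩ := ht
        rw [ht']
        simp [z]
      · obtain ⟨t, ht⟩ := MulAction.exists_smul_eq (alternatingGroup (Fin n)) z (σ z)
        exact ⟨t, Or.inr ⟨hs, ht⟩⟩
    obtain ⟨t, ht⟩ := htest
    obtain ⟨h, hhH, hh⟩ := hcon x (j (Pi.mulSingle i₀ t)⁻¹ • x)
    have hkK : Pi.mulSingle i₀ t * h ∈ K := by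
      rw [hKm, map_mul, mul_smul, hh, ← mul_smul, ← map_mul, mul_inv_cancel, map_one, one_smul]
    have h1 := hσK _ hkK
    have h2 : ∀ y, (t : Perm (Fin n)) ((h i₀ : Perm (Fin n)) y) =
        σ ((h i₁ : Perm (Fin n)) (σ⁻¹ y)) := by
      intro y
      have h3 := congrArg (fun q : Perm (Fin n) => q y) h1
      simp only [Pi.mul_apply, Pi.mulSingle_eq_same, Pi.mulSingle_eq_of_ne hne, one_mul,
        Subgroup.coe_mul, Perm.mul_apply] at h3
      exact h3
    have hz0 : (h i₀ : Perm (Fin n)) z = z := hhH i₀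
    have hz1 : (h i₁ : Perm (Fin n)) z = z := hhH i₁
    have h4 : (t : Perm (Fin n)) ((h i₀ : Perm (Fin n)) (σ z)) = σ z := by
      rw [h2 (σ z), ← Perm.mul_apply σ⁻¹ σ, inv_mul_cancel, Perm.one_apply, hz1]
    rcases ht with ⟨ha, hb⟩ | ⟨ha, hb⟩
    · rw [ha, hz0] at h4
      exact hb h4
    · apply ha
      have h5 : (h i₀ : Perm (Fin n)) (σ z) = z :=
        (t : Perm (Fin n)).injective (h4.trans hb.symm)
      exact (h i₀ : Perm (Fin n)).injective (h5.trans hz0.symm)
  · intro e he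
    have h1 : φ e = 1 := mulSingle_mem_iff K hprojK i₀ hi₀ (φ e) he
    obtain ⟨e, rfl⟩ := Multiplicative.ofAdd.surjective e
    have h2 : ∀ i, e i = 0 := by
      intro i
      have h3 := hφ1 e i 0
      rw [h1] at h3
      have h4 : c i 0 = c i (0 + e i) := h3
      have h5 := (hc _ _ _ _ h4).2
      rw [zero_add] at h5
      exact h5.symm
    rw [hψ, h2, h2]
    rfl

end Spr43
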