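import Mathlib

/-! # Two disjoint triples without double transpositions -/

set_option autoImplicit false

namespace Spr43

open Equiv

/-- Two double transpositions which meet in one point generate a 3-cycle. -/
theorem dt_false {n : ℕ} (K : Subgroup (Perm (Fin n))) (h3 : ∀ g ∈ K, ¬ g.IsThreeCycle)
    {x y z d e f g : Fin n} (hn : [x, y, z, d, e, f, g].Nodup)
    (h1 : swap x y * swap d e ∈ K) (h2 : swap x z * swap f g ∈ K) : False := by
  simp only [List.nodup_cons, List.mem_cons, List.not_mem_nil, or_false, not_or,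
    List.nodup_nil, and_true, not_false_eq_true] at hn
  obtain ⟨⟨xy, xz, xd, xe, xf, xg⟩, ⟨yz, yd, ye, yf, yg⟩, ⟨zd, ze, zf, zg⟩, ⟨de, df, dg⟩,
    ⟨ef, eg⟩, fg⟩ := hn
  have hc : ∀ {a b c k : Fin n}, a ≠ b → a ≠ c → a ≠ k → b ≠ c → b ≠ k → c ≠ k →
      swap a b * swap c k = swap c k * swap a b := by
    intro a b c k h1 h2 h3 h4 h5 h6
    exact (Perm.Disjoint.commute (Perm.disjoint_swap_swap (by
      simp [h1, h2, h3, h4, h5, h6]))).eq
  have c1 : swap d e * swap x z = swap x z * swap d e :=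
    hc de (Ne.symm xd) (Ne.symm zd) (Ne.symm xe) (Ne.symm ze) xz
  have c2 : swap d e * swap x y = swap x y * swap d e :=
    hc de (Ne.symm xd) (Ne.symm yd) (Ne.symm xe) (Ne.symm ye) xy
  have c3 : swap d e * swap f g = swap f g * swap d e := hc de df dg ef eg fg
  have c4 : swap f g * swap x y = swap x y * swap f g :=
    hc fg (Ne.symm xf) (Ne.symm yf) (Ne.symm xg) (Ne.symm yg) xy
  have c5 : swap f g * swap x z = swap x z * swap f g :=
    hc fg (Ne.symm xf) (Ne.symm zf) (Ne.symm xg) (Ne.symm zg) xz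
  have hsq1 : swap d e * swap d e = 1 := swap_mul_self d e
  have hsq2 : swap f g * swap f g = 1 := swap_mul_self f g
  have key : (swap x y * swap d e) * (swap x z * swap f g) * ((swap x y * swap d e) *
      (swap x z * swap f g)) = (swap x y * swap x z) * (swap x y * swap x z) := by
    generalize swap x y = A at *
    generalize swap d e = B at *
    generalize swap x z = C at *
    generalize swap f g = D at *
    calc (A * B) * (C * D) * ((A * B) * (C * D)) = A * (B * C) * D * A * (B * C) * D := by group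
      _ = A * C * B * (D * A) * C * B * D := by rw [c1]; group
      _ = A * C * (B * A) * D * C * B * D := by rw [c4]; group
      _ = A * C * A * B * (D * C) * B * D := by rw [c2]; group
      _ = A * C * A * (B * C) * D * B * D := by rw [c5]; group
      _ = A * C * A * C * B * D * B * D := by rw [c1]; group
      _ = A * C * A * C * B * D * (B * D) := by group
      _ = A * C * A * C * (B * B) := by
        rw [c3]
        calc A * C * A * C * B * D * (D * B) = A * C * A * C * B * (D * D) * B := by group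
          _ = A * C * A * C * (B * B) := by rw [hsq2]; group
      _ = (A * C) * (A * C) := by rw [hsq1]; group
  have h4 := K.mul_mem (K.mul_mem h1 h2) (K.mul_mem h1 h2)
  rw [key] at h4
  exact h3 _ h4 (Perm.IsThreeCycle.isThreeCycle_sq (Perm.isThreeCycle_swap_mul_swap_same xy xz yz))

theorem dt_step {n : ℕ} (K : Subgroup (Perm (Fin n))) (h3 : ∀ g ∈ K, ¬ g.IsThreeCycle)
    (H : ∀ X Y : Fin 3 → Fin n, Function.Injective X → Function.Injective Y →
      (∀ a b, X a ≠ Y b) →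
      ∃ a b d e : Fin 3, a ≠ b ∧ d ≠ e ∧ swap (X a) (X b) * swap (Y d) (Y e) ∈ K)
    {a₁ b₁ d₁ e₁ u v : Fin n} (Y : Fin 3 → Fin n) (hY : Function.Injective Y)
    (hn : [a₁, b₁, d₁, e₁, u, v].Nodup) (hYd : ∀ i, Y i ∉ [a₁, b₁, d₁, e₁, u, v])
    (h1 : swap a₁ b₁ * swap d₁ e₁ ∈ K) :
    ∃ d e : Fin 3, d ≠ e ∧ swap u v * swap (Y d) (Y e) ∈ K := by
  simp only [List.nodup_cons, List.mem_cons, List.not_mem_nil, or_false, not_or,
    List.nodup_nil, and_true, not_false_eq_true] at hn hYd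
  obtain ⟨⟨ab, ad, ae, au, av⟩, ⟨bd, be, bu, bv⟩, ⟨de, du, dv⟩, ⟨eu, ev⟩, uv⟩ := hn
  have hX : Function.Injective ![a₁, u, v] := by
    intro i k h
    fin_cases i <;> fin_cases k <;> simp_all
  obtain ⟨a, b, d, e, hab, hde, hK⟩ := H ![a₁, u, v] Y hX hY (by
    intro i k h
    obtain ⟨h1, h2, h3, h4, h5, h6⟩ := hYd k
    fin_cases i
    · exact h1 h.symm
    · exact h5 h.symm
    · exact h6 h.symm)
  have hYde : Y d ≠ Y e := fun h => hde (hY h)
  obtain ⟨d1, d2, d3, d4, d5, d6⟩ := hYd d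
  obtain ⟨e1, e2, e3, e4, e5, e6⟩ := hYd e
  have bad : ∀ w, w ≠ a₁ → w ≠ b₁ → w ≠ d₁ → w ≠ e₁ → Y d ≠ w → Y e ≠ w →
      ¬ (swap a₁ w * swap (Y d) (Y e) ∈ K) := by
    intro w w1 w2 w3 w4 w5 w6 hw
    refine dt_false K h3 (x := a₁) (y := b₁) (z := w) (d := d₁) (e := e₁) (f := Y d) (g := Y e)
      ?_ h1 hw
    simp only [List.nodup_cons, List.mem_cons, List.not_mem_nil, or_false, not_or,
      List.nodup_nil, and_true, not_false_eq_true]
    exact ⟨⟨ab, Ne.symm w1, ad, ae, Ne.symm d1, Ne.symm e1⟩, ⟨Ne.symm w2, bd, be, Ne.symm d2,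
      Ne.symm e2⟩, ⟨w3, w4, Ne.symm w5, Ne.symm w6⟩, ⟨de, Ne.symm d3, Ne.symm e3⟩,
      ⟨Ne.symm d4, Ne.symm e4⟩, hYde⟩
  have badu := bad u (Ne.symm au) (Ne.symm bu) (Ne.symm du) (Ne.symm eu) d5 e5
  have badv := bad v (Ne.symm av) (Ne.symm bv) (Ne.symm dv) (Ne.symm ev) d6 e6
  refine ⟨d, e, hde, ?_⟩
  fin_cases a <;> fin_cases b
  · exact absurd rfl hab
  · exact absurd hK badu
  · exact absurd hK badv
  · rw [swap_comm] at hK
    exact absurd hK badu
  · exact absurd rfl hab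
  · exact hK
  · rw [swap_comm] at hK
    exact absurd hK badv
  · rw [swap_comm] at hK
    exact hK
  · exact absurd rfl hab

/-- `K ≤ Sym(n)`, `n ≥ 13`, without 3-cycles. Then there are disjoint triples `X`, `Y` such that no
`(a b)(d e)` with `a, b ∈ X`, `d, e ∈ Y` lies in `K`. (par. 5(c) of the paper proof) -/
theorem exists_triples {n : ℕ} (hn : 13 ≤ n) (K : Subgroup (Perm (Fin n)))
    (h3 : ∀ g ∈ K, ¬ g.IsThreeCycle) :
    ∃ X Y : Fin 3 → Fin n, Function.Injective X ∧ Function.Injective Y ∧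
      (∀ a b, X a ≠ Y b) ∧
      ∀ a b d e : Fin 3, a ≠ b → d ≠ e → swap (X a) (X b) * swap (Y d) (Y e) ∉ K := by
  by_contra hcon
  have H : ∀ X Y : Fin 3 → Fin n, Function.Injective X → Function.Injective Y →
      (∀ a b, X a ≠ Y b) →
      ∃ a b d e : Fin 3, a ≠ b ∧ d ≠ e ∧ swap (X a) (X b) * swap (Y d) (Y e) ∈ K := by
    intro X Y h1 h2 h4
    by_contra h5
    apply hcon
    refine ⟨X, Y, h1, h2, h4, ?_⟩
    intro a b d e hab hde hK
    exact h5 ⟨a, b, d, e, hab, hde, hK⟩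
  obtain ⟨a, b, d, e, hab, hde, h1⟩ := H (fun i => ⟨i.1, by omega⟩) (fun i => ⟨i.1 + 3, by omega⟩)
    (fun i k h => by
      simp only [Fin.mk.injEq] at h
      exact Fin.ext h)
    (fun i k h => by
      simp only [Fin.mk.injEq] at h
      exact Fin.ext (by omega))
    (fun i k h => by
      simp only [Fin.mk.injEq] at h
      omega)
  set a₁ : Fin n := ⟨a.1, by omega⟩ with ha₁
  set b₁ : Fin n := ⟨b.1, by omega⟩ with hb₁
  set d₁ : Fin n := ⟨d.1 + 3, by omega⟩ with hd₁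
  set e₁ : Fin n := ⟨e.1 + 3, by omega⟩ with he₁
  have ab : a₁ ≠ b₁ := fun h => hab (Fin.ext (by simpa [ha₁, hb₁] using h))
  have de : d₁ ≠ e₁ := fun h => hde (Fin.ext (by simpa [hd₁, he₁] using h))
  have ad : a₁ ≠ d₁ := fun h => by simp only [ha₁, hd₁, Fin.mk.injEq] at h; omega
  have ae : a₁ ≠ e₁ := fun h => by simp only [ha₁, he₁, Fin.mk.injEq] at h; omega
  have bd : b₁ ≠ d₁ := fun h => by simp only [hb₁, hd₁, Fin.mk.injEq] at h; omega
  have be : b₁ ≠ e₁ := fun h => by simp only [hb₁, he₁, Fin.mk.injEq] at h; omega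
  clear_value a₁ b₁ d₁ e₁
  set S : Finset (Fin n) := {a₁, b₁, d₁, e₁} with hS
  have hcard : S.card ≤ 4 := Finset.card_le_four
  have hw : Nonempty (Fin 9 ↪ {x // x ∉ S}) := by
    apply Function.Embedding.nonempty_of_card_le
    rw [Fintype.card_subtype_compl]
    simp only [Fintype.card_fin, Fintype.card_coe]
    omega
  obtain ⟨w⟩ := hw
  have wS : ∀ i, (w i : Fin n) ≠ a₁ ∧ (w i : Fin n) ≠ b₁ ∧ (w i : Fin n) ≠ d₁ ∧
      (w i : Fin n) ≠ e₁ := by
    intro i
    have := (w i).2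
    simp only [hS, Finset.mem_insert, Finset.mem_singleton, not_or] at this
    exact this
  have wne : ∀ i k, i ≠ k → (w i : Fin n) ≠ w k := fun i k h h' => h (w.injective (Subtype.ext h'))
  have hnd : ∀ i k, i ≠ k → [a₁, b₁, d₁, e₁, (w i : Fin n), (w k : Fin n)].Nodup := by
    intro i k h
    obtain ⟨i1, i2, i3, i4⟩ := wS i
    obtain ⟨k1, k2, k3, k4⟩ := wS k
    simp only [List.nodup_cons, List.mem_cons, List.not_mem_nil, or_false, not_or,
      List.nodup_nil, and_true, not_false_eq_true]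
    exact ⟨⟨ab, ad, ae, Ne.symm i1, Ne.symm k1⟩, ⟨bd, be, Ne.symm i2, Ne.symm k2⟩,
      ⟨de, Ne.symm i3, Ne.symm k3⟩, ⟨Ne.symm i4, Ne.symm k4⟩, wne i k h⟩
  have hYd : ∀ i k l, l ≠ i → l ≠ k → (w l : Fin n) ∉ [a₁, b₁, d₁, e₁, (w i : Fin n), (w k : Fin n)] := by
    intro i k l h h'
    obtain ⟨i1, i2, i3, i4⟩ := wS l
    simp only [List.mem_cons, List.not_mem_nil, or_false, not_or]
    exact ⟨i1, i2, i3, i4, wne _ _ h, wne _ _ h'⟩
  obtain ⟨p, q, hpq, h2⟩ := dt_step K h3 H (u := w 0) (v := w 1) (fun i => w ⟨i.1 + 3, by omega⟩)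
    (fun i k h => by
      have := w.injective (Subtype.ext h)
      simp only [Fin.mk.injEq] at this
      exact Fin.ext (by omega))
    (hnd 0 1 (by decide))
    (fun i => hYd 0 1 _ (fun h => by have := congrArg Fin.val h; simp at this)
      (fun h => by have := congrArg Fin.val h; simp at this)) h1
  obtain ⟨r, s, hrs, h4⟩ := dt_step K h3 H (u := w 0) (v := w 2) (fun i => w ⟨i.1 + 6, by omega⟩)
    (fun i k h => by
      have := w.injective (Subtype.ext h)
      simp only [Fin.mk.injEq] at this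
      exact Fin.ext (by omega))
    (hnd 0 2 (by decide))
    (fun i => hYd 0 2 _ (fun h => by have := congrArg Fin.val h; simp at this)
      (fun h => by have := congrArg Fin.val h; simp at this)) h1
  refine dt_false K h3 ?_ h2 h4
  have hval : ∀ i k : Fin 9, i.1 ≠ k.1 → (w i : Fin n) ≠ w k := fun i k h =>
    wne i k fun h' => h (congrArg Fin.val h')
  have hpq' : p.1 ≠ q.1 := fun h => hpq (Fin.ext h)
  have hrs' : r.1 ≠ s.1 := fun h => hrs (Fin.ext h)
  simp only [List.nodup_cons, List.mem_cons, List.not_mem_nil, or_false, not_or,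
    List.nodup_nil, and_true, not_false_eq_true]
  refine ⟨⟨hval _ _ ?_, hval _ _ ?_, hval _ _ ?_, hval _ _ ?_, hval _ _ ?_, hval _ _ ?_⟩,
    ⟨hval _ _ ?_, hval _ _ ?_, hval _ _ ?_, hval _ _ ?_, hval _ _ ?_⟩,
    ⟨hval _ _ ?_, hval _ _ ?_, hval _ _ ?_, hval _ _ ?_⟩,
    ⟨hval _ _ ?_, hval _ _ ?_, hval _ _ ?_⟩, ⟨hval _ _ ?_, hval _ _ ?_⟩, hval _ _ ?_⟩ <;>
  simp <;> omega

end Spr43
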