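import Pool.Agent.Lib.MP_43150e_al.PrimeGap
import Pool.Agent.Lib.MP_43150e_al.JordanP
import Pool.Agent.Lib.MP_43150e_al.PCycle

/-! # A primitive group not containing `A_n` is not transitive on the `(p-1)`-sets -/

set_option autoImplicit false

namespace Spr43

open MulAction

open scoped Pointwise in
/-- If a finite group `K ≤ Sym(n)` is transitive on the `s`-subsets, `C(n,s)` divides `|K|`. -/
theorem choose_dvd_card {n s : ℕ} (hs : s ≤ n) (K : Subgroup (Equiv.Perm (Fin n)))
    (h : ∀ U U' : Finset (Fin n), U.card = s → U'.card = s →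
      ∃ g ∈ K, U.image (fun i => g i) = U') : n.choose s ∣ Nat.card K := by
  classical
  obtain ⟨U₀, _, hU₀⟩ := Finset.exists_subset_card_eq (s := (Finset.univ : Finset (Fin n)))
    (n := s) (by simpa using hs)
  have horb : orbit K U₀ = ((Finset.powersetCard s (Finset.univ : Finset (Fin n)) :
      Finset (Finset (Fin n))) : Set (Finset (Fin n))) := by
    ext U
    rw [Finset.mem_coe, Finset.mem_powersetCard_univ]
    constructor
    · rintro ⟨g, rfl⟩
      change (g • U₀).card = s
      rw [Finset.card_smul_finset, hU₀]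
    · intro hU
      obtain ⟨g, hg, e⟩ := h U₀ U hU₀ hU
      exact ⟨⟨g, hg⟩, e⟩
  have h1 : Nat.card (orbit K U₀) = n.choose s := by
    rw [horb, Nat.card_coe_set_eq, Set.ncard_coe_finset, Finset.card_powersetCard]
    simp
  have h2 := Nat.card_congr (orbitEquivQuotientStabilizer K U₀)
  rw [← h1, h2]
  exact Subgroup.index_dvd_card (stabilizer K U₀)

theorem not_homog {n : ℕ} (hn : 14 ≤ n) (K : Subgroup (Equiv.Perm (Fin n)))
    (hK : IsPreprimitive K (Fin n)) (hA : ¬ alternatingGroup (Fin n) ≤ K) :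
    ∃ s, s ≤ n ∧ ∃ U U' : Finset (Fin n), U.card = s ∧ U'.card = s ∧
      ∀ h ∈ K, U.image (fun i => h i) ≠ U' := by
  classical
  obtain ⟨p, hp, h1, h2⟩ := prime_gap hn
  have hpos := hp.pos
  refine ⟨p - 1, by omega, ?_⟩
  by_contra hcon
  push Not at hcon
  have hdvd : n.choose (p - 1) ∣ Nat.card K :=
    choose_dvd_card (by omega) K (fun U U' hU hU' => hcon U U' hU hU')
  have hchoose : p ∣ n.choose (p - 1) := by
    have h3 := Nat.choose_mul_factorial_mul_factorial (n := n) (k := p - 1) (by omega)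
    have h4 : p ∣ n.factorial := (Nat.Prime.dvd_factorial hp).2 (by omega)
    rw [← h3] at h4
    rcases (Nat.Prime.dvd_mul hp).1 h4 with h5 | h5
    · rcases (Nat.Prime.dvd_mul hp).1 h5 with h6 | h6
      · exact h6
      · have := (Nat.Prime.dvd_factorial hp).1 h6
        omega
    · have := (Nat.Prime.dvd_factorial hp).1 h5
      omega
  have hpf : Fact p.Prime := ⟨hp⟩
  obtain ⟨g, hg⟩ := exists_prime_orderOf_dvd_card' p (hchoose.trans hdvd)
  have hg' : orderOf (g : Equiv.Perm (Fin n)) = p := by
    rw [← hg]; exact orderOf_injective K.subtype Subtype.val_injective g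
  obtain ⟨hcyc, hsupp⟩ := isCycle_of_order hp (by omega) (g : Equiv.Perm (Fin n)) hg'
  exact hA (jordan_prime hK hp h2 g.2 hcyc hsupp)

end Spr43
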