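import Pool.Agent.Lib.MP_43150e_al.SwB
import Pool.Agent.Lib.MP_43150e_al.Homog
import Pool.Agent.Lib.MP_43150e_al.DoubleT

/-! # Switches for primitive subgroups; the trichotomy -/

set_option autoImplicit false

namespace Spr43

open MulAction Equiv

theorem via_swap {n : ℕ} (ι : Fin 3 ↪ Fin n) (a b : Fin 3) :
    Perm.viaEmbedding (swap a b) ι = swap (ι a) (ι b) := by
  apply Equiv.ext
  intro y
  by_cases hy : y ∈ Set.range ι
  · obtain ⟨c, rfl⟩ := hy
    rw [Perm.viaEmbedding_apply, ι.injective.map_swap]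
  · rw [Perm.viaEmbedding_apply_of_notMem _ _ _ hy, swap_apply_of_ne_of_ne]
    · rintro rfl; exact hy ⟨a, rfl⟩
    · rintro rfl; exact hy ⟨b, rfl⟩

theorem via_sign {n : ℕ} (ι : Fin 3 ↪ Fin n) (σ : Perm (Fin 3)) :
    Perm.sign (Perm.viaEmbedding σ ι) = Perm.sign σ := by
  rw [Perm.viaEmbedding, Perm.sign_extendDomain]

theorem perm3_swap : ∀ σ : Perm (Fin 3), Perm.sign σ ≠ 1 → ∃ a b : Fin 3, a ≠ b ∧ σ = swap a b := by
  decide

/-- The two-element groups `ℤˣ` and `ℤ/2`. -/
def unitsHom : ℤˣ →* Multiplicative (ZMod 2) where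
  toFun u := if u = 1 then 1 else Multiplicative.ofAdd 1
  map_one' := by simp
  map_mul' := by decide

theorem unitsHom_eq_one (u : ℤˣ) (h : unitsHom u = 1) : u = 1 := by
  revert u
  decide

/-- The group of pairs of permutations of three points with the same sign, embedded by two
disjoint injections into `A_n`. -/
theorem exists_pair_hom {n : ℕ} (X Y : Fin 3 → Fin n) (hX : Function.Injective X)
    (hY : Function.Injective Y) (hXY : ∀ a b, X a ≠ Y b) :
    ∃ (P : Type) (_ : Group P) (φ : P →* alternatingGroup (Fin n))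
      (ψ : P →* Multiplicative (ZMod 2)),
      (∀ a b d e : Fin 3, a ≠ b → d ≠ e → ∃ h : P, ψ h ≠ 1 ∧
        (φ h : Perm (Fin n)) = swap (X a) (X b) * swap (Y d) (Y e)) ∧
      (∀ h : P, ψ h ≠ 1 → ∃ a b d e : Fin 3, a ≠ b ∧ d ≠ e ∧
        (φ h : Perm (Fin n)) = swap (X a) (X b) * swap (Y d) (Y e)) := by
  classical
  let ιX : Fin 3 ↪ Fin n := ⟨X, hX⟩
  let ιY : Fin 3 ↪ Fin n := ⟨Y, hY⟩
  have hcomm : ∀ σ τ : Perm (Fin 3),
      Commute (Perm.viaEmbeddingHom ιX σ) (Perm.viaEmbeddingHom ιY τ) := by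
    intro σ τ
    apply Perm.Disjoint.commute
    intro y
    by_cases hy : y ∈ Set.range ιX
    · right
      apply Perm.viaEmbedding_apply_of_notMem
      rintro ⟨b, rfl⟩
      obtain ⟨a, ha⟩ := hy
      exact hXY a b ha
    · left
      exact Perm.viaEmbedding_apply_of_notMem _ _ _ hy
  let Φ : Perm (Fin 3) × Perm (Fin 3) →* Perm (Fin n) :=
    (Perm.viaEmbeddingHom ιX).noncommCoprod (Perm.viaEmbeddingHom ιY) hcomm
  have hΦ : ∀ σ τ, Φ (σ, τ) = Perm.viaEmbedding σ ιX * Perm.viaEmbedding τ ιY := fun _ _ => rfl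
  let P : Subgroup (Perm (Fin 3) × Perm (Fin 3)) :=
    (Perm.sign.comp Φ).ker
  have hP : ∀ σ τ : Perm (Fin 3), (σ, τ) ∈ P ↔ Perm.sign σ * Perm.sign τ = 1 := by
    intro σ τ
    rw [MonoidHom.mem_ker, MonoidHom.comp_apply, hΦ, map_mul, via_sign, via_sign]
  let φ : P →* alternatingGroup (Fin n) :=
    (Φ.comp P.subtype).codRestrict (alternatingGroup (Fin n)) (fun h => h.2)
  let ψ : P →* Multiplicative (ZMod 2) :=
    unitsHom.comp (Perm.sign.comp ((MonoidHom.fst _ _).comp P.subtype))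
  have hψ : ∀ (σ τ : Perm (Fin 3)) (h : (σ, τ) ∈ P), ψ ⟨(σ, τ), h⟩ = unitsHom (Perm.sign σ) :=
    fun _ _ _ => rfl
  have hφ : ∀ (σ τ : Perm (Fin 3)) (h : (σ, τ) ∈ P),
      (φ ⟨(σ, τ), h⟩ : Perm (Fin n)) = Perm.viaEmbedding σ ιX * Perm.viaEmbedding τ ιY :=
    fun _ _ _ => rfl
  refine ⟨P, inferInstance, φ, ψ, ?_, ?_⟩
  · intro a b d e hab hde
    have hmem : (swap a b, swap d e) ∈ P := by
      rw [hP, Perm.sign_swap hab, Perm.sign_swap hde]
      decide
    refine ⟨⟨_, hmem⟩, ?_, ?_⟩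
    · rw [hψ, Perm.sign_swap hab]
      intro h
      have := unitsHom_eq_one _ h
      exact absurd this (by decide)
    · rw [hφ, via_swap, via_swap]
      rfl
  · rintro ⟨⟨σ, τ⟩, hmem⟩ h1
    rw [hψ] at h1
    have hσ : Perm.sign σ ≠ 1 := by
      intro h
      rw [h, map_one] at h1
      exact h1 rfl
    have hτ : Perm.sign τ ≠ 1 := by
      intro h
      have := (hP σ τ).1 hmem
      rw [h, mul_one] at this
      exact hσ this
    obtain ⟨a, b, hab, rfl⟩ := perm3_swap σ hσ
    obtain ⟨d, e, hde, rfl⟩ := perm3_swap τ hτ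
    refine ⟨a, b, d, e, hab, hde, ?_⟩
    rw [hφ, via_swap, via_swap]
    rfl

/-- Two of three points are on the same side of `U`. -/
theorem exists_same_side {n : ℕ} (X : Fin 3 → Fin n) (U : Finset (Fin n)) :
    ∃ a b : Fin 3, a ≠ b ∧ (X a ∈ U ↔ X b ∈ U) := by
  by_cases h0 : X 0 ∈ U <;> by_cases h1 : X 1 ∈ U <;> by_cases h2 : X 2 ∈ U
  · exact ⟨0, 1, by decide, iff_of_true h0 h1⟩
  · exact ⟨0, 1, by decide, iff_of_true h0 h1⟩
  · exact ⟨0, 2, by decide, iff_of_true h0 h2⟩
  · exact ⟨1, 2, by decide, iff_of_false h1 h2⟩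
  · exact ⟨1, 2, by decide, iff_of_true h1 h2⟩
  · exact ⟨0, 2, by decide, iff_of_false h0 h2⟩
  · exact ⟨0, 1, by decide, iff_of_false h0 h1⟩
  · exact ⟨0, 1, by decide, iff_of_false h0 h1⟩

theorem swap_mem_iff {n : ℕ} (U : Finset (Fin n)) (u v : Fin n) (h : u ∈ U ↔ v ∈ U)
    (w : Fin n) : swap u v w ∈ U ↔ w ∈ U := by
  rcases eq_or_ne w u with rfl | hu
  · rw [swap_apply_left]; exact h.symm
  · rcases eq_or_ne w v with rfl | hv
    · rw [swap_apply_right]; exact h
    · rw [swap_apply_of_ne_of_ne hu hv]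

/-- `K` primitive, not containing `A_n`. -/
theorem switch_of_primitive {n : ℕ} (hn : 14 ≤ n) (K : Subgroup (Perm (Fin n)))
    (hK : IsPreprimitive K (Fin n)) (hA : ¬ alternatingGroup (Fin n) ≤ K) : Switch K := by
  classical
  have h3 : ∀ g ∈ K, ¬ g.IsThreeCycle := by
    intro g hg h3
    exact hA (Perm.alternatingGroup_le_of_isPreprimitive_of_isThreeCycle_mem hK h3 hg)
  obtain ⟨X, Y, hX, hY, hXY, hno⟩ := exists_triples (by omega : 13 ≤ n) K h3
  obtain ⟨s, hs, U, U', hU, hU', hUU⟩ := not_homog hn K hK hA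
  obtain ⟨P, hP, φ, ψ, h1, h2⟩ := exists_pair_hom X Y hX hY hXY
  refine ⟨s, 2, ⟨Nat.prime_two⟩, P, hP, φ, ψ, hs, ⟨U, U', hU, hU', hUU⟩, ?_, ?_⟩
  · intro V _
    obtain ⟨a, b, hab, hV⟩ := exists_same_side X V
    obtain ⟨d, e, hde, hV'⟩ := exists_same_side Y V
    obtain ⟨h, hψ, hφ⟩ := h1 a b d e hab hde
    refine ⟨h, hψ, ?_⟩
    apply Finset.eq_of_subset_of_card_le
    · intro w hw
      rw [Finset.mem_image] at hw
      obtain ⟨v, hv, rfl⟩ := hw
      rw [hφ, Perm.mul_apply, swap_mem_iff V _ _ hV, swap_mem_iff V _ _ hV']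
      exact hv
    · rw [Finset.card_image_of_injective _ (φ h : Perm (Fin n)).injective]
  · intro h hh
    by_contra hψ
    obtain ⟨a, b, d, e, hab, hde, hφ⟩ := h2 h hψ
    rw [hφ] at hh
    exact hno a b d e hab hde hh

/-- The trichotomy: every subgroup not containing `A_n` has a switch, or fixes exactly one point
and preserves no other nontrivial set. -/
theorem switch_or {n : ℕ} (hn : 14 ≤ n) (K : Subgroup (Perm (Fin n)))
    (hA : ¬ alternatingGroup (Fin n) ≤ K) :
    Switch K ∨ ∃ i : Fin n, (∀ h ∈ K, h i = i) ∧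
      ∀ D : Finset (Fin n), (∀ h ∈ K, D.image (fun i => h i) = D) → D.card ≤ 1 ∨ n ≤ D.card + 1 := by
  classical
  by_cases htr : IsPretransitive K (Fin n)
  · left
    by_cases hK : IsPreprimitive K (Fin n)
    · exact switch_of_primitive hn K hK hA
    · exact switch_of_imprimitive hn K htr hK
  · by_cases hD : ∃ D : Finset (Fin n), (∀ h ∈ K, D.image (fun i => h i) = D) ∧
        2 ≤ D.card ∧ D.card + 2 ≤ n
    · obtain ⟨D, h1, h2, h3⟩ := hD
      exact Or.inl (switch_of_invariant hn K D h2 h3 h1)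
    · right
      have hall : ∀ D : Finset (Fin n), (∀ h ∈ K, D.image (fun i => h i) = D) →
          D.card ≤ 1 ∨ n ≤ D.card + 1 := by
        intro D h1
        by_contra hcon
        push Not at hcon
        exact hD ⟨D, h1, by omega, by omega⟩
      -- an orbit
      have h0 : ∃ x y : Fin n, ∀ g : K, g • x ≠ y := by
        by_contra hcon
        push Not at hcon
        exact htr ⟨hcon⟩
      obtain ⟨x, y, hxy⟩ := h0
      let D : Finset (Fin n) := Finset.univ.filter (fun w => ∃ g ∈ K, g x = w)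
      have hDm : ∀ w, w ∈ D ↔ ∃ g ∈ K, g x = w := by
        intro w
        simp [D]
      have hDinv : ∀ h ∈ K, D.image (fun i => h i) = D := by
        intro h hh
        apply Finset.eq_of_subset_of_card_le
        · intro w hw
          rw [Finset.mem_image] at hw
          obtain ⟨v, hv, rfl⟩ := hw
          rw [hDm] at hv ⊢
          obtain ⟨g, hg, rfl⟩ := hv
          exact ⟨h * g, K.mul_mem hh hg, by rw [Perm.mul_apply]⟩
        · rw [Finset.card_image_of_injective _ h.injective]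
      have hDc : ∀ h ∈ K, Dᶜ.image (fun i => h i) = Dᶜ := by
        intro h hh
        apply Finset.eq_of_subset_of_card_le
        · intro w hw
          rw [Finset.mem_image] at hw
          obtain ⟨v, hv, rfl⟩ := hw
          rw [Finset.mem_compl] at hv ⊢
          intro hw
          apply hv
          rw [hDm] at hw ⊢
          obtain ⟨g, hg, e⟩ := hw
          refine ⟨h⁻¹ * g, K.mul_mem (K.inv_mem hh) hg, ?_⟩
          rw [Perm.mul_apply, e]
          simp
        · rw [Finset.card_image_of_injective _ h.injective]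
      have hx : x ∈ D := (hDm x).2 ⟨1, K.one_mem, by simp⟩
      have hy : y ∈ Dᶜ := by
        rw [Finset.mem_compl, hDm]
        rintro ⟨g, hg, e⟩
        exact hxy ⟨g, hg⟩ e
      -- a one-point invariant set
      have hone : ∃ i : Fin n, ∀ h ∈ K, ({i} : Finset (Fin n)).image (fun i => h i) = {i} := by
        rcases hall D hDinv with h | h
        · have : D.card = 1 := le_antisymm h (Finset.card_pos.2 ⟨x, hx⟩)
          obtain ⟨i, hi⟩ := Finset.card_eq_one.1 this
          exact ⟨i, fun h hh => hi ▸ hDinv h hh⟩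
        · have : Dᶜ.card = 1 := by
            have h4 := Finset.card_pos.2 ⟨y, hy⟩
            rw [Finset.card_compl, Fintype.card_fin] at h4 ⊢
            omega
          obtain ⟨i, hi⟩ := Finset.card_eq_one.1 this
          exact ⟨i, fun h hh => hi ▸ hDc h hh⟩
      obtain ⟨i, hi⟩ := hone
      refine ⟨i, ?_, hall⟩
      intro h hh
      have := hi h hh
      rw [Finset.image_singleton, Finset.singleton_inj] at this
      exact this

end Spr43
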