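import Pool.Agent.Lib.MP_43150e_al.Crit
import Pool.Agent.Lib.MP_43150e_al.AutAlt
import Pool.Agent.Lib.MP_43150e_al.SwC

/-! # Case `k = 1`: `M = A_n` -/

set_option autoImplicit false

namespace Spr43

open MulAction Equiv

/-- `A_n` is transitive on the subsets of a given size. -/
theorem alt_homog {n : ℕ} (hn : 14 ≤ n) (U U' : Finset (Fin n)) (h : U.card = U'.card) :
    ∃ a : alternatingGroup (Fin n), U.image (fun i => (a : Perm (Fin n)) i) = U' := by
  classical
  let e : {x // x ∈ U} ≃ {x // x ∈ U'} := Finset.equivOfCardEq h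
  let g : Perm (Fin n) := e.extendSubtype
  have hg : ∀ x, g x ∈ U' ↔ x ∈ U := by
    intro x
    constructor
    · intro hx
      by_contra hxU
      exact e.extendSubtype_not_mem x hxU hx
    · intro hx
      exact e.extendSubtype_mem x hx
  have himg : ∀ g : Perm (Fin n), (∀ x, g x ∈ U' ↔ x ∈ U) → U.image (fun i => g i) = U' := by
    intro g hg
    ext y
    rw [Finset.mem_image]
    constructor
    · rintro ⟨x, hx, rfl⟩
      exact (hg x).2 hx
    · intro hy
      refine ⟨g⁻¹ y, ?_, by simp⟩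
      rw [← hg]
      simpa using hy
  rcases Int.units_eq_one_or (Perm.sign g) with h1 | h1
  · exact ⟨⟨g, h1⟩, himg g hg⟩
  · -- find a transposition preserving `U`
    obtain ⟨a, b, hab, hU⟩ : ∃ a b : Fin n, a ≠ b ∧ (a ∈ U ↔ b ∈ U) := by
      by_cases hc : 1 < U.card
      · obtain ⟨a, ha, b, hb, hab⟩ := Finset.one_lt_card.1 hc
        exact ⟨a, b, hab, iff_of_true ha hb⟩
      · have : 1 < Uᶜ.card := by
          rw [Finset.card_compl, Fintype.card_fin]; omega
        obtain ⟨a, ha, b, hb, hab⟩ := Finset.one_lt_card.1 this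
        exact ⟨a, b, hab, iff_of_false (Finset.mem_compl.1 ha) (Finset.mem_compl.1 hb)⟩
    refine ⟨⟨g * swap a b, by simp [h1, hab]⟩, himg _ ?_⟩
    intro x
    rw [Perm.mul_apply, hg]
    rcases eq_or_ne x a with rfl | hxa
    · rw [swap_apply_left]; exact hU.symm
    · rcases eq_or_ne x b with rfl | hxb
      · rw [swap_apply_right]; exact hU
      · rw [swap_apply_of_ne_of_ne hxa hxb]

/-- A switch for the point stabiliser kills spreading. -/
theorem not_spreading_of_switch {Γ Ω : Type*} {n : ℕ} (hn : 14 ≤ n) [Group Γ] [MulAction Γ Ω]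
    [Fintype Ω] [DecidableEq Ω] (j : alternatingGroup (Fin n) →* Γ)
    (hj : ∀ g : Γ, ∃ β : alternatingGroup (Fin n) ≃* alternatingGroup (Fin n),
      ∀ m, j (β m) = g * j m * g⁻¹)
    (x : Ω) (K : Subgroup (Perm (Fin n)))
    (hK : ∀ m : alternatingGroup (Fin n), j m • x = x → (m : Perm (Fin n)) ∈ K)
    (hsw : Switch K) : ¬ IsSpreading Γ Ω := by
  classical
  obtain ⟨s, p, hp, P, hP, φ, ψ, hs, ⟨U, U', hU, hU', hUU⟩, hcov, hkill⟩ := hsw
  -- the stabiliser of `U` in `A_n`
  let H : Subgroup (alternatingGroup (Fin n)) :=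
    { carrier := {m | ∀ i, (m : Perm (Fin n)) i ∈ U ↔ i ∈ U}
      mul_mem' := by
        intro a b ha hb i
        simp only [Set.mem_ofPred_eq] at ha hb
        rw [Subgroup.coe_mul, Perm.mul_apply, ha, hb]
      one_mem' := by
        intro i
        simp
      inv_mem' := by
        intro a ha i
        simp only [Set.mem_ofPred_eq] at ha
        rw [← ha, Subgroup.coe_inv]
        simp }
  have hH : ∀ m : alternatingGroup (Fin n), m ∈ H ↔ ∀ i, (m : Perm (Fin n)) i ∈ U ↔ i ∈ U :=
    fun _ => Iff.rfl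
  refine criterionQ j hj p φ ψ H x ?_ ?_ ?_
  · intro β
    obtain ⟨σ, hσ⟩ := autAlt hn β
    obtain ⟨h, h1, h2⟩ := hcov (U.image (fun i => σ⁻¹ i)) (by
      rw [Finset.card_image_of_injective _ (σ⁻¹).injective, hU])
    refine ⟨h, h1, ?_⟩
    rw [hH]
    have key : ∀ i, (φ h : Perm (Fin n)) (σ⁻¹ i) ∈ U.image (fun i => σ⁻¹ i) ↔
        σ⁻¹ i ∈ U.image (fun i => σ⁻¹ i) := by
      intro i
      constructor
      · intro hi
        rw [← h2, Finset.mem_image] at hi
        obtain ⟨w, hw, hw'⟩ := hi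
        have := (φ h : Perm (Fin n)).injective hw'
        rwa [← this]
      · intro hi
        rw [← h2]
        exact Finset.mem_image_of_mem _ hi
    have key2 : ∀ w, w ∈ U.image (fun i => σ⁻¹ i) ↔ σ w ∈ U := by
      intro w
      rw [Finset.mem_image]
      constructor
      · rintro ⟨v, hv, rfl⟩
        simpa using hv
      · intro hw
        exact ⟨σ w, hw, by simp⟩
    intro i
    rw [hσ, Perm.mul_apply, Perm.mul_apply, ← key2, key, key2]
    simp
  · obtain ⟨a, ha⟩ := alt_homog hn U' U (by rw [hU, hU'])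
    refine ⟨j a • x, x, ?_⟩
    intro h hh e
    rw [← mul_smul, ← map_mul] at e
    have h1 := hK _ e
    apply hUU _ (K.inv_mem h1)
    rw [hH] at hh
    have h2 : U'.image (fun i => ((h * a : alternatingGroup (Fin n)) : Perm (Fin n)) i) = U := by
      have : (fun i => ((h * a : alternatingGroup (Fin n)) : Perm (Fin n)) i) =
          (fun i => (h : Perm (Fin n)) i) ∘ (fun i => (a : Perm (Fin n)) i) := by
        funext i
        simp [Subgroup.coe_mul, Perm.mul_apply]
      rw [this, ← Finset.image_image, ha]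
      ext y
      rw [Finset.mem_image]
      constructor
      · rintro ⟨w, hw, rfl⟩
        exact (hh w).2 hw
      · intro hy
        refine ⟨(h : Perm (Fin n))⁻¹ y, ?_, by simp⟩
        rw [← hh]
        simpa using hy
    rw [← h2, Finset.image_image]
    ext y
    rw [Finset.mem_image]
    constructor
    · rintro ⟨w, hw, rfl⟩
      simpa using hw
    · intro hy
      exact ⟨y, hy, by simp⟩
  · intro h hh
    exact hkill h (hK _ hh)

/-- `A_n` moves any two distinct points to any two distinct points. -/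
theorem alt_two_transitive {n : ℕ} (hn : 14 ≤ n) (a b c d : Fin n) (hab : a ≠ b) (hcd : c ≠ d) :
    ∃ m : alternatingGroup (Fin n), (m : Perm (Fin n)) a = c ∧ (m : Perm (Fin n)) b = d := by
  have h1 := alternatingGroup.isMultiplyPretransitive (Fin n)
  have hcard : Nat.card (Fin n) = n := by simp
  have h2 : IsMultiplyPretransitive (alternatingGroup (Fin n)) (Fin n) 2 :=
    isMultiplyPretransitive_of_le (n := Nat.card (Fin n) - 2) (by omega) (Nat.sub_le _ _)
  rw [is_two_pretransitive_iff] at h2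
  exact h2 hab hcd

/-- The remaining case: the point stabiliser in `M = A_n` fixes exactly one of the `n` points. -/
theorem two_transitive_of_fixed {Γ Ω : Type*} {n : ℕ} (hn : 14 ≤ n) [Group Γ] [MulAction Γ Ω]
    [Fintype Ω] [DecidableEq Ω] (hprim : IsPreprimitive Γ Ω) (j : alternatingGroup (Fin n) →* Γ)
    (hj : ∀ g : Γ, ∃ β : alternatingGroup (Fin n) ≃* alternatingGroup (Fin n),
      ∀ m, j (β m) = g * j m * g⁻¹)
    (htr : ∀ x y : Ω, ∃ m : alternatingGroup (Fin n), j m • x = y)
    (x : Ω) (i : Fin n) (hi : ∀ m : alternatingGroup (Fin n), j m • x = x → (m : Perm (Fin n)) i = i)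
    (hD : ∀ D : Finset (Fin n), (∀ m : alternatingGroup (Fin n), j m • x = x →
      D.image (fun i => (m : Perm (Fin n)) i) = D) → D.card ≤ 1 ∨ n ≤ D.card + 1) :
    ∀ y z y' z' : Ω, y ≠ z → y' ≠ z' →
      ∃ m : alternatingGroup (Fin n), j m • y = y' ∧ j m • z = z' := by
  classical
  -- automorphisms given by elements of the point stabiliser fix `i`
  have hfix : ∀ g : Γ, g • x = x → ∃ β : alternatingGroup (Fin n) ≃* alternatingGroup (Fin n),
      (∀ m, j (β m) = g * j m * g⁻¹) ∧
      ∀ m : alternatingGroup (Fin n),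
        ((m : Perm (Fin n)) i = i ↔ ((β m : alternatingGroup (Fin n)) : Perm (Fin n)) i = i) := by
    intro g hg
    obtain ⟨β, hβ⟩ := hj g
    obtain ⟨σ, hσ⟩ := autAlt hn β
    have hgi : g⁻¹ • x = x := by rw [inv_smul_eq_iff, hg]
    have hβx : ∀ m, j (β m) • x = x ↔ j m • x = x := by
      intro m
      rw [hβ, mul_smul, mul_smul, hgi]
      constructor
      · intro h
        have := congrArg (fun w => g⁻¹ • w) h
        simpa [hgi] using this
      · intro h
        rw [h, hg]
    have hσi : ∀ m : alternatingGroup (Fin n), j m • x = x → (m : Perm (Fin n)) (σ i) = σ i := by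
      intro m hm
      obtain ⟨m', rfl⟩ := β.surjective m
      have h1 := hi m' ((hβx m').1 hm)
      rw [hσ, Perm.mul_apply, Perm.mul_apply]
      simp [h1]
    have hσ1 : σ i = i := by
      by_contra hne
      have := hD {i, σ i} (by
        intro m hm
        rw [Finset.image_insert, Finset.image_singleton, hi m hm, hσi m hm])
      rw [Finset.card_pair (Ne.symm hne)] at this
      omega
    refine ⟨β, hβ, ?_⟩
    intro m
    have hσ2 : σ⁻¹ i = i := by rw [Perm.inv_eq_iff_eq, hσ1]
    rw [hσ, Perm.mul_apply, Perm.mul_apply, hσ2]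
    constructor
    · intro h
      rw [h, hσ1]
    · intro h
      apply σ.injective
      rw [h, hσ1]
  -- the block
  let B : Set Ω := {y | ∃ m : alternatingGroup (Fin n), (m : Perm (Fin n)) i = i ∧ j m • x = y}
  have hxB : x ∈ B := ⟨1, by simp, by simp⟩
  have hBst : ∀ m : alternatingGroup (Fin n), (m : Perm (Fin n)) i = i → ∀ y ∈ B, j m • y ∈ B := by
    rintro m hm _ ⟨m', hm', rfl⟩
    refine ⟨m * m', ?_, by rw [map_mul, mul_smul]⟩
    rw [Subgroup.coe_mul, Perm.mul_apply, hm', hm]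
  have hBst2 : ∀ g : Γ, g • x = x → ∀ y ∈ B, g • y ∈ B := by
    rintro g hg _ ⟨m, hm, rfl⟩
    obtain ⟨β, hβ, hβi⟩ := hfix g hg
    refine ⟨β m, (hβi m).1 hm, ?_⟩
    have hgi : g⁻¹ • x = x := by rw [inv_smul_eq_iff, hg]
    rw [hβ, mul_smul, mul_smul, hgi]
  have hinv : ∀ m : alternatingGroup (Fin n), (m : Perm (Fin n)) i = i →
      ((m⁻¹ : alternatingGroup (Fin n)) : Perm (Fin n)) i = i := by
    intro m hm
    rw [Subgroup.coe_inv, Perm.inv_eq_iff_eq, hm]
  have hBg : ∀ g : Γ, ∀ y ∈ B, g • y ∈ B → ∀ w ∈ B, g • w ∈ B := by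
    rintro g _ ⟨m, hm, rfl⟩ ⟨m', hm', e⟩ w hw
    -- g' = j(m')⁻¹ g j(m) fixes x
    have h1 : (j m'⁻¹ * g * j m) • x = x := by
      rw [mul_smul, mul_smul, ← e, ← mul_smul, ← map_mul]
      simp
    have h2 : g = j m' * (j m'⁻¹ * g * j m) * j m⁻¹ := by
      simp [mul_assoc]
    rw [h2, mul_smul, mul_smul]
    exact hBst m' hm' _ (hBst2 _ h1 _ (hBst _ (hinv m hm) _ hw))
  have hBlock : IsBlock Γ B := by
    rw [isBlock_iff_smul_eq_of_nonempty]
    intro g hg
    obtain ⟨y, hy, hyB⟩ := hg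
    rw [Set.mem_smul_set] at hy
    obtain ⟨w, hw, rfl⟩ := hy
    have h1 : ∀ v ∈ B, g • v ∈ B := hBg g w hw hyB
    have h2 : ∀ v ∈ B, g⁻¹ • v ∈ B := hBg g⁻¹ (g • w) hyB (by rwa [inv_smul_smul])
    ext v
    rw [Set.mem_smul_set]
    constructor
    · rintro ⟨u, hu, rfl⟩
      exact h1 u hu
    · intro hv
      exact ⟨g⁻¹ • v, h2 v hv, by simp⟩
  have hst : ∀ m : alternatingGroup (Fin n), (m : Perm (Fin n)) i = i → j m • x = x := by
    rcases hprim.isTrivialBlock_of_isBlock hBlock with h | h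
    · intro m hm
      exact h ⟨m, hm, rfl⟩ hxB
    · exfalso
      obtain ⟨k, hk⟩ : ∃ k : Fin n, k ≠ i := by
        have : Nontrivial (Fin n) := Fin.nontrivial_iff_two_le.mpr (by omega)
        exact exists_ne i
      obtain ⟨m, hm, _⟩ := alt_two_transitive hn i k k i (Ne.symm hk) hk
      have hmB : j m • x ∈ B := by rw [h]; trivial
      obtain ⟨m', hm', e⟩ := hmB
      have h3 : j (m'⁻¹ * m) • x = x := by
        rw [map_mul, mul_smul, ← e, ← mul_smul, ← map_mul]
        simp
      have h4 := hi _ h3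
      rw [Subgroup.coe_mul, Perm.mul_apply, hm, Subgroup.coe_inv, Perm.inv_eq_iff_eq, hm'] at h4
      exact hk h4
  -- the equivariant bijection
  choose a ha using fun y => htr x y
  have hiff : ∀ (m : alternatingGroup (Fin n)) (y y' : Ω),
      j m • y = y' ↔ (m : Perm (Fin n)) ((a y : Perm (Fin n)) i) = (a y' : Perm (Fin n)) i := by
    intro m y y'
    have h1 : j m • y = y' ↔ j ((a y')⁻¹ * m * a y) • x = x := by
      rw [map_mul, map_mul, mul_smul, mul_smul, ha y, map_inv, inv_smul_eq_iff, ha y']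
    have h2 : (((a y')⁻¹ * m * a y : alternatingGroup (Fin n)) : Perm (Fin n)) i = i ↔
        (m : Perm (Fin n)) ((a y : Perm (Fin n)) i) = (a y' : Perm (Fin n)) i := by
      rw [Subgroup.coe_mul, Subgroup.coe_mul, Perm.mul_apply, Perm.mul_apply, Subgroup.coe_inv,
        Perm.inv_eq_iff_eq]
      
    rw [h1, ← h2]
    exact ⟨hi _, hst _⟩
  have hinj : ∀ y z, y ≠ z → (a y : Perm (Fin n)) i ≠ (a z : Perm (Fin n)) i := by
    intro y z hyz e
    apply hyz
    have := (hiff 1 y z).2 (by simpa using e)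
    simpa using this
  intro y z y' z' hyz hyz'
  obtain ⟨m, h1, h2⟩ := alt_two_transitive hn _ _ _ _ (hinj y z hyz) (hinj y' z' hyz')
  exact ⟨m, (hiff _ _ _).2 h1, (hiff _ _ _).2 h2⟩

theorem caseOne {Γ Ω : Type*} {n : ℕ} (hn : 14 ≤ n) [Group Γ] [MulAction Γ Ω]
    [Fintype Ω] [DecidableEq Ω] (hprim : IsPreprimitive Γ Ω) (j : alternatingGroup (Fin n) →* Γ)
    (hj : ∀ g : Γ, ∃ β : alternatingGroup (Fin n) ≃* alternatingGroup (Fin n),
      ∀ m, j (β m) = g * j m * g⁻¹)
    (htr : ∀ x y : Ω, ∃ m : alternatingGroup (Fin n), j m • x = y)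
    (x : Ω) (hx : ∃ y : Ω, y ≠ x) (hsp : IsSpreading Γ Ω) :
    ∀ y z y' z' : Ω, y ≠ z → y' ≠ z' →
      ∃ m : alternatingGroup (Fin n), j m • y = y' ∧ j m • z = z' := by
  classical
  let K₀ : Subgroup (alternatingGroup (Fin n)) := (stabilizer Γ x).comap j
  have hK₀ : ∀ m, m ∈ K₀ ↔ j m • x = x := by
    intro m
    rw [Subgroup.mem_comap, mem_stabilizer_iff]
  let K : Subgroup (Perm (Fin n)) := K₀.map (alternatingGroup (Fin n)).subtype
  have hK : ∀ m : alternatingGroup (Fin n), (m : Perm (Fin n)) ∈ K ↔ j m • x = x := by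
    intro m
    rw [← hK₀]
    constructor
    · rintro ⟨m', hm', e⟩
      have : m' = m := Subtype.ext e
      rwa [← this]
    · intro hm
      exact ⟨m, hm, rfl⟩
  have hA : ¬ alternatingGroup (Fin n) ≤ K := by
    intro hle
    obtain ⟨y, hy⟩ := hx
    obtain ⟨m, hm⟩ := htr x y
    exact hy (by rw [← hm, (hK m).1 (hle m.2)])
  rcases switch_or hn K hA with hsw | ⟨i, hi, hD⟩
  · exact absurd hsp (not_spreading_of_switch hn j hj x K (fun m hm => (hK m).2 hm) hsw)
  · refine two_transitive_of_fixed hn hprim j hj htr x i (fun m hm => hi _ ((hK m).2 hm)) ?_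
    intro D hDm
    apply hD
    rintro h ⟨m, hm, rfl⟩
    exact hDm m ((hK₀ m).1 hm)

end Spr43
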