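import Pool.Agent.Lib.MP_43150e_al.Defs

/-! # The weight certificate for non-spreading

`W : Ω → ℕ` with total sum `|Ω|`, not constant one, whose sum over every translate of the proper
nonempty set `A` is at most `|A|`: take `t` with `|t⁻¹(y)| = W y`. -/

set_option autoImplicit false

namespace Spr43

/-- A function with natural values and sum `|Ω|` is the fibre-size function of a self map. -/
theorem exists_map_of_weight {Ω : Type*} [Fintype Ω] [DecidableEq Ω] (W : Ω → ℕ)
    (hs : ∑ x, W x = Fintype.card Ω) :
    ∃ t : Ω → Ω, ∀ y, (Finset.univ.filter (fun x => t x = y)).card = W y := by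
  have hc : Fintype.card Ω = Fintype.card (Σ y : Ω, Fin (W y)) := by
    rw [Fintype.card_sigma]; simp [hs]
  let e : Ω ≃ Σ y : Ω, Fin (W y) := Fintype.equivOfCardEq hc
  refine ⟨fun x => (e x).1, fun y => ?_⟩
  have h1 : (Finset.univ.filter (fun x => (e x).1 = y)).card =
      (Finset.univ.filter (fun z : Σ y : Ω, Fin (W y) => z.1 = y)).card := by
    apply Finset.card_bij (fun x _ => e x)
    · intro x hx
      simpa using hx
    · intro x _ x' _ h
      exact e.injective h
    · intro z hz
      refine ⟨e.symm z, ?_, by simp⟩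
      simpa using hz
  rw [h1]
  have h2 : (Finset.univ.filter (fun z : Σ y : Ω, Fin (W y) => z.1 = y)) =
      (Finset.univ : Finset (Fin (W y))).map
        ⟨fun i => (⟨y, i⟩ : Σ y : Ω, Fin (W y)), fun a b h => by simpa using h⟩ := by
    ext ⟨a, i⟩
    simp only [Finset.mem_filter, Finset.mem_univ, true_and, Finset.mem_map,
      Function.Embedding.coeFn_mk]
    constructor
    · rintro rfl
      exact ⟨i, rfl⟩
    · rintro ⟨b, hb⟩
      exact (congrArg Sigma.fst hb).symm
  rw [h2, Finset.card_map]
  simp

theorem not_spreading_of_weight {Γ Ω : Type*} [Group Γ] [MulAction Γ Ω] [Fintype Ω]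
    [DecidableEq Ω] (A : Finset Ω) (hA : A.Nonempty) (hA' : A ≠ Finset.univ) (W : Ω → ℕ)
    (hs : ∑ x, W x = Fintype.card Ω) (hW : ∃ x, W x ≠ 1)
    (h : ∀ g : Γ, ∑ y ∈ A.image (fun y => g • y), W y ≤ A.card) :
    ¬ IsSpreading Γ Ω := by
  intro hsp
  obtain ⟨t, ht⟩ := exists_map_of_weight W hs
  have hnb : ¬ Function.Bijective t := by
    intro hb
    obtain ⟨x, hx⟩ := hW
    apply hx
    rw [← ht x]
    obtain ⟨y, hy⟩ := hb.2 x
    rw [Finset.card_eq_one]
    refine ⟨y, ?_⟩
    ext z
    simp only [Finset.mem_filter, Finset.mem_univ, true_and, Finset.mem_singleton]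
    constructor
    · intro hz
      exact hb.1 (hz.trans hy.symm)
    · rintro rfl
      exact hy
  obtain ⟨g, hg⟩ := hsp A hA hA' t hnb
  have h1 : (Finset.univ.filter (fun x => t x ∈ A.image (fun y => g • y))).card =
      ∑ y ∈ A.image (fun y => g • y), W y := by
    rw [Finset.card_eq_sum_card_fiberwise (f := t) (t := A.image (fun y => g • y))]
    · apply Finset.sum_congr rfl
      intro y hy
      rw [← ht y, Finset.filter_filter]
      congr 1
      ext x
      simp only [Finset.mem_filter, Finset.mem_univ, true_and]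
      constructor
      · rintro ⟨_, h2⟩
        exact h2
      · intro h2
        exact ⟨h2 ▸ hy, h2⟩
    · intro x hx
      simpa using hx
  have h2 := h g
  omega

end Spr43
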