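import Pool.Agent.Lib.MP_43150e_al.Cert

/-! # The criterion

`P` a group, `φ : P → Γ`, `ψ : P → C_p`, `H ≤ Γ` such that every conjugate of `H` contains some
`φ h` with `ψ h ≠ 1`; `H` is intransitive; `φ h` fixes `x` only if `ψ h = 1`. Then not spreading:
`A` = an `H`-orbit, `W = p` on `{φ h x : ψ h = 1}`, `0` on the rest of the `P`-orbit of `x`, `1`
elsewhere. -/

set_option autoImplicit false

namespace Spr43

open Classical in
/-- The weight function of the criterion. -/
noncomputable def critW {Γ Ω P : Type*} [Group Γ] [MulAction Γ Ω] [Group P] {C : Type*} [Group C]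
    (p : ℕ) (φ : P →* Γ) (ψ : P →* C) (x : Ω) (y : Ω) : ℕ :=
  (if ∃ h : P, ψ h = 1 ∧ φ h • x = y then p else 0) +
    (if ∃ h : P, φ h • x = y then 0 else 1)

open Classical in
theorem sum_critW {Γ Ω P : Type*} [Group Γ] [MulAction Γ Ω] [Fintype Ω]
    [Group P] (p : ℕ) [Fact p.Prime] (φ : P →* Γ) (ψ : P →* Multiplicative (ZMod p)) (x : Ω)
    (hiii : ∀ h : P, φ h • x = x → ψ h = 1) (A : Finset Ω) (h₀ : P) (h1 : ψ h₀ ≠ 1)
    (hA : ∀ y ∈ A, φ h₀ • y ∈ A) : ∑ y ∈ A, critW p φ ψ x y = A.card := by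
  set L : Multiplicative (ZMod p) → Finset Ω :=
    fun c => A.filter (fun y => ∃ h : P, ψ h = c ∧ φ h • x = y) with hL
  -- the label is well defined
  have hlab : ∀ h h' : P, φ h • x = φ h' • x → ψ h = ψ h' := by
    intro h h' e
    have : φ (h⁻¹ * h') • x = x := by
      rw [map_mul, mul_smul, ← e, ← mul_smul, ← map_mul]; simp
    have := hiii _ this
    rw [map_mul, map_inv] at this
    exact inv_mul_eq_one.1 this
  have hdisj : ∀ c ∈ (Finset.univ : Finset (Multiplicative (ZMod p))),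
      ∀ c' ∈ (Finset.univ : Finset (Multiplicative (ZMod p))), c ≠ c' → Disjoint (L c) (L c') := by
    intro c _ c' _ hcc
    rw [Finset.disjoint_left]
    intro y hy hy'
    simp only [hL, Finset.mem_filter] at hy hy'
    obtain ⟨_, h, rfl, e⟩ := hy
    obtain ⟨_, h', rfl, e'⟩ := hy'
    exact hcc (hlab _ _ (e.trans e'.symm))
  have hle : ∀ c, (L c).card ≤ (L (ψ h₀ * c)).card := by
    intro c
    apply Finset.card_le_card_of_injOn (fun y => φ h₀ • y)
    · intro y hy
      simp only [hL, Finset.coe_filter, Set.mem_ofPred_eq] at hy ⊢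
      obtain ⟨hyA, h, rfl, e⟩ := hy
      refine ⟨hA y hyA, h₀ * h, by rw [map_mul], ?_⟩
      rw [map_mul, mul_smul, e]
    · intro y _ y' _ e
      exact MulAction.injective _ e
  have hlek : ∀ k : ℕ, ∀ c, (L c).card ≤ (L (ψ h₀ ^ k * c)).card := by
    intro k
    induction k with
    | zero => intro c; simp
    | succ k ih =>
      intro c
      refine (ih c).trans ((hle _).trans ?_)
      rw [← mul_assoc, ← pow_succ']
  have hgen : ∀ c : Multiplicative (ZMod p), ∃ k : ℕ, ψ h₀ ^ k = c := by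
    intro c
    have hcard : Nat.card (Multiplicative (ZMod p)) = p := by
      simp
    have hz : Subgroup.zpowers (ψ h₀) = ⊤ := zpowers_eq_top_of_prime_card hcard h1
    have hc : c ∈ Subgroup.zpowers (ψ h₀) := by rw [hz]; trivial
    have hc' := (mem_powers_iff_mem_zpowers (x := ψ h₀) (y := c)).2 hc
    obtain ⟨k, hk⟩ := hc'
    exact ⟨k, hk⟩
  have hconst : ∀ c, (L c).card = (L 1).card := by
    intro c
    apply le_antisymm
    · obtain ⟨k, hk⟩ := hgen c⁻¹
      have := hlek k c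
      rwa [hk, inv_mul_cancel] at this
    · obtain ⟨k, hk⟩ := hgen c
      have := hlek k 1
      rwa [hk, mul_one] at this
  have hunion : A.filter (fun y => ∃ h : P, φ h • x = y) = Finset.univ.biUnion L := by
    ext y
    simp only [hL, Finset.mem_filter, Finset.mem_biUnion, Finset.mem_univ, true_and]
    constructor
    · rintro ⟨hy, h, e⟩
      exact ⟨ψ h, hy, h, rfl, e⟩
    · rintro ⟨c, hy, h, _, e⟩
      exact ⟨hy, h, e⟩
  have hcardO : (A.filter (fun y => ∃ h : P, φ h • x = y)).card = p * (L 1).card := by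
    rw [hunion, Finset.card_biUnion hdisj, Finset.sum_congr rfl (fun c _ => hconst c)]
    simp
  have hsplit := Finset.card_filter_add_card_filter_not (s := A) (fun y => ∃ h : P, φ h • x = y)
  have e1 : ∑ y ∈ A, (if ∃ h : P, ψ h = 1 ∧ φ h • x = y then p else 0) = p * (L 1).card := by
    rw [← Finset.sum_filter, Finset.sum_const, smul_eq_mul, mul_comm]
  have e2 : ∑ y ∈ A, (if ∃ h : P, φ h • x = y then 0 else 1) =
      (A.filter (fun y => ¬ ∃ h : P, φ h • x = y)).card := by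
    rw [Finset.card_filter]
    apply Finset.sum_congr rfl
    intro y _
    by_cases hy : ∃ h : P, φ h • x = y
    · simp only [hy, if_true, not_true, if_false]
    · simp only [hy, if_false, not_false_eq_true, if_true]
  unfold critW
  rw [Finset.sum_add_distrib, e1, e2, ← hcardO, hsplit]

theorem criterion {Γ Ω P : Type*} [Group Γ] [MulAction Γ Ω] [Fintype Ω] [DecidableEq Ω]
    [Group P] (p : ℕ) [Fact p.Prime] (φ : P →* Γ) (ψ : P →* Multiplicative (ZMod p))
    (H : Subgroup Γ) (x : Ω)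
    (hi : ∀ g : Γ, ∃ h : P, ψ h ≠ 1 ∧ g⁻¹ * φ h * g ∈ H)
    (hii : ∃ y z : Ω, ∀ h ∈ H, h • y ≠ z)
    (hiii : ∀ h : P, φ h • x = x → ψ h = 1) :
    ¬ IsSpreading Γ Ω := by
  classical
  obtain ⟨y, z, hyz⟩ := hii
  let A : Finset Ω := Finset.univ.filter (fun w => ∃ h ∈ H, h • y = w)
  have hAy : y ∈ A := by
    simp only [A, Finset.mem_filter, Finset.mem_univ, true_and]
    exact ⟨1, H.one_mem, one_smul _ _⟩
  have hAz : z ∉ A := by
    simp only [A, Finset.mem_filter, Finset.mem_univ, true_and]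
    rintro ⟨h, hh, e⟩
    exact hyz h hh e
  have hAH : ∀ w ∈ A, ∀ h ∈ H, h • w ∈ A := by
    intro w hw h hh
    simp only [A, Finset.mem_filter, Finset.mem_univ, true_and] at hw ⊢
    obtain ⟨h', hh', rfl⟩ := hw
    exact ⟨h * h', H.mul_mem hh hh', by rw [mul_smul]⟩
  refine not_spreading_of_weight A ⟨y, hAy⟩ (fun e => hAz (by rw [e]; exact Finset.mem_univ _))
    (critW p φ ψ x) ?_ ?_ ?_
  · obtain ⟨h₀, h1, _⟩ := hi 1
    have := sum_critW p φ ψ x hiii Finset.univ h₀ h1 (fun _ _ => Finset.mem_univ _)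
    rw [this, Finset.card_univ]
  · refine ⟨x, ?_⟩
    have hp := (Fact.out : p.Prime).two_le
    have e1 : ∃ h : P, ψ h = 1 ∧ φ h • x = x := ⟨1, map_one _, by simp⟩
    have e2 : ∃ h : P, φ h • x = x := ⟨1, by simp⟩
    unfold critW
    rw [if_pos e1, if_pos e2]
    omega
  · intro g
    obtain ⟨h₀, h1, hg⟩ := hi g
    have hst : ∀ w ∈ A.image (fun w => g • w), φ h₀ • w ∈ A.image (fun w => g • w) := by
      intro w hw
      rw [Finset.mem_image] at hw ⊢
      obtain ⟨v, hv, rfl⟩ := hw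
      refine ⟨(g⁻¹ * φ h₀ * g) • v, hAH v hv _ hg, ?_⟩
      simp only [← mul_smul]
      congr 1
      group
    rw [sum_critW p φ ψ x hiii _ h₀ h1 hst]
    exact Finset.card_image_le

/-- The same with everything inside a group `Q` mapping onto a normal subgroup of `Γ`. -/
theorem criterionQ {Γ Ω P Q : Type*} [Group Γ] [MulAction Γ Ω] [Fintype Ω] [DecidableEq Ω]
    [Group P] [Group Q] (j : Q →* Γ)
    (hj : ∀ g : Γ, ∃ β : Q ≃* Q, ∀ m, j (β m) = g * j m * g⁻¹)
    (p : ℕ) [Fact p.Prime] (φ : P →* Q) (ψ : P →* Multiplicative (ZMod p))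
    (H : Subgroup Q) (x : Ω)
    (hi : ∀ β : Q ≃* Q, ∃ h : P, ψ h ≠ 1 ∧ β (φ h) ∈ H)
    (hii : ∃ y z : Ω, ∀ h ∈ H, j h • y ≠ z)
    (hiii : ∀ h : P, j (φ h) • x = x → ψ h = 1) :
    ¬ IsSpreading Γ Ω := by
  refine criterion p (j.comp φ) ψ (H.map j) x ?_ ?_ hiii
  · intro g
    obtain ⟨β, hβ⟩ := hj g⁻¹
    obtain ⟨h, h1, h2⟩ := hi β
    refine ⟨h, h1, ?_⟩
    rw [Subgroup.mem_map]
    exact ⟨β (φ h), h2, by rw [hβ]; simp [MonoidHom.comp_apply]⟩
  · obtain ⟨y, z, hyz⟩ := hii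
    refine ⟨y, z, ?_⟩
    intro h hh
    rw [Subgroup.mem_map] at hh
    obtain ⟨h', hh', rfl⟩ := hh
    exact hyz h' hh'

end Spr43
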