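import Mathlib

/-!
# Spreading groups, basic definitions (project SPR, MP_43150e_al)
-/

set_option autoImplicit false

namespace Spr43

/-- A group action on a finite set is spreading: for every nonempty proper set `A` and every
singular (non-bijective) map `t` there is `g` with `|(gA)t⁻¹| > |A|`. -/
def IsSpreading (Γ Ω : Type*) [Group Γ] [MulAction Γ Ω] [Fintype Ω] [DecidableEq Ω] : Prop :=
  ∀ A : Finset Ω, A.Nonempty → A ≠ Finset.univ → ∀ t : Ω → Ω, ¬ Function.Bijective t →
    ∃ g : Γ, A.card < (Finset.univ.filter (fun x => t x ∈ A.image (fun y => g • y))).card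

/-- A group acting on a finite set is QI: the rational permutation module is the direct sum of
the constant functions and one irreducible submodule. -/
def IsQI (Γ Ω : Type*) [Group Γ] [MulAction Γ Ω] : Prop :=
  ∃ V : Submodule ℚ (Ω → ℚ),
    (∀ g : Γ, ∀ f ∈ V, (fun x => f (g • x)) ∈ V) ∧
    IsCompl (Submodule.span ℚ {(fun _ => 1 : Ω → ℚ)}) V ∧
    V ≠ ⊥ ∧
    ∀ W : Submodule ℚ (Ω → ℚ), W ≤ V → (∀ g : Γ, ∀ f ∈ W, (fun x => f (g • x)) ∈ W) →
      W = ⊥ ∨ W = V

/-- A **switch** for a subgroup `K` of `Sym(n)`: a number `s` such that `K` is not transitive on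
the `s`-subsets, and a group `P` with a homomorphism `φ` to the alternating group and a
homomorphism `ψ` to a group of prime order `p` such that every `s`-subset is preserved by some
`φ h` with `ψ h ≠ 1`, and `ψ h = 1` whenever `φ h ∈ K`. -/
def Switch {n : ℕ} (K : Subgroup (Equiv.Perm (Fin n))) : Prop :=
  ∃ (s p : ℕ) (_ : Fact p.Prime) (P : Type) (_ : Group P)
    (φ : P →* alternatingGroup (Fin n)) (ψ : P →* Multiplicative (ZMod p)),
    s ≤ n ∧
    (∃ U U' : Finset (Fin n), U.card = s ∧ U'.card = s ∧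
      ∀ h ∈ K, U.image (fun i => h i) ≠ U') ∧
    (∀ U : Finset (Fin n), U.card = s →
      ∃ h : P, ψ h ≠ 1 ∧ U.image (fun i => (φ h : Equiv.Perm (Fin n)) i) = U) ∧
    (∀ h : P, (φ h : Equiv.Perm (Fin n)) ∈ K → ψ h = 1)

end Spr43
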