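import Pool.Agent.Lib.MP_43150e_al.Defs

/-! # 2-transitive implies QI -/

set_option autoImplicit false

namespace Spr43

theorem isQI_of_two_transitive {Γ Ω : Type*} [Group Γ] [Finite Γ] [MulAction Γ Ω] [Finite Ω]
    (hΩ : Nontrivial Ω)
    (h2 : ∀ y z y' z' : Ω, y ≠ z → y' ≠ z' → ∃ g : Γ, g • y = y' ∧ g • z = z') :
    IsQI Γ Ω := by
  classical
  have : Fintype Γ := Fintype.ofFinite Γ
  have : Fintype Ω := Fintype.ofFinite Ω
  have hN : (Fintype.card Ω : ℚ) ≠ 0 := by
    have : 0 < Fintype.card Ω := Fintype.card_pos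
    positivity
  have hsum1 : ∑ _x : Ω, (1 : ℚ) = Fintype.card Ω := by simp
  let V : Submodule ℚ (Ω → ℚ) := LinearMap.ker (∑ x : Ω, (LinearMap.proj x : (Ω → ℚ) →ₗ[ℚ] ℚ))
  have hV : ∀ f : Ω → ℚ, f ∈ V ↔ ∑ x, f x = 0 := by
    intro f
    rw [LinearMap.mem_ker, LinearMap.sum_apply]
    rfl
  have hsmul : ∀ (g : Γ) (f : Ω → ℚ), ∑ x, f (g • x) = ∑ x, f x := by
    intro g f
    exact Equiv.sum_comp (MulAction.toPerm g) f
  refine ⟨V, ?_, ?_, ?_, ?_⟩
  · intro g f hf
    rw [hV] at hf ⊢
    rw [hsmul g f, hf]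
  · refine ⟨?_, ?_⟩
    · rw [Submodule.disjoint_def]
      intro f hf hfV
      rw [Submodule.mem_span_singleton] at hf
      obtain ⟨c, rfl⟩ := hf
      rw [hV] at hfV
      simp only [Pi.smul_apply, smul_eq_mul, mul_one, Finset.sum_const, Finset.card_univ,
        nsmul_eq_mul] at hfV
      have hc : c = 0 := (mul_eq_zero.1 hfV).resolve_left hN
      rw [hc, zero_smul]
    · rw [codisjoint_iff, eq_top_iff]
      intro f _
      set c : ℚ := (∑ x, f x) / Fintype.card Ω with hc
      have h1 : f = c • (fun _ => 1 : Ω → ℚ) + (f - c • (fun _ => 1 : Ω → ℚ)) := by simp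
      rw [h1]
      refine Submodule.add_mem_sup (Submodule.smul_mem _ _ (Submodule.mem_span_singleton_self _)) ?_
      rw [hV]
      simp only [Pi.sub_apply, Pi.smul_apply, smul_eq_mul, mul_one, Finset.sum_sub_distrib,
        Finset.sum_const, Finset.card_univ, nsmul_eq_mul]
      rw [hc]
      field_simp
      ring
  · obtain ⟨y, z, hyz⟩ := hΩ.exists_pair_ne
    intro hb
    have h1 : (Pi.single y 1 - Pi.single z 1 : Ω → ℚ) ∈ V := by
      rw [hV]
      simp
    rw [hb, Submodule.mem_bot] at h1
    have h3 := congrFun h1 y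
    simp [Pi.single_eq_of_ne hyz] at h3
  · intro W hWV hinv
    by_cases hW : W = ⊥
    · exact Or.inl hW
    right
    apply le_antisymm hWV
    obtain ⟨f, hf, hf0⟩ := Submodule.exists_mem_ne_zero_of_ne_bot hW
    obtain ⟨x, hx⟩ : ∃ x, f x ≠ 0 := by
      by_contra hcon
      push Not at hcon
      exact hf0 (funext hcon)
    let F : Ω → ℚ := ∑ g ∈ Finset.univ.filter (fun g : Γ => g • x = x), (fun y => f (g • y))
    have hF : F ∈ W := Submodule.sum_mem _ (fun g _ => hinv g f hf)
    have hFy : ∀ y, F y = ∑ g ∈ Finset.univ.filter (fun g : Γ => g • x = x), f (g • y) := by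
      intro y
      simp only [F, Finset.sum_apply]
    have hFconst : ∀ y z, y ≠ x → z ≠ x → F y = F z := by
      intro y z hy hz
      obtain ⟨h, h1, h2⟩ := h2 x y x z (Ne.symm hy) (Ne.symm hz)
      rw [hFy, hFy]
      symm
      apply Finset.sum_nbij' (fun g => g * h) (fun g => g * h⁻¹)
      · intro g hg
        simp only [Finset.mem_filter, Finset.mem_univ, true_and] at hg ⊢
        rw [mul_smul, h1, hg]
      · intro g hg
        simp only [Finset.mem_filter, Finset.mem_univ, true_and] at hg ⊢
        rw [mul_smul, inv_smul_eq_iff.2 h1.symm, hg]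
      · intro g _
        simp
      · intro g _
        simp
      · intro g _
        rw [← h2, mul_smul]
    have hFx : F x ≠ 0 := by
      rw [hFy]
      have : ∑ g ∈ Finset.univ.filter (fun g : Γ => g • x = x), f (g • x) =
          ∑ g ∈ Finset.univ.filter (fun g : Γ => g • x = x), f x := by
        apply Finset.sum_congr rfl
        intro g hg
        rw [(Finset.mem_filter.1 hg).2]
      rw [this, Finset.sum_const, nsmul_eq_mul]
      apply mul_ne_zero _ hx
      have : 0 < (Finset.univ.filter (fun g : Γ => g • x = x)).card :=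
        Finset.card_pos.2 ⟨1, by simp⟩
      positivity
    -- a point different from `x`
    obtain ⟨z, hz⟩ := exists_ne x
    set a := F x with ha
    set b := F z with hb
    have hFeq : F = (a - b) • (Pi.single x 1 : Ω → ℚ) + b • (fun _ => 1 : Ω → ℚ) := by
      funext y
      rcases eq_or_ne y x with rfl | hy
      · simp [ha]
      · simp [Pi.single_eq_of_ne hy, hFconst y z hy hz, hb]
    have hsumF : (a - b) + b * Fintype.card Ω = 0 := by
      have h1 := (hV F).1 (hWV hF)
      rw [hFeq] at h1
      simp only [Pi.add_apply, Pi.smul_apply, smul_eq_mul, mul_one, Finset.sum_add_distrib,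
        Finset.sum_const, Finset.card_univ, nsmul_eq_mul, ← Finset.mul_sum] at h1
      simp at h1
      linarith
    have hab : a - b ≠ 0 := by
      intro h0
      rw [h0, zero_add] at hsumF
      have hb0 : b = 0 := (mul_eq_zero.1 hsumF).resolve_right hN
      apply hFx
      rw [hb0] at h0
      linarith
    -- the basic vector
    have hδx : (Pi.single x 1 : Ω → ℚ) - (1 / (Fintype.card Ω : ℚ)) • (fun _ => 1 : Ω → ℚ) ∈ W := by
      have h1 : (Pi.single x 1 : Ω → ℚ) - (1 / (Fintype.card Ω : ℚ)) • (fun _ => 1 : Ω → ℚ) =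
          (1 / (a - b)) • F := by
        rw [hFeq, smul_add, smul_smul, smul_smul, one_div_mul_cancel hab, one_smul]
        rw [sub_eq_add_neg, ← neg_smul]
        congr 2
        field_simp
        linarith
      rw [h1]
      exact Submodule.smul_mem _ _ hF
    have hδ : ∀ y, (Pi.single y 1 : Ω → ℚ) - (1 / (Fintype.card Ω : ℚ)) • (fun _ => 1 : Ω → ℚ)
        ∈ W := by
      intro y
      obtain ⟨g, hg⟩ : ∃ g : Γ, g • y = x := by
        rcases eq_or_ne y x with rfl | hy
        · exact ⟨1, one_smul _ _⟩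
        · obtain ⟨g, h1, _⟩ := h2 y x x y hy (Ne.symm hy)
          exact ⟨g, h1⟩
      have h1 := hinv g _ hδx
      have h3 : (fun w => ((Pi.single x 1 : Ω → ℚ) -
          (1 / (Fintype.card Ω : ℚ)) • (fun _ => 1 : Ω → ℚ)) (g • w)) =
          (Pi.single y 1 : Ω → ℚ) - (1 / (Fintype.card Ω : ℚ)) • (fun _ => 1 : Ω → ℚ) := by
        funext w
        simp only [Pi.sub_apply, Pi.smul_apply, smul_eq_mul, mul_one]
        congr 1
        rcases eq_or_ne w y with rfl | hw
        · rw [hg]; simp
        · rw [Pi.single_eq_of_ne hw, Pi.single_eq_of_ne]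
          intro e
          rw [← hg] at e
          exact hw (MulAction.injective g e)
      rwa [h3] at h1
    intro v hv
    rw [hV] at hv
    have h1 : v = ∑ y, v y • ((Pi.single y 1 : Ω → ℚ) -
        (1 / (Fintype.card Ω : ℚ)) • (fun _ => 1 : Ω → ℚ)) := by
      funext w
      rw [Finset.sum_apply]
      simp only [Pi.smul_apply, Pi.sub_apply, smul_eq_mul, mul_one, mul_sub,
        Finset.sum_sub_distrib, ← Finset.sum_mul, hv]
      simp [Pi.single_apply]
    rw [h1]
    exact Submodule.sum_mem _ (fun y _ => Submodule.smul_mem _ _ (hδ y))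

end Spr43
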