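import Pool.Agent.Lib.MP_43150e_al.Prim
import Pool.Agent.Lib.MP_43150e_al.CaseA
import Pool.Agent.Lib.MP_43150e_al.CaseB
import Pool.Agent.Lib.MP_43150e_al.CaseOne
import Pool.Agent.Lib.MP_43150e_al.TwoTr

/-! # Main theorem of the project -/

set_option autoImplicit false

namespace Spr43

open MulAction

/-- Conjugation by `g ∈ Γ` on a normal subgroup `M ≃ Q` gives an automorphism of `Q`. -/
theorem exists_conj_aut {Γ Q : Type*} [Group Γ] [Group Q] (M : Subgroup Γ) [M.Normal]
    (e : M ≃* Q) (g : Γ) : ∃ β : Q ≃* Q, ∀ m : Q,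
      (M.subtype.comp e.symm.toMonoidHom) (β m) =
        g * (M.subtype.comp e.symm.toMonoidHom) m * g⁻¹ := by
  refine ⟨(e.symm.trans (MulAut.conjNormal g)).trans e, fun m => ?_⟩
  simp [MulAut.conjNormal_apply]

/-- A transitive spreading permutation group with a normal subgroup isomorphic to a positive power
of `A_n`, `n ≥ 14`, is 2-transitive. -/
theorem main_two_transitive {Ω : Type*} [Fintype Ω] [DecidableEq Ω] (hΩ : Nontrivial Ω)
    (G : Subgroup (Equiv.Perm Ω)) (htr : IsPretransitive G Ω) (hsp : IsSpreading G Ω)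
    (M : Subgroup G) [M.Normal] (n k : ℕ) (hn : 14 ≤ n) (hk : 1 ≤ k)
    (e : M ≃* (Fin k → alternatingGroup (Fin n))) :
    ∀ y z y' z' : Ω, y ≠ z → y' ≠ z' → ∃ g : G, g • y = y' ∧ g • z = z' := by
  classical
  have hprim : IsPreprimitive G Ω := preprimitive_of_spreading hsp
  -- the alternating group is simple and not commutative
  have hcard : 5 ≤ Nat.card (Fin n) := by simp; omega
  have hsimple : IsSimpleGroup (alternatingGroup (Fin n)) := alternatingGroup.isSimpleGroup hcard
  have hT : ∃ a b : alternatingGroup (Fin n), a * b ≠ b * a := by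
    by_contra hcon
    push Not at hcon
    have h1 : IsMulCommutative (alternatingGroup (Fin n)) := ⟨⟨hcon⟩⟩
    have h2 := (alternatingGroup.isMulCommutative_iff_card_le_three (α := Fin n)).1 h1
    omega
  -- the homomorphism j
  set j : (Fin k → alternatingGroup (Fin n)) →* G := M.subtype.comp e.symm.toMonoidHom with hj
  have hjconj : ∀ g : G, ∃ β : (Fin k → alternatingGroup (Fin n)) ≃*
      (Fin k → alternatingGroup (Fin n)), ∀ m, j (β m) = g * j m * g⁻¹ :=
    fun g => exists_conj_aut M e g
  have hjinj : Function.Injective j := by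
    intro a b hab
    have : e.symm a = e.symm b := Subtype.ext hab
    exact e.symm.injective this
  have hfaith : ∀ m : Fin k → alternatingGroup (Fin n), (∀ x : Ω, j m • x = x) → m = 1 := by
    intro m hm
    apply hjinj
    rw [map_one]
    apply Subtype.ext
    apply Equiv.ext
    intro x
    exact hm x
  -- M is nontrivial and transitive
  have hMne : M ≠ ⊥ := by
    intro hb
    obtain ⟨a, b, hab⟩ := hT
    have hne : (fun _ : Fin k => a) ≠ 1 := by
      intro h0
      have : a = 1 := congrFun h0 ⟨0, hk⟩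
      exact hab (by rw [this]; simp)
    apply hne
    apply e.symm.injective
    apply Subtype.ext
    have key : ∀ m : M, (m : G) = 1 := by
      intro m
      have h1 : (m : G) ∈ (⊥ : Subgroup G) := hb ▸ m.2
      exact Subgroup.mem_bot.1 h1
    rw [key, key]
  have hMtr : IsPretransitive M Ω := by
    have hq : IsQuasiPreprimitive G Ω := inferInstance
    apply hq.isPretransitive_of_normal
    intro hfix
    apply hMne
    rw [eq_bot_iff]
    intro m hm
    rw [Subgroup.mem_bot]
    apply Subtype.ext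
    apply Equiv.ext
    intro x
    have hx : x ∈ fixedPoints M Ω := by rw [hfix]; trivial
    exact hx ⟨m, hm⟩
  have htrQ : ∀ x y : Ω, ∃ m : Fin k → alternatingGroup (Fin n), j m • x = y := by
    intro x y
    obtain ⟨m, hm⟩ := exists_smul_eq M x y
    refine ⟨e m, ?_⟩
    rw [← hm]
    simp [hj]
    rfl
  obtain ⟨x, y₀, hxy⟩ := hΩ.exists_pair_ne
  rcases Nat.lt_or_ge 1 k with hk2 | hk1
  · -- k ≥ 2 : contradiction
    exfalso
    by_cases hproj : ∀ (i : Fin k) (t : alternatingGroup (Fin n)),
        ∃ m : Fin k → alternatingGroup (Fin n), j m • x = x ∧ m i = t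
    · exact caseB hn j hjconj hfaith htrQ x ⟨y₀, hxy.symm⟩ hproj hsp
    · push Not at hproj
      obtain ⟨i, t, ht⟩ := hproj
      have : ∃ i₁ : Fin k, i ≠ i₁ := by
        by_contra hcon
        push Not at hcon
        have h0 := hcon ⟨0, by omega⟩
        have h1 := hcon ⟨1, by omega⟩
        rw [h0] at h1
        exact absurd (congrArg Fin.val h1) (by simp)
      obtain ⟨i₁, hi⟩ := this
      exact caseA hT j hjconj hfaith htrQ x i i₁ hi ⟨t, ht⟩ hsp
  · -- k = 1
    have hk1 : k = 1 := le_antisymm hk1 hk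
    subst hk1
    let u : (Fin 1 → alternatingGroup (Fin n)) ≃* alternatingGroup (Fin n) :=
      MulEquiv.piUnique (fun _ : Fin 1 => alternatingGroup (Fin n))
    let e' : M ≃* alternatingGroup (Fin n) := e.trans u
    have key := caseOne (Γ := G) (Ω := Ω) hn hprim (M.subtype.comp e'.symm.toMonoidHom)
      (fun g => exists_conj_aut M e' g) ?_ x ⟨y₀, hxy.symm⟩ hsp
    · intro y z y' z' hyz hyz'
      obtain ⟨m, h1, h2⟩ := key y z y' z' hyz hyz'
      exact ⟨_, h1, h2⟩
    · intro x y
      obtain ⟨m, hm⟩ := exists_smul_eq M x y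
      refine ⟨e' m, ?_⟩
      rw [← hm]
      simp
      rfl

/-- ... and therefore QI. -/
theorem main_qi {Ω : Type*} [Fintype Ω] [DecidableEq Ω] (hΩ : Nontrivial Ω)
    (G : Subgroup (Equiv.Perm Ω)) (htr : IsPretransitive G Ω) (hsp : IsSpreading G Ω)
    (M : Subgroup G) [M.Normal] (n k : ℕ) (hn : 14 ≤ n) (hk : 1 ≤ k)
    (e : M ≃* (Fin k → alternatingGroup (Fin n))) : IsQI G Ω :=
  isQI_of_two_transitive hΩ (main_two_transitive hΩ G htr hsp M n k hn hk e)

end Spr43
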