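import Pool.Agent.Lib.MP_43150e_al.Cert

/-! # Spreading implies primitive -/

set_option autoImplicit false

namespace Spr43

open MulAction Pointwise

/-- A transitive spreading action is primitive: for a nontrivial block `B` take `A = B`,
`W = |B|` at one point of `B`, `0` on the rest of `B`, `1` elsewhere. -/
theorem preprimitive_of_spreading {Γ Ω : Type*} [Group Γ] [MulAction Γ Ω] [Fintype Ω]
    [DecidableEq Ω] [IsPretransitive Γ Ω] (h : IsSpreading Γ Ω) : IsPreprimitive Γ Ω := by
  classical
  refine ⟨fun {B} hB => ?_⟩
  by_contra hnt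
  rw [IsTrivialBlock, not_or] at hnt
  obtain ⟨hns, hnu⟩ := hnt
  rw [Set.not_subsingleton_iff] at hns
  obtain ⟨b, hb, b', hb', hbb⟩ := hns
  set A : Finset Ω := Finset.univ.filter (fun x => x ∈ B) with hA
  have hbA : b ∈ A := by simp [hA, hb]
  have hbA' : b' ∈ A := by simp [hA, hb']
  have hAne : A ≠ Finset.univ := by
    intro e
    apply hnu
    rw [Set.eq_univ_iff_forall]
    intro x
    have : x ∈ A := by rw [e]; exact Finset.mem_univ _
    simpa [hA] using this
  have h2 : 2 ≤ A.card := by
    have := Finset.one_lt_card.2 ⟨b, hbA, b', hbA', hbb⟩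
    omega
  let W : Ω → ℕ := fun x => if x = b then A.card else if x ∈ A then 0 else 1
  have hW : ∀ x, W x = if x = b then A.card else if x ∈ A then 0 else 1 := fun _ => rfl
  have hsumA : ∑ x ∈ A, W x = A.card := by
    rw [Finset.sum_eq_single_of_mem b hbA]
    · simp [hW]
    · intro x hx hxb
      simp [hW, hxb, hx]
  have hsumS : ∀ S : Finset Ω, Disjoint S A → ∑ x ∈ S, W x = S.card := by
    intro S hS
    rw [Finset.card_eq_sum_ones]
    apply Finset.sum_congr rfl
    intro x hx
    have hxA : x ∉ A := Finset.disjoint_left.1 hS hx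
    have hxb : x ≠ b := fun e => hxA (e ▸ hbA)
    simp [hW, hxb, hxA]
  refine not_spreading_of_weight (Γ := Γ) A ⟨b, hbA⟩ hAne W ?_ ⟨b, ?_⟩ ?_ h
  · have := Finset.sum_add_sum_compl A W
    rw [← this, hsumA, hsumS _ (disjoint_compl_left), Finset.card_compl]
    have := Finset.card_le_univ A
    omega
  · simp only [hW, if_true]
    omega
  · intro g
    have himg : ∀ x, x ∈ A.image (fun y => g • y) ↔ x ∈ g • B := by
      intro x
      rw [Finset.mem_image, Set.mem_smul_set]
      simp [hA]
    rcases hB.smul_eq_or_disjoint g with hg | hg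
    · have : A.image (fun y => g • y) = A := by
        ext x
        rw [himg, hg]
        simp [hA]
      rw [this, hsumA]
    · have : Disjoint (A.image (fun y => g • y)) A := by
        rw [Finset.disjoint_left]
        intro x hx hxA
        rw [himg] at hx
        have hxB : x ∈ B := by simpa [hA] using hxA
        exact Set.disjoint_left.1 hg hx hxB
      rw [hsumS _ this]
      exact Finset.card_image_le

end Spr43
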