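import Mathlib

/-! # A prime between `(n+1)/2` and `n-3` -/

set_option autoImplicit false

namespace Spr43

open Real in
/-- The inequality of `Mathlib.NumberTheory.Bertrand` with an additional factor `2 x`. -/
theorem pg_real {x : ℝ} (x_large : (512 : ℝ) ≤ x) :
    x * (2 * x) * (2 * x) ^ √(2 * x) * 4 ^ (2 * x / 3) ≤ 4 ^ x := by
  let f : ℝ → ℝ := fun x => log x + (log x + log 2) + √(2 * x) * log (2 * x) - log 4 / 3 * x
  have hf' : ∀ x, 0 < x → 0 < x * (2 * x) * (2 * x) ^ √(2 * x) / 4 ^ (x / 3) := fun x h =>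
    div_pos (mul_pos (mul_pos h (by positivity)) (rpow_pos_of_pos (mul_pos two_pos h) _))
      (rpow_pos_of_pos four_pos _)
  have hf : ∀ x, 0 < x → f x = log (x * (2 * x) * (2 * x) ^ √(2 * x) / 4 ^ (x / 3)) := by
    intro x h5
    have h6 := mul_pos (zero_lt_two' ℝ) h5
    have h7 := rpow_pos_of_pos h6 (√(2 * x))
    rw [log_div (by positivity) (rpow_pos_of_pos four_pos _).ne', log_mul (by positivity) h7.ne',
      log_mul h5.ne' h6.ne', log_rpow h6, log_rpow zero_lt_four, log_mul (by norm_num) h5.ne']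
    simp only [f]
    rw [log_mul (by norm_num) h5.ne']
    ring
  have h5 : 0 < x := lt_of_lt_of_le (by norm_num1) x_large
  rw [← div_le_one (rpow_pos_of_pos four_pos x), ← div_div_eq_mul_div, ← rpow_sub four_pos, ←
    mul_div 2 x, mul_div_left_comm, ← mul_one_sub, (by norm_num1 : (1 : ℝ) - 2 / 3 = 1 / 3),
    mul_one_div, ← log_nonpos_iff (hf' x h5).le, ← hf x h5]
  have h : ConcaveOn ℝ (Set.Ioi 0.5) f := by
    apply ConcaveOn.sub
    · have hl : ConcaveOn ℝ (Set.Ioi 0.5) log := strictConcaveOn_log_Ioi.concaveOn.subset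
          (Set.Ioi_subset_Ioi (by norm_num)) (convex_Ioi 0.5)
      apply ConcaveOn.add
      · exact hl.add (hl.add (concaveOn_const _ (convex_Ioi 0.5)))
      convert!
        ((strictConcaveOn_sqrt_mul_log_Ioi.concaveOn.comp_linearMap ((2 : ℝ) • LinearMap.id)))
        using 1
      ext x
      simp only [Set.mem_Ioi, Set.mem_preimage, LinearMap.smul_apply,
        LinearMap.id_coe, id_eq, smul_eq_mul]
      rw [← mul_lt_mul_iff_right₀ (two_pos)]
      norm_num1
      rfl
    apply ConvexOn.smul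
    · refine div_nonneg (log_nonneg (by norm_num1)) (by norm_num1)
    · exact convexOn_id (convex_Ioi (0.5 : ℝ))
  suffices ∃ x1 x2, 0.5 < x1 ∧ x1 < x2 ∧ x2 ≤ x ∧ 0 ≤ f x1 ∧ f x2 ≤ 0 by
    obtain ⟨x1, x2, h1, h2, h0, h3, h4⟩ := this
    exact (h.right_le_of_le_left'' h1 ((h1.trans h2).trans_le h0) h2 h0 (h4.trans h3)).trans h4
  refine ⟨18, 512, by norm_num1, by norm_num1, x_large, ?_, ?_⟩
  · have : √(2 * 18 : ℝ) = 6 := (sqrt_eq_iff_mul_self_eq_of_pos (by norm_num1)).mpr (by norm_num1)
    rw [hf _ (by norm_num1), log_nonneg_iff (by positivity), this, one_le_div (by norm_num1)]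
    norm_num1
  · have : √(2 * 512) = 32 :=
      (sqrt_eq_iff_mul_self_eq_of_pos (by norm_num1)).mpr (by norm_num1)
    rw [hf _ (by norm_num1), log_nonpos_iff (hf' _ (by norm_num1)).le, this,
        div_le_one (by positivity)]
    have e1 : (512 : ℝ) * (2 * 512) * (2 * 512) ^ (32 : ℝ) = 2 ^ (339 : ℝ) := by
      rw [show (32 : ℝ) = ((32 : ℕ) : ℝ) by norm_num, show (339 : ℝ) = ((339 : ℕ) : ℝ) by norm_num,
        rpow_natCast, rpow_natCast, show (512 : ℝ) = 2 ^ 9 by norm_num,
        show (2 : ℝ) * 2 ^ 9 = 2 ^ 10 by norm_num, ← pow_mul, ← pow_add, ← pow_add]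
    have e2 : (4 : ℝ) ^ ((512 : ℝ) / 3) = 2 ^ ((1024 : ℝ) / 3) := by
      rw [show (4 : ℝ) = 2 ^ (2 : ℝ) by rw [rpow_two]; norm_num1, ← rpow_mul (by norm_num)]
      norm_num
    rw [e1, e2]
    exact rpow_le_rpow_of_exponent_le (by norm_num) (by norm_num)

theorem pg_nat {n : ℕ} (n_large : 512 ≤ n) :
    n * (2 * n) * (2 * n) ^ Nat.sqrt (2 * n) * 4 ^ (2 * n / 3) ≤ 4 ^ n := by
  rw [← @Nat.cast_le ℝ]
  simp only [Nat.cast_mul, Nat.cast_pow, ← Real.rpow_natCast, Nat.cast_ofNat]
  refine _root_.trans ?_ (pg_real (by exact_mod_cast n_large))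
  gcongr
  · have n2_pos : 0 < 2 * n := by positivity
    exact mod_cast n2_pos
  · exact_mod_cast Real.nat_sqrt_le_real_sqrt
  · norm_num1
  · exact Nat.cast_div_le.trans (by norm_cast)

/-- The central binomial coefficient without primes in `(n + 2, 2 n]`. -/
theorem pg_binom (n : ℕ) (hn : 7 ≤ n)
    (no_prime : ∀ p : ℕ, p.Prime → n + 2 < p → 2 * n < p) :
    n.centralBinom ≤ (2 * n) ^ Nat.sqrt (2 * n) * 4 ^ (2 * n / 3) * (n + 2) := by
  have n_pos : 0 < n := by omega
  have n2_pos : 1 ≤ 2 * n := by omega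
  set g : ℕ → ℕ := fun x => x ^ n.centralBinom.factorization x with hg
  have hsmall : ∀ p, Nat.sqrt (2 * n) < p → p.Prime → g p ≤ p := by
    intro p hp hpp
    refine (pow_right_mono₀ hpp.one_lt.le ?_).trans (pow_one p).le
    exact Nat.factorization_choose_le_one (Nat.sqrt_lt'.mp hp)
  have hnp : ∀ p, ¬ p.Prime → g p = 1 := by
    intro p hp
    simp only [hg]
    rw [Nat.factorization_eq_zero_of_not_prime _ hp, _root_.pow_zero]
  have h0 : ∏ p ∈ Finset.range (2 * n + 1), g p = n.centralBinom :=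
    n.prod_pow_factorization_centralBinom
  have h1 : Finset.range (2 * n + 1) = Finset.range (2 * n / 3 + 1) ∪
      Finset.Ico (2 * n / 3 + 1) (2 * n + 1) := by
    ext x
    simp only [Finset.mem_range, Finset.mem_union, Finset.mem_Ico]
    omega
  have h2 : Disjoint (Finset.range (2 * n / 3 + 1)) (Finset.Ico (2 * n / 3 + 1) (2 * n + 1)) := by
    rw [Finset.disjoint_left]
    intro x hx
    simp only [Finset.mem_range, Finset.mem_Ico] at hx ⊢
    omega
  rw [h1, Finset.prod_union h2] at h0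
  rw [← h0]
  apply mul_le_mul'
  · let S := {p ∈ Finset.range (2 * n / 3 + 1) | Nat.Prime p}
    have : ∏ x ∈ S, g x = ∏ x ∈ Finset.range (2 * n / 3 + 1), g x := by
      refine Finset.prod_filter_of_ne fun p _ h => ?_
      contrapose h
      exact hnp p h
    rw [← this, ← Finset.prod_filter_mul_prod_filter_not S (· ≤ Nat.sqrt (2 * n))]
    apply mul_le_mul'
    · refine (Finset.prod_le_prod' fun p _ => (?_ : g p ≤ 2 * n)).trans ?_
      · exact Nat.pow_factorization_choose_le (mul_pos two_pos n_pos)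
      have : (Finset.Icc 1 (Nat.sqrt (2 * n))).card = Nat.sqrt (2 * n) := by
        rw [Nat.card_Icc, Nat.add_sub_cancel]
      rw [Finset.prod_const]
      refine pow_right_mono₀ n2_pos ((Finset.card_le_card fun x hx => ?_).trans this.le)
      obtain ⟨h1, h2⟩ := Finset.mem_filter.1 hx
      exact Finset.mem_Icc.mpr ⟨(Finset.mem_filter.1 h1).2.one_lt.le, h2⟩
    · refine le_trans ?_ (primorial_le_four_pow (2 * n / 3))
      refine (Finset.prod_le_prod' fun p hp => (?_ : g p ≤ p)).trans ?_
      · obtain ⟨h1, h2⟩ := Finset.mem_filter.1 hp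
        exact hsmall p (not_le.1 h2) (Finset.mem_filter.1 h1).2
      refine Finset.prod_le_prod_of_subset_of_one_le' (Finset.filter_subset _ _) ?_
      exact fun p hp _ => (Finset.mem_filter.1 hp).2.one_lt.le
  · have hsq : Nat.sqrt (2 * n) < n + 1 := by
      rw [Nat.sqrt_lt']
      nlinarith
    have h3 : ∏ p ∈ ({n + 1, n + 2} : Finset ℕ), g p =
        ∏ p ∈ Finset.Ico (2 * n / 3 + 1) (2 * n + 1), g p := by
      apply Finset.prod_subset
      · intro x hx
        simp only [Finset.mem_insert, Finset.mem_singleton, Finset.mem_Ico] at hx ⊢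
        omega
      · intro x hx hx2
        simp only [Finset.mem_insert, Finset.mem_singleton, Finset.mem_Ico, not_or] at hx hx2
        by_cases hp : x.Prime
        · have hxn : x ≤ n := by
            by_contra hc
            have := no_prime x hp (by omega)
            omega
          simp only [hg]
          rw [Nat.factorization_centralBinom_of_two_mul_self_lt_three_mul (by omega) hxn (by omega),
            _root_.pow_zero]
        · exact hnp x hp
    rw [← h3, Finset.prod_pair (by omega)]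
    rcases Nat.even_or_odd n with he | ho
    · have hne : ¬ (n + 2).Prime := by
        intro hp
        have h4 := hp.eq_two_or_odd'
        rcases h4 with h4 | h4
        · omega
        · exact (Nat.not_odd_iff_even.mpr (he.add (by decide))) h4
      rw [hnp _ hne, mul_one]
      by_cases hp : (n + 1).Prime
      · exact (hsmall _ hsq hp).trans (by omega)
      · rw [hnp _ hp]
        omega
    · have hne : ¬ (n + 1).Prime := by
        intro hp
        have h4 := hp.eq_two_or_odd'
        rcases h4 with h4 | h4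
        · omega
        · exact (Nat.not_odd_iff_even.mpr (ho.add_odd (by decide))) h4
      rw [hnp _ hne, one_mul]
      by_cases hp : (n + 2).Prime
      · exact (hsmall _ (by omega) hp)
      · rw [hnp _ hp]
        omega

theorem pg_large {m : ℕ} (hm : 514 ≤ m) : ∃ p, p.Prime ∧ m < p ∧ p + 4 ≤ 2 * m := by
  by_contra hcon
  push Not at hcon
  obtain ⟨n, rfl⟩ : ∃ n, m = n + 2 := ⟨m - 2, by omega⟩
  have h1 := pg_binom n (by omega) fun p hp h => by
    have := hcon p hp h
    omega
  have h2 := Nat.four_pow_lt_mul_centralBinom n (by omega)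
  have h3 := pg_nat (n := n) (by omega)
  have h4 : n * n.centralBinom ≤ n * (2 * n) * (2 * n) ^ Nat.sqrt (2 * n) * 4 ^ (2 * n / 3) := by
    calc n * n.centralBinom ≤ n * ((2 * n) ^ Nat.sqrt (2 * n) * 4 ^ (2 * n / 3) * (n + 2)) :=
          Nat.mul_le_mul_left _ h1
      _ ≤ n * ((2 * n) ^ Nat.sqrt (2 * n) * 4 ^ (2 * n / 3) * (2 * n)) :=
          Nat.mul_le_mul_left _ (Nat.mul_le_mul_left _ (by omega))
      _ = _ := by ring
  omega

/-- Bertrand with a margin of four. -/
theorem prime_margin {m : ℕ} (hm : 8 ≤ m) : ∃ p, p.Prime ∧ m < p ∧ p + 4 ≤ 2 * m := by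
  rcases Nat.lt_or_ge m 514 with h | h
  · rcases Nat.lt_or_ge m 11 with h1 | h1
    · exact ⟨11, by norm_num, by omega, by omega⟩
    rcases Nat.lt_or_ge m 17 with h2 | h2
    · exact ⟨17, by norm_num, by omega, by omega⟩
    rcases Nat.lt_or_ge m 29 with h3 | h3
    · exact ⟨29, by norm_num, by omega, by omega⟩
    rcases Nat.lt_or_ge m 53 with h4 | h4
    · exact ⟨53, by norm_num, by omega, by omega⟩
    rcases Nat.lt_or_ge m 101 with h5 | h5
    · exact ⟨101, by norm_num, by omega, by omega⟩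
    rcases Nat.lt_or_ge m 197 with h6 | h6
    · exact ⟨197, by norm_num, by omega, by omega⟩
    rcases Nat.lt_or_ge m 389 with h7 | h7
    · exact ⟨389, by norm_num, by omega, by omega⟩
    exact ⟨769, by norm_num, by omega, by omega⟩
  · exact pg_large h

theorem prime_gap {n : ℕ} (hn : 14 ≤ n) : ∃ p, p.Prime ∧ n + 1 < 2 * p ∧ p + 3 ≤ n := by
  rcases Nat.lt_or_ge n 15 with h | h
  · exact ⟨11, by norm_num, by omega, by omega⟩
  · obtain ⟨p, hp, h1, h2⟩ := prime_margin (m := (n + 1) / 2) (by omega)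
    exact ⟨p, hp, by omega, by omega⟩

end Spr43
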