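import Pool.Agent.Lib.MP_43150e_al.SwA

/-! # Switches for imprimitive subgroups -/

set_option autoImplicit false

namespace Spr43

open MulAction Equiv

open scoped Pointwise

/-- Three points `u i` with partners `z i` and six points outside of the three classes give the
nine points. -/
theorem exists_points_aux {n : ℕ} (r : Setoid (Fin n)) [DecidableRel r.r]
    (u z : Fin 3 → Fin n) (hu : Function.Injective u) (hzu : ∀ i j, z i ≠ u j)
    (hru : ∀ i, r (z i) (u i))
    (hF : 6 ≤ (Finset.univ.filter (fun y => ∀ i, ¬ r (u i) y)).card) :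
    ∃ (c : Fin 3 → ZMod 3 → Fin n) (z : Fin 3 → Fin n),
      (∀ i i' a a', c i a = c i' a' → i = i' ∧ a = a') ∧
      (∀ i i' a, z i ≠ c i' a) ∧
      (∀ i, r (z i) (c i 0)) ∧ (∀ i, ¬ r (c i 0) (c i 1)) ∧ (∀ i, ¬ r (c i 0) (c i 2)) := by
  classical
  have hv : Nonempty (Fin 3 × Fin 2 ↪
      {y // y ∈ Finset.univ.filter (fun y => ∀ i, ¬ r (u i) y)}) := by
    apply Function.Embedding.nonempty_of_card_le
    rw [Fintype.card_coe]
    simpa using hF
  obtain ⟨v⟩ := hv
  have hvm : ∀ q i, ¬ r (u i) (v q : Fin n) := by
    intro q i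
    have := (v q).2
    rw [Finset.mem_filter] at this
    exact this.2 i
  let c : Fin 3 → ZMod 3 → Fin n := fun i a =>
    if a = 0 then u i else if a = 1 then (v (i, 0) : Fin n) else (v (i, 1) : Fin n)
  have hc0 : ∀ i, c i 0 = u i := fun i => by simp only [c, if_true]
  have hcv : ∀ i a, a ≠ 0 → ∃ q, c i a = (v q : Fin n) := by
    intro i a ha
    simp only [c, if_neg ha]
    split_ifs
    · exact ⟨_, rfl⟩
    · exact ⟨_, rfl⟩
  have hcr : ∀ i a k, a ≠ 0 → ¬ r (u k) (c i a) := by
    intro i a k ha
    obtain ⟨q, hq⟩ := hcv i a ha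
    rw [hq]
    exact hvm q k
  have hcu : ∀ i a k, c i a = u k → a = 0 := by
    intro i a k h
    by_contra ha
    apply hcr i a k ha
    rw [h]
  have hinj : ∀ i i' a a', c i a = c i' a' → i = i' ∧ a = a' := by
    intro i i' a a' h
    by_cases ha : a = 0
    · subst ha
      rw [hc0] at h
      have h1 : a' = 0 := hcu i' a' i h.symm
      subst h1
      rw [hc0] at h
      exact ⟨hu h, rfl⟩
    · by_cases ha' : a' = 0
      · subst ha'
        rw [hc0] at h
        exact absurd (hcu i a i' h) ha
      · have key : ∀ b : ZMod 3, b ≠ 0 → b ≠ 1 → b = 2 := by decide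
        simp only [c, if_neg ha, if_neg ha'] at h
        by_cases h1 : a = 1
        · by_cases h1' : a' = 1
          · rw [if_pos h1, if_pos h1'] at h
            have := v.injective (Subtype.ext h)
            rw [Prod.mk.injEq] at this
            exact ⟨this.1, h1.trans h1'.symm⟩
          · rw [if_pos h1, if_neg h1'] at h
            have := v.injective (Subtype.ext h)
            rw [Prod.mk.injEq] at this
            exact absurd this.2 (by decide)
        · by_cases h1' : a' = 1
          · rw [if_neg h1, if_pos h1'] at h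
            have := v.injective (Subtype.ext h)
            rw [Prod.mk.injEq] at this
            exact absurd this.2 (by decide)
          · rw [if_neg h1, if_neg h1'] at h
            have := v.injective (Subtype.ext h)
            rw [Prod.mk.injEq] at this
            exact ⟨this.1, (key a ha h1).trans (key a' ha' h1').symm⟩
  refine ⟨c, z, hinj, ?_, ?_, ?_, ?_⟩
  · intro i i' a h
    by_cases ha : a = 0
    · subst ha
      rw [hc0] at h
      exact hzu i i' h
    · apply hcr i' a i ha
      rw [← h]
      exact r.symm (hru i)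
  · intro i
    rw [hc0]
    exact hru i
  · intro i
    rw [hc0]
    exact hcr i 1 i (by decide)
  · intro i
    rw [hc0]
    exact hcr i 2 i (by decide)

/-- For an equivalence relation on `Fin n` with all classes of the same size `a`, `2 ≤ a`, `a < n`,
`a ∣ n`, `n ≥ 14` there are 9 distinct points `c i 0, c i 1, c i 2` (`i : Fin 3`) and points `z i`
different from all of them with `z i ~ c i 0`, `c i 1`, `c i 2` not `~ c i 0`.
(`a ≥ 4`: one class; `a = 2, 3`: three classes) -/
theorem exists_points {n : ℕ} (hn : 14 ≤ n) (r : Setoid (Fin n)) [DecidableRel r.r] (a : ℕ)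
    (ha : 2 ≤ a) (han : 2 * a ≤ n) (hr : ∀ x, (Finset.univ.filter (fun y => r x y)).card = a) :
    ∃ (c : Fin 3 → ZMod 3 → Fin n) (z : Fin 3 → Fin n),
      (∀ i i' a a', c i a = c i' a' → i = i' ∧ a = a') ∧
      (∀ i i' a, z i ≠ c i' a) ∧
      (∀ i, r (z i) (c i 0)) ∧ (∀ i, ¬ r (c i 0) (c i 1)) ∧ (∀ i, ¬ r (c i 0) (c i 2)) := by
  classical
  have h0n : 0 < n := by omega
  let x₀ : Fin n := ⟨0, h0n⟩
  by_cases ha4 : 4 ≤ a
  · have hv : Nonempty (Fin 4 ↪ {y // y ∈ Finset.univ.filter (fun y => r x₀ y)}) := by
      apply Function.Embedding.nonempty_of_card_le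
      rw [Fintype.card_coe, hr]
      simpa using ha4
    obtain ⟨v⟩ := hv
    have hvm : ∀ q, r x₀ (v q : Fin n) := by
      intro q
      have := (v q).2
      rw [Finset.mem_filter] at this
      exact this.2
    refine exists_points_aux r (fun i => (v i.castSucc : Fin n)) (fun _ => (v 3 : Fin n)) ?_ ?_ ?_ ?_
    · intro i i' h
      have := v.injective (Subtype.ext h)
      exact Fin.castSucc_injective _ this
    · intro i i' h
      have := v.injective (Subtype.ext h)
      revert this
      fin_cases i' <;> decide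
    · intro i
      exact r.trans (r.symm (hvm 3)) (hvm _)
    · have h1 : (Finset.univ.filter (fun y => r x₀ y))ᶜ ⊆
          Finset.univ.filter (fun y => ∀ i : Fin 3, ¬ r (v i.castSucc : Fin n) y) := by
        intro y hy
        rw [Finset.mem_compl, Finset.mem_filter] at hy
        rw [Finset.mem_filter]
        refine ⟨Finset.mem_univ _, fun i h => hy ⟨Finset.mem_univ _, r.trans (hvm _) h⟩⟩
      have h2 := Finset.card_le_card h1
      rw [Finset.card_compl, hr, Fintype.card_fin] at h2
      omega
  · -- divisibility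
    have hdiv : a ∣ n := by
      have h1 := Finset.card_eq_sum_card_fiberwise (s := (Finset.univ : Finset (Fin n)))
        (t := (Finset.univ : Finset (Quotient r))) (f := fun x => (Quotient.mk r x))
        (fun x _ => Finset.mem_coe.2 (Finset.mem_univ _))
      have h2 : ∀ q ∈ (Finset.univ : Finset (Quotient r)),
          (Finset.univ.filter (fun x : Fin n => Quotient.mk r x = q)).card = a := by
        intro q _
        obtain ⟨x, rfl⟩ := Quotient.exists_rep q
        rw [← hr x]
        congr 1
        ext y
        rw [Finset.mem_filter, Finset.mem_filter]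
        refine and_congr_right fun _ => ?_
        rw [Quotient.eq]
        exact ⟨fun h => r.symm h, fun h => r.symm h⟩
      rw [Finset.sum_congr rfl h2, Finset.sum_const, Finset.card_univ, Fintype.card_fin,
        smul_eq_mul] at h1
      exact ⟨_, by rw [h1, mul_comm]⟩
    let C : Fin n → Finset (Fin n) := fun x => Finset.univ.filter (fun y => r x y)
    have hC : ∀ x y, y ∈ C x ↔ r x y := fun x y => by simp [C]
    have hCc : ∀ x, (C x).card = a := hr
    -- the second and the third point
    have h1 : ∃ x₁, x₁ ∉ C x₀ := by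
      by_contra hcon
      push Not at hcon
      have : C x₀ = Finset.univ := Finset.eq_univ_iff_forall.2 hcon
      have h2 := hCc x₀
      rw [this, Finset.card_univ, Fintype.card_fin] at h2
      omega
    obtain ⟨x₁, hx₁⟩ := h1
    have h2 : ∃ x₂, x₂ ∉ C x₀ ∪ C x₁ := by
      by_contra hcon
      push Not at hcon
      have : C x₀ ∪ C x₁ = Finset.univ := Finset.eq_univ_iff_forall.2 hcon
      have h2 := Finset.card_union_le (C x₀) (C x₁)
      rw [this, Finset.card_univ, Fintype.card_fin, hCc, hCc] at h2
      omega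
    obtain ⟨x₂, hx₂⟩ := h2
    rw [Finset.mem_union, not_or] at hx₂
    obtain ⟨hx₂0, hx₂1⟩ := hx₂
    rw [hC] at hx₁ hx₂0 hx₂1
    let u : Fin 3 → Fin n := ![x₀, x₁, x₂]
    have hpair : ∀ i j, i ≠ j → ¬ r (u i) (u j) := by
      intro i j hij
      fin_cases i <;> fin_cases j
      · exact absurd rfl hij
      · exact hx₁
      · exact hx₂0
      · exact fun h => hx₁ (r.symm h)
      · exact absurd rfl hij
      · exact hx₂1
      · exact fun h => hx₂0 (r.symm h)
      · exact fun h => hx₂1 (r.symm h)
      · exact absurd rfl hij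
    have hz : ∀ i, ∃ z, r z (u i) ∧ z ≠ u i := by
      intro i
      obtain ⟨z, hz, hne⟩ := Finset.exists_mem_ne (s := C (u i)) (by rw [hCc]; omega) (u i)
      rw [hC] at hz
      exact ⟨z, r.symm hz, hne⟩
    choose z hz1 hz2 using hz
    refine exists_points_aux r u z ?_ ?_ hz1 ?_
    · intro i j h
      by_contra hij
      apply hpair i j hij
      rw [h]
    · intro i j h
      by_cases hij : i = j
      · subst hij
        exact hz2 i h
      · apply hpair i j hij
        rw [← h]
        exact r.symm (hz1 i)
    · have h3 : (C x₀ ∪ C x₁ ∪ C x₂)ᶜ ⊆ Finset.univ.filter (fun y => ∀ i, ¬ r (u i) y) := by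
        intro y hy
        rw [Finset.mem_compl, Finset.mem_union, Finset.mem_union, hC, hC, hC] at hy
        rw [Finset.mem_filter]
        refine ⟨Finset.mem_univ _, fun i h => hy ?_⟩
        fin_cases i
        · exact Or.inl (Or.inl h)
        · exact Or.inl (Or.inr h)
        · exact Or.inr h
      have h4 := Finset.card_le_card h3
      have h5 := Finset.card_union_le (C x₀ ∪ C x₁) (C x₂)
      have h6 := Finset.card_union_le (C x₀) (C x₁)
      rw [hCc] at h5
      rw [hCc, hCc] at h6
      rw [Finset.card_compl, Fintype.card_fin] at h4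
      obtain ⟨k, hk⟩ := hdiv
      have ha' : a = 2 ∨ a = 3 := by omega
      rcases ha' with rfl | rfl
      · omega
      · omega

/-- `K` transitive, not primitive. `s = 2`, three disjoint 3-cycles. -/
theorem switch_of_imprimitive {n : ℕ} (hn : 14 ≤ n) (K : Subgroup (Perm (Fin n)))
    (htr : IsPretransitive K (Fin n)) (hK : ¬ IsPreprimitive K (Fin n)) : Switch K := by
  classical
  have hB : ∃ B : Set (Fin n), IsBlock K B ∧ ¬ B.Subsingleton ∧ B ≠ Set.univ := by
    by_contra hcon
    push Not at hcon
    apply hK
    refine { toIsPretransitive := htr, isTrivialBlock_of_isBlock := fun {B} hB => ?_ }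
    by_cases h : B.Subsingleton
    · exact Or.inl h
    · exact Or.inr (hcon B hB (Set.not_subsingleton_iff.1 h))
  obtain ⟨B, hB, hB1, hB2⟩ := hB
  let r : Setoid (Fin n) :=
    { r := fun x y => ∀ g : K, (g • x ∈ B ↔ g • y ∈ B)
      iseqv := ⟨fun _ _ => Iff.rfl, fun h g => (h g).symm, fun h h' g => (h g).trans (h' g)⟩ }
  have hrdef : ∀ x y, r x y ↔ ∀ g : K, (g • x ∈ B ↔ g • y ∈ B) := fun x y => Iff.rfl
  have hinvK : ∀ (g : K) x y, r x y → r (g • x) (g • y) := by
    intro g x y hxy g'
    have := hxy (g' * g)
    rwa [mul_smul, mul_smul] at this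
  have hinvK' : ∀ (g : K) x y, r (g • x) (g • y) ↔ r x y := by
    intro g x y
    constructor
    · intro h
      have := hinvK g⁻¹ _ _ h
      rwa [inv_smul_smul, inv_smul_smul] at this
    · exact hinvK g x y
  obtain ⟨b, hb⟩ : B.Nonempty := by
    by_contra h
    rw [Set.not_nonempty_iff_eq_empty] at h
    apply hB1
    rw [h]
    exact Set.subsingleton_empty
  have hcls : ∀ y, r b y ↔ y ∈ B := by
    intro y
    constructor
    · intro h
      have := (h 1).1 (by rwa [one_smul])
      rwa [one_smul] at this
    · intro hy g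
      have hmem : ∀ x ∈ B, g • x ∈ B → ∀ y ∈ B, g • y ∈ B := by
        intro x hx hgx y hy
        have := hB.smul_eq_of_mem hx hgx
        rw [← this]
        exact Set.smul_mem_smul_set hy
      exact ⟨fun h => hmem b hb h y hy, fun h => hmem y hy h b hb⟩
  have hcard : ∀ x, (Finset.univ.filter (fun y => r x y)).card =
      (Finset.univ.filter (fun y => r b y)).card := by
    intro x
    obtain ⟨g, hg⟩ := exists_smul_eq K b x
    symm
    apply Finset.card_bij (fun y _ => g • y)
    · intro y hy
      rw [Finset.mem_filter] at hy ⊢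
      refine ⟨Finset.mem_univ _, ?_⟩
      rw [← hg]
      exact hinvK g _ _ hy.2
    · intro y _ y' _ h
      exact MulAction.injective g h
    · intro y hy
      rw [Finset.mem_filter] at hy
      refine ⟨g⁻¹ • y, ?_, smul_inv_smul g y⟩
      rw [Finset.mem_filter]
      refine ⟨Finset.mem_univ _, ?_⟩
      rw [← hinvK' g, hg, smul_inv_smul]
      exact hy.2
  set a := (Finset.univ.filter (fun y => r b y)).card with ha
  have ha2 : 2 ≤ a := by
    rw [Set.not_subsingleton_iff] at hB1
    obtain ⟨y, hy, y', hy', hne⟩ := hB1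
    have : Finset.card {y, y'} ≤ a := by
      apply Finset.card_le_card
      intro w hw
      rw [Finset.mem_filter]
      refine ⟨Finset.mem_univ _, ?_⟩
      rw [Finset.mem_insert, Finset.mem_singleton] at hw
      rcases hw with rfl | rfl
      · exact (hcls _).2 hy
      · exact (hcls _).2 hy'
    rwa [Finset.card_pair hne] at this
  obtain ⟨y, hy⟩ : ∃ y, y ∉ B := by
    by_contra h
    push Not at h
    exact hB2 (Set.eq_univ_of_forall h)
  have hby : ¬ r b y := fun h => hy ((hcls y).1 h)
  have han : 2 * a ≤ n := by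
    have hdis : Disjoint (Finset.univ.filter (fun w => r b w)) (Finset.univ.filter (fun w => r y w)) := by
      rw [Finset.disjoint_left]
      intro w hw hw'
      rw [Finset.mem_filter] at hw hw'
      exact hby (r.trans hw.2 (r.symm hw'.2))
    have h1 := Finset.card_union_of_disjoint hdis
    have h2 := Finset.card_le_univ (Finset.univ.filter (fun w => r b w) ∪
      Finset.univ.filter (fun w => r y w))
    rw [h1, hcard y, Fintype.card_fin] at h2
    omega
  obtain ⟨c, z, hinj, hzc, hzr, hc1, hc2⟩ := exists_points hn r a ha2 han hcard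
  obtain ⟨b', hb', hbb'⟩ : ∃ b', r b b' ∧ b' ≠ b := by
    obtain ⟨w, hw, hne⟩ := Finset.exists_mem_ne
      (s := Finset.univ.filter (fun y => r b y)) (by omega) b
    rw [Finset.mem_filter] at hw
    exact ⟨w, hw.2, hne⟩
  obtain ⟨φ, hφ1, hφ2⟩ := exists_cycles_hom c hinj
  let ψ : Multiplicative (Fin 3 → ZMod 3) →* Multiplicative (ZMod 3) :=
    AddMonoidHom.toMultiplicative
      (Pi.evalAddMonoidHom (fun _ : Fin 3 => ZMod 3) 0 + Pi.evalAddMonoidHom (fun _ => ZMod 3) 1
        + Pi.evalAddMonoidHom (fun _ => ZMod 3) 2)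
  have hψ : ∀ e : Fin 3 → ZMod 3,
      ψ (Multiplicative.ofAdd e) = Multiplicative.ofAdd (e 0 + e 1 + e 2) :=
    fun e => rfl
  refine ⟨2, 3, ⟨Nat.prime_three⟩, Multiplicative (Fin 3 → ZMod 3), inferInstance, φ, ψ,
    by omega, ⟨{b, b'}, {b, y}, Finset.card_pair hbb'.symm,
      Finset.card_pair (fun h => hy (h ▸ hb)), ?_⟩, ?_, ?_⟩
  · intro h hh heq
    have h1 : r (h b) (h b') := hinvK ⟨h, hh⟩ b b' hb'
    have h2 : (Finset.image (fun i => h i) {b, b'}) = {h b, h b'} := by
      rw [Finset.image_insert, Finset.image_singleton]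
    rw [h2] at heq
    have hb0 : b ∈ ({h b, h b'} : Finset (Fin n)) := by rw [heq]; simp
    have hy0 : y ∈ ({h b, h b'} : Finset (Fin n)) := by rw [heq]; simp
    rw [Finset.mem_insert, Finset.mem_singleton] at hb0 hy0
    apply hby
    rcases hb0 with h3 | h3 <;> rcases hy0 with h4 | h4
    · rw [h4, ← h3]
    · rw [h4]
      nth_rewrite 1 [h3]
      exact h1
    · rw [h4]
      nth_rewrite 1 [h3]
      exact r.symm h1
    · rw [h4, ← h3]
  · intro U hU
    -- a cycle which misses `U`
    have hex : ∃ i : Fin 3, ∀ a, c i a ∉ U := by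
      by_contra hcon
      push Not at hcon
      choose f hf using hcon
      have h1 : (Finset.univ.image (fun i => c i (f i))).card ≤ U.card := by
        apply Finset.card_le_card
        intro w hw
        rw [Finset.mem_image] at hw
        obtain ⟨i, _, rfl⟩ := hw
        exact hf i
      rw [Finset.card_image_of_injective _ (fun i i' h => (hinj _ _ _ _ h).1), Finset.card_univ,
        Fintype.card_fin, hU] at h1
      omega
    obtain ⟨i, hi⟩ := hex
    refine ⟨Multiplicative.ofAdd (Pi.single i 1), ?_, ?_⟩
    · rw [hψ]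
      intro h
      have h' : (Pi.single i 1 : Fin 3 → ZMod 3) 0 + (Pi.single i 1 : Fin 3 → ZMod 3) 1 +
          (Pi.single i 1 : Fin 3 → ZMod 3) 2 = 0 := Multiplicative.ofAdd.injective h
      fin_cases i
      · simp at h'
      · simp at h'
      · simp at h'
    · have h1 : ∀ w ∈ U, (φ (Multiplicative.ofAdd (Pi.single i 1)) : Perm (Fin n)) w = w := by
        intro w hw
        apply hφ2
        intro i' a hi' hia
        have hi1 : i' = i := by
          by_contra hne1
          exact hi' (Pi.single_eq_of_ne hne1 _)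
        subst hi1
        exact hi a (hia ▸ hw)
      rw [Finset.image_congr (g := fun w => w) (fun w hw => h1 w hw)]
      exact Finset.image_id
  · intro e he
    have hz : ∀ i, e.toAdd i = 0 := by
      intro i
      have h1 := hφ1 e.toAdd i 0
      rw [ofAdd_toAdd, zero_add] at h1
      have h2 : (φ e : Perm (Fin n)) (z i) = z i := by
        have := hφ2 e.toAdd (z i) (fun i' a _ h => hzc i i' a h.symm)
        rwa [ofAdd_toAdd] at this
      have h3 : r ((φ e : Perm (Fin n)) (z i)) ((φ e : Perm (Fin n)) (c i 0)) :=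
        hinvK ⟨_, he⟩ _ _ (hzr i)
      rw [h1, h2] at h3
      have h4 : r (c i 0) (c i (e.toAdd i)) := r.trans (r.symm (hzr i)) h3
      by_contra hne
      have key : ∀ b : ZMod 3, b ≠ 0 → b = 1 ∨ b = 2 := by decide
      rcases key _ hne with h5 | h5
      · rw [h5] at h4
        exact hc1 i h4
      · rw [h5] at h4
        exact hc2 i h4
    have h3 := hψ e.toAdd
    rw [ofAdd_toAdd, hz, hz, hz, add_zero, add_zero, ofAdd_zero] at h3
    exact h3

end Spr43
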